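import Mathlib

/-!
# Operators on functions of lists

`lift T i` lets the operator `T` act after skipping the first `i` entries.
-/

namespace Pool.Agent.Helper2

variable {α R : Type*} [CommRing R]

/-- Let the operator `T` act after skipping the first `i` entries. -/
def lift (T : (List α → R) → List α → R) : ℕ → (List α → R) → List α → R
  | 0, ψ, l => T ψ l
  | _ + 1, _, [] => 0
  | i + 1, ψ, x :: l => lift T i (fun l' => ψ (x :: l')) l

@[simp] lemma lift_zero (T : (List α → R) → List α → R) (ψ : List α → R) (l : List α) :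
    lift T 0 ψ l = T ψ l := by cases l <;> rfl

@[simp] lemma lift_succ_nil (T : (List α → R) → List α → R) (i : ℕ) (ψ : List α → R) :
    lift T (i + 1) ψ [] = 0 := rfl

@[simp] lemma lift_succ_cons (T : (List α → R) → List α → R) (i : ℕ) (ψ : List α → R) (x : α)
    (l : List α) : lift T (i + 1) ψ (x :: l) = lift T i (fun l' => ψ (x :: l')) l := rfl

lemma lift_zero' (T : (List α → R) → List α → R) (ψ : List α → R) : lift T 0 ψ = T ψ := by
  funext l; simp

lemma lift_add (T : (List α → R) → List α → R) (i j : ℕ) :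
    ∀ (ψ : List α → R), lift T (i + j) ψ = lift (lift T i) j ψ := by
  induction j with
  | zero => intro ψ; funext l; simp
  | succ j ih =>
    intro ψ
    funext l
    cases l with
    | nil => rw [← Nat.add_assoc]; simp
    | cons x l => rw [← Nat.add_assoc]; simp [ih]

lemma lift_append (T : (List α → R) → List α → R) (p : List α) :
    ∀ (ψ : List α → R) (l : List α),
      lift T p.length ψ (p ++ l) = T (fun l' => ψ (p ++ l')) l := by
  induction p with
  | nil => intro ψ l; simp
  | cons x p ih => intro ψ l; simp [ih]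

lemma lift_append_add (T : (List α → R) → List α → R) (p : List α) (k : ℕ) :
    ∀ (ψ : List α → R) (l : List α),
      lift T (p.length + k) ψ (p ++ l) = lift T k (fun l' => ψ (p ++ l')) l := by
  induction p with
  | nil => intro ψ l; simp
  | cons x p ih =>
    intro ψ l
    have : (x :: p).length + k = (p.length + k) + 1 := by simp; ring
    rw [this]
    simp [ih]

lemma lift_comp_append (A B : (List α → R) → List α → R) (p : List α) (k k' : ℕ)
    (ψ : List α → R) (l : List α) :
    lift A (p.length + k) (lift B (p.length + k') ψ) (p ++ l) =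
      lift A k (lift B k' (fun l' => ψ (p ++ l'))) l := by
  rw [lift_append_add]
  congr 1
  funext l'
  rw [lift_append_add]

lemma lift_short (T : (List α → R) → List α → R) (i : ℕ) :
    ∀ (ψ : List α → R) (l : List α), l.length < i → lift T i ψ l = 0 := by
  induction i with
  | zero => intro ψ l h; omega
  | succ i ih =>
    intro ψ l h
    cases l with
    | nil => simp
    | cons x l => simpa using ih _ l (by simpa using h)

lemma lift_comp (A B : (List α → R) → List α → R) (i : ℕ) (ψ : List α → R) :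
    lift (fun φ => A (B φ)) i ψ = lift A i (lift B i ψ) := by
  funext l
  by_cases h : l.length < i
  · rw [lift_short _ _ _ _ h, lift_short _ _ _ _ h]
  · obtain ⟨p, r, rfl, rfl⟩ : ∃ p r, l = p ++ r ∧ p.length = i :=
      ⟨l.take i, l.drop i, (List.take_append_drop i l).symm, by
        rw [List.length_take]; omega⟩
    rw [lift_append, lift_append]
    congr 1
    funext l'
    rw [lift_append]

/-- Linearity. -/
def Lin2 (T : (List α → R) → List α → R) : Prop :=
  ∀ (φ₁ φ₂ : List α → R) (c₁ c₂ : R), T (fun l => c₁ * φ₁ l + c₂ * φ₂ l) =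
    fun l => c₁ * T φ₁ l + c₂ * T φ₂ l

/-- Linearity, keeping track of the first entry. -/
def HL2 (T : (List α → R) → List α → R) : Prop :=
  ∀ (a : α) (φ φ₁ φ₂ : List α → R) (c₁ c₂ : R),
    (∀ l, φ (a :: l) = c₁ * φ₁ (a :: l) + c₂ * φ₂ (a :: l)) →
    ∀ l, T φ (a :: l) = c₁ * T φ₁ (a :: l) + c₂ * T φ₂ (a :: l)

lemma Lin2.lift {T : (List α → R) → List α → R} (h : Lin2 T) (i : ℕ) :
    Lin2 (Helper2.lift T i) := by
  induction i with
  | zero =>
    intro φ₁ φ₂ c₁ c₂
    funext l
    simp only [lift_zero]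
    rw [h]
  | succ i ih =>
    intro φ₁ φ₂ c₁ c₂
    funext l
    cases l with
    | nil => simp
    | cons x l =>
      simp only [lift_succ_cons]
      exact congrFun (ih (fun l' => φ₁ (x :: l')) (fun l' => φ₂ (x :: l')) c₁ c₂) l

lemma HL2.lift {T : (List α → R) → List α → R} (h : Lin2 T) (h' : HL2 T) (i : ℕ) :
    HL2 (Helper2.lift T i) := by
  cases i with
  | zero => intro a φ φ₁ φ₂ c₁ c₂ H l; simpa using h' a φ φ₁ φ₂ c₁ c₂ H l
  | succ i =>
    intro a φ φ₁ φ₂ c₁ c₂ H l
    simp only [lift_succ_cons]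
    have : (fun l' => φ (a :: l')) = fun l' => c₁ * φ₁ (a :: l') + c₂ * φ₂ (a :: l') := by
      funext l; exact H l
    rw [this]
    exact congrFun (h.lift i _ _ c₁ c₂) l

lemma Lin2.smul {T : (List α → R) → List α → R} (h : Lin2 T) (φ : List α → R) (c : R) :
    T (fun l => c * φ l) = fun l => c * T φ l := by
  have := h φ φ c 0
  simpa using this

lemma Lin2.add {T : (List α → R) → List α → R} (h : Lin2 T) (φ₁ φ₂ : List α → R) :
    T (fun l => φ₁ l + φ₂ l) = fun l => T φ₁ l + T φ₂ l := by
  have := h φ₁ φ₂ 1 1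
  simpa using this

lemma Lin2.zero {T : (List α → R) → List α → R} (h : Lin2 T) :
    T (fun _ => 0) = fun _ => 0 := by
  have := h (fun _ => 0) (fun _ => 0) 0 0
  simpa using this

lemma HL2.smul {T : (List α → R) → List α → R} (h : HL2 T) (a : α) (φ φ₁ : List α → R) (c : R)
    (H : ∀ l, φ (a :: l) = c * φ₁ (a :: l)) (l : List α) : T φ (a :: l) = c * T φ₁ (a :: l) := by
  have := h a φ φ₁ φ₁ c 0 (fun l => by rw [H]; ring) l
  rw [this]; ring

lemma HL2.congr {T : (List α → R) → List α → R} (h : HL2 T) (a : α) (φ φ₁ : List α → R)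
    (H : ∀ l, φ (a :: l) = φ₁ (a :: l)) (l : List α) : T φ (a :: l) = T φ₁ (a :: l) := by
  have := h.smul a φ φ₁ 1 (fun l => by rw [H]; ring) l
  rw [this]; ring

lemma HL2.three {T : (List α → R) → List α → R} (h : HL2 T) (a : α)
    (φ φ₁ φ₂ φ₃ : List α → R) (c₁ c₂ c₃ : R)
    (H : ∀ l, φ (a :: l) = c₁ * φ₁ (a :: l) + c₂ * φ₂ (a :: l) + c₃ * φ₃ (a :: l)) (l : List α) :
    T φ (a :: l) = c₁ * T φ₁ (a :: l) + c₂ * T φ₂ (a :: l) + c₃ * T φ₃ (a :: l) := by
  have h1 := h a φ (fun l => c₁ * φ₁ l + c₂ * φ₂ l) φ₃ 1 c₃ (fun l => by rw [H, one_mul]) l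
  have h2 := h a (fun l => c₁ * φ₁ l + c₂ * φ₂ l) φ₁ φ₂ c₁ c₂ (fun l => rfl) l
  rw [h1, h2, one_mul]

end Pool.Agent.Helper2
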