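import Pool.Agent.Helper2.Diagram
import Pool.Agent.Helper2.Lift

/-!
# Abstract models of the Temperley-Lieb relations, and two instances
-/

namespace Pool.Agent.Helper2

/-- A model of the Temperley-Lieb relations on a module `V`; `Supp n` singles out the states of
`n` strands. -/
structure Model (R V : Type) [CommRing R] [AddCommGroup V] [Module R V] where
  Supp : ℕ → V → Prop
  δ : R
  init : V
  cup : ℕ → V →ₗ[R] V
  cap : ℕ → V →ₗ[R] V
  supp_init : Supp 0 init
  supp_cup : ∀ n i ψ, i ≤ n → Supp n ψ → Supp (n + 2) (cup i ψ)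
  supp_cap : ∀ n i ψ, i ≤ n → Supp (n + 2) ψ → Supp n (cap i ψ)
  rel1 : ∀ (n i : ℕ) (ψ : V), Supp n ψ → i ≤ n → cap i (cup i ψ) = δ • ψ
  rel2 : ∀ (n i : ℕ) (ψ : V), Supp n ψ → i + 1 ≤ n → cap (i + 1) (cup i ψ) = ψ
  rel3 : ∀ (n i : ℕ) (ψ : V), Supp n ψ → i + 1 ≤ n → cap i (cup (i + 1) ψ) = ψ
  rel4 : ∀ (n i k : ℕ) (ψ : V), Supp n ψ → i + k + 2 ≤ n →
    cap (i + k + 2) (cup i ψ) = cup i (cap (i + k) ψ)
  rel5 : ∀ (n i k : ℕ) (ψ : V), Supp n ψ → i + k + 2 ≤ n →
    cap i (cup (i + k + 2) ψ) = cup (i + k) (cap i ψ)

variable {R V : Type} [CommRing R] [AddCommGroup V] [Module R V]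

/-- The state obtained by applying cups only (topmost first). -/
def Model.build (M : Model R V) : List ℕ → V
  | [] => M.init
  | i :: C => M.cup i (M.build C)

/-- Well formed stacks of cups, with `n` strands at the top. -/
inductive CupsOk : List ℕ → ℕ → Prop
  | nil : CupsOk [] 0
  | cons {C : List ℕ} {n i : ℕ} : CupsOk C n → i ≤ n → CupsOk (i :: C) (n + 2)

lemma Model.supp_build (M : Model R V) {C : List ℕ} {n : ℕ} (h : CupsOk C n) :
    M.Supp n (M.build C) := by
  induction h with
  | nil => exact M.supp_init
  | cons _ hi ih => exact M.supp_cup _ _ _ hi ih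

lemma cap_build (C : List ℕ) : ∀ (n j : ℕ), CupsOk C (n + 2) → j ≤ n →
    ∃ (C' : List ℕ) (e : ℕ), CupsOk C' n ∧
      ∀ {R V : Type} [CommRing R] [AddCommGroup V] [Module R V] (M : Model R V),
      M.cap j (M.build C) = M.δ ^ e • M.build C' := by
  induction C with
  | nil => intro n j h; cases h
  | cons i C ih =>
    intro n j h hj
    cases h with
    | cons hC hi =>
      rcases Nat.lt_trichotomy j i with hlt | heq | hgt
      · -- `j < i`
        obtain ⟨k, rfl⟩ : ∃ k, i = j + k + 1 := ⟨i - j - 1, by omega⟩
        cases k with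
        | zero =>
          refine ⟨C, 0, hC, fun M => ?_⟩
          simpa [Model.build] using M.rel3 n j (M.build C) (M.supp_build hC) hi
        | succ k =>
          obtain ⟨m, rfl⟩ : ∃ m, n = m + 2 := ⟨n - 2, by omega⟩
          obtain ⟨C', e, hC', H⟩ := ih m j hC (by omega)
          refine ⟨(j + k) :: C', e, CupsOk.cons hC' (by omega), fun M => ?_⟩
          have h1 := M.rel5 (m + 2) j k (M.build C) (M.supp_build hC) (by omega)
          have h2 : j + (k + 1) + 1 = j + k + 2 := by ring
          rw [Model.build, h2, h1, H M, Model.build, map_smul]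
      · subst heq
        refine ⟨C, 1, hC, fun M => ?_⟩
        simpa [Model.build] using M.rel1 n j (M.build C) (M.supp_build hC) hj
      · obtain ⟨k, rfl⟩ : ∃ k, j = i + k + 1 := ⟨j - i - 1, by omega⟩
        cases k with
        | zero =>
          refine ⟨C, 0, hC, fun M => ?_⟩
          simpa [Model.build] using M.rel2 n i (M.build C) (M.supp_build hC) hj
        | succ k =>
          obtain ⟨m, rfl⟩ : ∃ m, n = m + 2 := ⟨n - 2, by omega⟩
          obtain ⟨C', e, hC', H⟩ := ih m (i + k) hC (by omega)
          refine ⟨i :: C', e, CupsOk.cons hC' (by omega), fun M => ?_⟩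
          have h1 := M.rel4 (m + 2) i k (M.build C) (M.supp_build hC) (by omega)
          have h2 : i + (k + 1) + 1 = i + k + 2 := by ring
          rw [Model.build, h2, h1, H M, Model.build, map_smul]

/-- Heights fit. -/
def Ok : List Slice → ℕ → ℕ → Prop
  | [], n, m => n = m
  | .cup i _ :: w, n, m => i ≤ n ∧ Ok w (n + 2) m
  | .cap i :: w, n, m => i + 2 ≤ n ∧ Ok w (n - 2) m
  | .cross i _ :: w, n, m => i + 2 ≤ n ∧ Ok w n m

lemma ok_of_dirs : ∀ (w : List Slice) (o o' : List Bool), dirsAbove w o = some o' →
    Ok w o.length o'.length := by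
  intro w
  induction w with
  | nil => intro o o' h; simp [dirsAbove] at h; simp [Ok, h]
  | cons s w ih =>
    intro o o' h
    cases s with
    | cup i u =>
      simp only [dirsAbove, Slice.dirs] at h
      split_ifs at h with hi
      · simp only [Option.bind_some] at h
        have := ih _ _ h
        refine ⟨hi, ?_⟩
        convert this using 1
        simp
        omega
      · simp at h
    | cap i =>
      simp only [dirsAbove, Slice.dirs] at h
      rcases hd : o.drop i with _ | ⟨a, _ | ⟨b, r⟩⟩
      · simp [hd] at h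
      · simp [hd] at h
      · simp only [hd] at h
        split_ifs at h with hab
        · simp at h
        · simp only [Option.bind_some] at h
          have hl : (o.drop i).length = r.length + 2 := by simp [hd]
          rw [List.length_drop] at hl
          have := ih _ _ h
          refine ⟨by omega, ?_⟩
          convert this using 1
          simp
          omega
    | cross i p =>
      simp only [dirsAbove, Slice.dirs] at h
      rcases hd : o.drop i with _ | ⟨a, _ | ⟨b, r⟩⟩
      · simp [hd] at h
      · simp [hd] at h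
      · simp only [hd, Option.bind_some] at h
        have hl : (o.drop i).length = r.length + 2 := by simp [hd]
        rw [List.length_drop] at hl
        have := ih _ _ h
        refine ⟨by omega, ?_⟩
        convert this using 1
        simp
        omega

lemma ok_append (w w' : List Slice) : ∀ (n m k : ℕ), Ok w n m → Ok w' m k → Ok (w ++ w') n k := by
  induction w with
  | nil => intro n m k h h'; simp [Ok] at h; subst h; simpa using h'
  | cons s w ih =>
    intro n m k h h'
    cases s with
    | cup i u => exact ⟨h.1, ih _ _ _ h.2 h'⟩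
    | cap i => exact ⟨h.1, ih _ _ _ h.2 h'⟩
    | cross i p => exact ⟨h.1, ih _ _ _ h.2 h'⟩

/-- Operators attached to the pieces, given operators for cups, caps and crossings. -/
structure Ops (V : Type) where
  cup : ℕ → V → V
  cap : ℕ → V → V
  cross : ℕ → Bool → V → V

/-- The operator of a piece. -/
def Ops.act {V : Type} (O : Ops V) : Slice → V → V
  | .cup i _ => O.cup i
  | .cap i => O.cap i
  | .cross i p => O.cross i p

/-- The operator of a stack of pieces. -/
def Ops.run {V : Type} (O : Ops V) : List Slice → V → V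
  | [], ψ => ψ
  | s :: w, ψ => O.run w (O.act s ψ)

lemma Ops.run_append {V : Type} (O : Ops V) (w w' : List Slice) :
    ∀ ψ, O.run (w ++ w') ψ = O.run w' (O.run w ψ) := by
  induction w with
  | nil => intro ψ; rfl
  | cons s w ih => intro ψ; exact ih _

/-- A stack without crossings. -/
def NoCross : List Slice → Prop
  | [] => True
  | .cross _ _ :: _ => False
  | _ :: w => NoCross w

/-- The operators of a model, with some operators for the crossings. -/
def Model.ops (M : Model R V) (X : ℕ → Bool → V → V) : Ops V where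
  cup i := M.cup i
  cap i := M.cap i
  cross := X

lemma run_smul_build (w : List Slice) (hw : NoCross w) : ∀ (n m : ℕ) (C : List ℕ), Ok w n m →
    CupsOk C n → ∃ (C' : List ℕ) (e : ℕ), CupsOk C' m ∧
      ∀ {R V : Type} [CommRing R] [AddCommGroup V] [Module R V] (M : Model R V)
        (X : ℕ → Bool → V → V) (c : R),
      (M.ops X).run w (c • M.build C) = (c * M.δ ^ e) • M.build C' := by
  induction w with
  | nil =>
    intro n m C h hC
    simp [Ok] at h
    subst h
    exact ⟨C, 0, hC, fun M X c => by simp [Ops.run]⟩
  | cons s w ih =>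
    intro n m C h hC
    cases s with
    | cup i u =>
      obtain ⟨C', e, hC', H⟩ := ih hw _ _ (i :: C) h.2 (CupsOk.cons hC h.1)
      refine ⟨C', e, hC', fun M X c => ?_⟩
      have := H M X c
      rw [← this]
      simp [Ops.run, Ops.act, Model.ops, Model.build]
    | cap i =>
      obtain ⟨k, rfl⟩ : ∃ k, n = k + 2 := ⟨n - 2, by have := h.1; omega⟩
      obtain ⟨C₁, e₁, hC₁, H₁⟩ := cap_build C k i hC (by have := h.1; omega)
      obtain ⟨C', e, hC', H⟩ := ih hw _ _ C₁ h.2 hC₁
      refine ⟨C', e₁ + e, hC', fun M X c => ?_⟩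
      have := H M X (c * M.δ ^ e₁)
      rw [pow_add, ← mul_assoc, ← this]
      simp [Ops.run, Ops.act, Model.ops, H₁ M, mul_smul]
    | cross i p => exact absurd hw (by simp [NoCross])

end Pool.Agent.Helper2
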