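import Pool.Agent.Helper2.TraceLemma

/-!
# The path model computes the Kauffman bracket
-/

namespace Pool.Agent.Helper2

open LaurentPolynomial

/-- Coefficient of the vertical smoothing. -/
noncomputable def cA (z : ℂˣ) (p : Bool) : ℂ := if p then (z : ℂ) else ((z⁻¹ : ℂˣ) : ℂ)

/-- Coefficient of the horizontal smoothing. -/
noncomputable def cB (z : ℂˣ) (p : Bool) : ℂ := if p then ((z⁻¹ : ℂˣ) : ℂ) else (z : ℂ)

/-- The crossing of the path model. -/
noncomputable def pX0 (z : ℂˣ) (d : ℂ) (p : Bool) (ψ : List Bool → ℂ) : List Bool → ℂ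
  | a :: b :: c :: l => if (a || b) = true ∧ (b || c) = true then
      cA z p * ψ (a :: b :: c :: l) + cB z p * pCup0 d (pCap0 d ψ) (a :: b :: c :: l) else 0
  | _ => 0

lemma pX0_lin (z : ℂˣ) (d : ℂ) (p : Bool) : Lin2 (pX0 z d p) := by
  intro φ₁ φ₂ c₁ c₂
  funext l
  rcases l with _ | ⟨a, _ | ⟨b, _ | ⟨c, l⟩⟩⟩
  · simp [pX0]
  · simp [pX0]
  · simp [pX0]
  · simp only [pX0]
    rw [pCap0_lin, pCup0_lin]
    split_ifs <;> ring

lemma pX0_hl (z : ℂˣ) (d : ℂ) (p : Bool) : HL2 (pX0 z d p) := by
  intro a φ φ₁ φ₂ c₁ c₂ H l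
  rcases l with _ | ⟨b, _ | ⟨c, l⟩⟩
  · simp [pX0]
  · simp [pX0]
  · simp only [pX0]
    rw [H]
    have h1 : ∀ l, pCap0 d φ (a :: l) = c₁ * pCap0 d φ₁ (a :: l) + c₂ * pCap0 d φ₂ (a :: l) :=
      pCap0_hl d a φ φ₁ φ₂ c₁ c₂ H
    rw [pCup0_hl d a _ _ _ c₁ c₂ h1]
    split_ifs <;> ring

/-- The operators of the path model. -/
noncomputable def pathOps (z : ℂˣ) (d : ℂ) : Ops (List Bool → ℂ) where
  cup := lift (pCup0 d)
  cap := lift (pCap0 d)
  cross i p := lift (pX0 z d p) i

lemma pX_eq (z : ℂˣ) (d : ℂ) (n i : ℕ) (p : Bool) (ψ : List Bool → ℂ) (h : PSupp n ψ)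
    (hi : i + 2 ≤ n) :
    lift (pX0 z d p) i ψ =
      fun l => cA z p * ψ l + cB z p * lift (pCup0 d) i (lift (pCap0 d) i ψ) l := by
  funext l
  by_cases hlen : l.length < i + 3
  · have h0 : ψ l = 0 := by
      by_contra hne
      have := (h l hne).1
      omega
    have h1 : lift (pCup0 d) i (lift (pCap0 d) i ψ) l = 0 := by
      obtain ⟨m, rfl⟩ : ∃ m, n = m + 2 := ⟨n - 2, by omega⟩
      by_contra hne
      have := (pCup_supp d m i _ (by omega) (pCap_supp d m i ψ (by omega) h) l hne).1
      omega
    rw [h0, h1]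
    by_cases hlen' : l.length < i
    · rw [lift_short _ _ _ _ hlen']; ring
    · obtain ⟨q, r, rfl, rfl⟩ := split_list l i (by omega)
      rw [lift_append]
      rcases r with _ | ⟨a, _ | ⟨b, _ | ⟨c, r⟩⟩⟩
      · simp [pX0]
      · simp [pX0]
      · simp [pX0]
      · simp at hlen; omega
  obtain ⟨q, r, rfl, rfl⟩ := split_list l i (by omega)
  have := lift_comp_append (pCup0 d) (pCap0 d) q 0 0 ψ r
  simp only [Nat.add_zero, lift_zero, lift_zero'] at this
  rw [this, lift_append]
  rcases r with _ | ⟨a, _ | ⟨b, _ | ⟨c, r⟩⟩⟩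
  · simp at hlen
  · simp at hlen
  · simp at hlen
  · simp only [pX0]
    split_ifs with hleg
    · rfl
    · have hill : ¬ legal (q ++ a :: b :: c :: r) := by
        intro hl
        exact hleg ⟨(legal_right _ _ hl).1, (legal_right _ _ hl).2.1⟩
      have h0 : ψ (q ++ a :: b :: c :: r) = 0 := by
        by_contra hne
        exact hill (h _ hne).2
      have h1 : lift (pCup0 d) q.length (lift (pCap0 d) q.length ψ)
          (q ++ a :: b :: c :: r) = 0 := by
        obtain ⟨m, rfl⟩ : ∃ m, n = m + 2 := ⟨n - 2, by omega⟩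
        by_contra hne
        exact hill (pCup_supp d m _ _ (by omega) (pCap_supp d m _ ψ (by omega) h) _ hne).2
      rw [this] at h1
      rw [h0, h1]
      ring

lemma pX_supp (z : ℂˣ) (d : ℂ) (n i : ℕ) (p : Bool) (ψ : List Bool → ℂ) (hi : i + 2 ≤ n)
    (h : PSupp n ψ) : PSupp n (lift (pX0 z d p) i ψ) := by
  rw [pX_eq z d n i p ψ h hi]
  obtain ⟨m, rfl⟩ : ∃ m, n = m + 2 := ⟨n - 2, by omega⟩
  have h2 := pCup_supp d m i _ (by omega) (pCap_supp d m i ψ (by omega) h)
  intro l hl
  by_cases h1 : ψ l = 0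
  · simp only [h1, mul_zero, zero_add] at hl
    exact h2 l (right_ne_zero_of_mul hl)
  · exact h l h1

lemma pathOps_act_lin (z : ℂˣ) (d : ℂ) (s : Slice) : Lin2 ((pathOps z d).act s) := by
  cases s with
  | cup i u => exact (pCup0_lin d).lift i
  | cap i => exact (pCap0_lin d).lift i
  | cross i p => exact (pX0_lin z d p).lift i

lemma run_lin {R : Type} [CommRing R] (O : Ops (List Bool → R)) (hO : ∀ s, Lin2 (O.act s))
    (w : List Slice) : Lin2 (O.run w) := by
  induction w with
  | nil => intro φ₁ φ₂ c₁ c₂; rfl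
  | cons s w ih =>
    intro φ₁ φ₂ c₁ c₂
    simp only [Ops.run]
    rw [hO s, ih]

lemma sum_flatMap_two {β γ : Type} (L : List β) (a b : β → γ) (f : γ → ℂ) :
    ((L.flatMap fun s => [a s, b s]).map f).sum = (L.map fun s => f (a s) + f (b s)).sum := by
  induction L with
  | nil => simp
  | cons x L ih => simp [ih, add_assoc]

lemma sum_map_lin {β : Type} (L : List β) (c₁ c₂ : ℂ) (f g : β → ℂ) :
    (L.map fun s => c₁ * f s + c₂ * g s).sum = c₁ * (L.map f).sum + c₂ * (L.map g).sum := by
  induction L with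
  | nil => simp
  | cons x L ih => simp [ih]; ring

lemma run_states (z : ℂˣ) (d : ℂ) (w : List Slice) : ∀ (n m : ℕ) (ψ : List Bool → ℂ),
    Ok w n m → PSupp n ψ → ∀ l, (pathOps z d).run w ψ l =
      ((states w).map fun s => ((z ^ s.1 : ℂˣ) : ℂ) * (pathOps z d).run s.2 ψ l).sum := by
  induction w with
  | nil => intro n m ψ _ _ l; simp [states, Ops.run]
  | cons s w ih =>
    intro n m ψ h hψ l
    cases s with
    | cup i u =>
      have := ih _ _ _ h.2 (pCup_supp d n i ψ h.1 hψ) l
      rw [Ops.run, Ops.act, pathOps]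
      rw [pathOps] at this
      rw [this, states, List.map_map]
      · rfl
      · intro j p; exact Slice.noConfusion
    | cap i =>
      obtain ⟨k, rfl⟩ : ∃ k, n = k + 2 := ⟨n - 2, by have := h.1; omega⟩
      have := ih _ _ _ h.2 (pCap_supp d k i ψ (by have := h.1; omega) hψ) l
      rw [Ops.run, Ops.act, pathOps]
      rw [pathOps] at this
      rw [this, states, List.map_map]
      · rfl
      · intro j p; exact Slice.noConfusion
    | cross i p =>
      obtain ⟨k, rfl⟩ : ∃ k, n = k + 2 := ⟨n - 2, by have := h.1; omega⟩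
      have hcap := pCap_supp d k i ψ (by have := h.1; omega) hψ
      have hcup := pCup_supp d k i _ (by have := h.1; omega) hcap
      have e1 : (pathOps z d).run (.cross i p :: w) ψ l =
          cA z p * (pathOps z d).run w ψ l +
          cB z p * (pathOps z d).run w (lift (pCup0 d) i (lift (pCap0 d) i ψ)) l := by
        have : (pathOps z d).act (.cross i p) ψ = _ :=
          pX_eq z d (k + 2) i p ψ hψ (by have := h.1; omega)
        rw [Ops.run, this, run_lin _ (pathOps_act_lin z d)]
      rw [e1, ih _ _ _ h.2 hψ l, ih _ _ _ h.2 hcup l, states, sum_flatMap_two, ← sum_map_lin]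
      congr 1
      apply List.map_congr_left
      intro s _
      have e2 : (pathOps z d).run (.cap i :: .cup i true :: s.2) ψ l =
        (pathOps z d).run s.2 (lift (pCup0 d) i (lift (pCap0 d) i ψ)) l := rfl
      cases p
      · simp only [cA, cB, Bool.false_eq_true, if_false]
        rw [e2, sub_neg_eq_add, zpow_add, zpow_add, zpow_neg, zpow_one]
        push_cast
        ring
      · simp only [cA, cB, if_true]
        rw [e2, sub_eq_add_neg, zpow_add, zpow_add, zpow_neg, zpow_one]
        push_cast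
        ring

lemma states_ok (w : List Slice) : ∀ (n m : ℕ), Ok w n m → ∀ s ∈ states w,
    NoCross s.2 ∧ Ok s.2 n m := by
  induction w with
  | nil =>
    intro n m h s hs
    simp [states] at hs
    subst hs
    exact ⟨trivial, h⟩
  | cons s w ih =>
    intro n m h t ht
    cases s with
    | cup i u =>
      rw [states] at ht
      · rw [List.mem_map] at ht
        obtain ⟨t', ht', rfl⟩ := ht
        have := ih _ _ h.2 t' ht'
        exact ⟨this.1, h.1, this.2⟩
      · intro j p; exact Slice.noConfusion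
    | cap i =>
      rw [states] at ht
      · rw [List.mem_map] at ht
        obtain ⟨t', ht', rfl⟩ := ht
        have := ih _ _ h.2 t' ht'
        exact ⟨this.1, h.1, this.2⟩
      · intro j p; exact Slice.noConfusion
    | cross i p =>
      rw [states, List.mem_flatMap] at ht
      obtain ⟨t', ht', ht⟩ := ht
      have := ih _ _ h.2 t' ht'
      simp only [List.mem_cons, List.not_mem_nil, or_false] at ht
      rcases ht with rfl | rfl
      · exact this
      · refine ⟨this.1, h.1, ?_, ?_⟩
        · have := h.1; omega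
        · have h2 : n - 2 + 2 = n := by have := h.1; omega
          rw [h2]
          exact this.2

/-! ### Lower bound for the number of colourings -/

/-- All entries are equal to `b`. -/
def mono (b : Bool) (x : List Bool) : Prop := ∀ a ∈ x, a = b

instance (b : Bool) (x : List Bool) : Decidable (mono b x) := by
  unfold mono; infer_instance

/-- The two obvious colourings. -/
def lb (x : List Bool) : ℤ := (if mono true x then 1 else 0) + (if mono false x then 1 else 0)

lemma mono_append (b : Bool) (p q : List Bool) : mono b (p ++ q) ↔ mono b p ∧ mono b q := by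
  simp only [mono, List.mem_append]
  constructor
  · intro h; exact ⟨fun a ha => h a (Or.inl ha), fun a ha => h a (Or.inr ha)⟩
  · rintro ⟨h1, h2⟩ a (ha | ha)
    · exact h1 a ha
    · exact h2 a ha

lemma mono_cons (b a : Bool) (q : List Bool) : mono b (a :: q) ↔ a = b ∧ mono b q := by
  simp [mono]

lemma mono_nil (b : Bool) : mono b [] := by simp [mono]

lemma lb_nonneg (x : List Bool) : 0 ≤ lb x := by
  unfold lb; split_ifs <;> simp

lemma lb_cup (p q : List Bool) (a : Bool) : lb (p ++ a :: a :: q) ≤ lb (p ++ q) := by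
  simp only [lb, mono_append, mono_cons]
  cases a <;> simp only [Bool.false_eq_true, Bool.true_eq_false, false_and, and_false, if_false,
    true_and] <;> split_ifs <;> simp

lemma lb_cup_ne (p q : List Bool) (a b : Bool) (h : a ≠ b) : lb (p ++ a :: b :: q) = 0 := by
  simp only [lb, mono_append, mono_cons]
  cases a <;> cases b <;> simp at h ⊢

lemma lb_swap (p q : List Bool) (a b : Bool) : lb (p ++ a :: b :: q) = lb (p ++ b :: a :: q) := by
  simp only [lb, mono_append, mono_cons]
  cases a <;> cases b <;> simp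

lemma lb_cap (p q : List Bool) :
    lb (p ++ q) = lb (p ++ true :: true :: q) + lb (p ++ false :: false :: q) := by
  simp only [lb, mono_append, mono_cons]
  simp

/-- Lower bound. -/
def LB (n : ℕ) (ψ : List Bool → ℤ) : Prop := ∀ x, x.length = n → lb x ≤ ψ x

lemma LB.cup {n i : ℕ} {ψ : List Bool → ℤ} (h : LB n ψ) (hi : i ≤ n) :
    LB (n + 2) (lift eCup0 i ψ) := by
  intro x hx
  obtain ⟨p, r, rfl, rfl⟩ := split_list x i (by omega)
  rw [lift_append]
  rcases r with _ | ⟨a, _ | ⟨b, r⟩⟩
  · simp at hx; omega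
  · simp at hx; omega
  simp only [eCup0]
  split_ifs with hab
  · subst hab
    exact (lb_cup p r a).trans (h _ (by simp at hx ⊢; omega))
  · rw [lb_cup_ne p r a b hab]

lemma LB.cap {n i : ℕ} {ψ : List Bool → ℤ} (h : LB (n + 2) ψ) (hi : i ≤ n) :
    LB n (lift eCap0 i ψ) := by
  intro x hx
  obtain ⟨p, r, rfl, rfl⟩ := split_list x i (by omega)
  rw [lift_append, lb_cap]
  exact add_le_add (h _ (by simp at hx ⊢; omega)) (h _ (by simp at hx ⊢; omega))

lemma LB.cross {n i : ℕ} {ψ : List Bool → ℤ} (h : LB n ψ) (hi : i + 2 ≤ n) :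
    LB n (lift eX0 i ψ) := by
  intro x hx
  obtain ⟨p, r, rfl, rfl⟩ := split_list x i (by omega)
  rw [lift_append]
  rcases r with _ | ⟨a, _ | ⟨b, r⟩⟩
  · simp at hx; omega
  · simp at hx; omega
  rw [lb_swap]
  exact h _ (by simp at hx ⊢; omega)

lemma LB.run (w : List Slice) : ∀ (n m : ℕ) (ψ : List Bool → ℤ), Ok w n m → LB n ψ →
    LB m (colOps.run w ψ) := by
  induction w with
  | nil => intro n m ψ h hψ; simp only [Ok] at h; subst h; exact hψ
  | cons s w ih =>
    intro n m ψ h hψ
    cases s with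
    | cup i u => exact ih _ _ _ h.2 (hψ.cup h.1)
    | cap i =>
      obtain ⟨k, rfl⟩ : ∃ k, n = k + 2 := ⟨n - 2, by have := h.1; omega⟩
      exact ih _ _ _ h.2 (hψ.cap (by have := h.1; omega))
    | cross i p => exact ih _ _ _ h.2 (hψ.cross h.1)

/-- The initial state of the colouring model. -/
def eInit (l : List Bool) : ℤ := if l.length = 0 then 1 else 0

lemma first_slice (D : List Slice) (m : ℕ) (h : Ok D 0 m) (hD : D ≠ []) :
    ∃ u w, D = .cup 0 u :: w ∧ Ok w 2 m := by
  cases D with
  | nil => exact absurd rfl hD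
  | cons s w =>
    cases s with
    | cup i u =>
      have h1 := h.1
      obtain rfl : i = 0 := by omega
      exact ⟨u, w, rfl, h.2⟩
    | cap i => exact absurd h.1 (by omega)
    | cross i p => exact absurd h.1 (by omega)

lemma LB.first : LB 2 (lift eCup0 0 eInit) := by
  intro x hx
  rcases x with _ | ⟨a, _ | ⟨b, _ | ⟨c, x⟩⟩⟩
  · simp at hx
  · simp at hx
  · simp only [lift_zero, eCup0, eInit]
    cases a <;> cases b <;> decide
  · simp at hx

lemma curves_pos (D : List Slice) (h : Ok D 0 0) (hD : D ≠ []) : 1 ≤ curves D := by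
  have h2 := colour_curves D h
  obtain ⟨u, w, rfl, hw⟩ := first_slice D 0 h hD
  have h3 : LB 0 (colOps.run w (lift eCup0 0 eInit)) := LB.run w 2 0 _ hw LB.first
  have h4 := h3 [] rfl
  have h5 : (colOps.run (.cup 0 u :: w) (fun l => if l.length = 0 then 1 else 0) []) =
    colOps.run w (lift eCup0 0 eInit) [] := rfl
  rw [← h5, h2] at h4
  by_contra hcon
  have h6 : curves (.cup 0 u :: w) = 0 := by omega
  rw [h6] at h4
  revert h4
  decide

lemma states_ne (D : List Slice) (h : Ok D 0 0) (hD : D ≠ []) : ∀ s ∈ states D, s.2 ≠ [] := by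
  obtain ⟨u, w, rfl, hw⟩ := first_slice D 0 h hD
  intro s hs
  rw [states] at hs
  · rw [List.mem_map] at hs
    obtain ⟨t, _, rfl⟩ := hs
    simp
  · intro j p; exact Slice.noConfusion

/-- The initial state of the path model. -/
noncomputable def pInit (l : List Bool) : ℂ := if l.length = 1 then 1 else 0

lemma run_ops_col (w : List Slice) : ∀ ψ,
    (colModel.ops (fun i _ => lift eX0 i)).run w ψ = colOps.run w ψ := by
  induction w with
  | nil => intro ψ; rfl
  | cons s w ih => intro ψ; cases s <;> exact ih _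

lemma run_ops_path (z : ℂˣ) (d : ℂ) (hd : d * d = d + 1) (w : List Slice) : ∀ ψ,
    ((pathModel d hd).ops (fun i p => lift (pX0 z d p) i)).run w ψ = (pathOps z d).run w ψ := by
  induction w with
  | nil => intro ψ; rfl
  | cons s w ih => intro ψ; cases s <;> exact ih _

lemma path_noCross (z : ℂˣ) (d : ℂ) (hd : d * d = d + 1) (w : List Slice) (hw : NoCross w)
    (h : Ok w 0 0) (a : Bool) : (pathOps z d).run w pInit [a] = d ^ curves w := by
  obtain ⟨C', e, hC', H⟩ := run_smul_build w hw 0 0 [] h CupsOk.nil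
  cases hC'
  have h1 := H colModel (fun i _ => lift eX0 i) 1
  have h2 := H (pathModel d hd) (fun i p => lift (pX0 z d p) i) 1
  rw [run_ops_col, one_smul, one_mul] at h1
  rw [run_ops_path, one_smul, one_mul] at h2
  have h3 := colour_curves w h
  have h4 : colOps.run w (fun l => if l.length = 0 then 1 else 0) [] = (2 : ℤ) ^ e := by
    have := congrFun h1 []
    simp only [Model.build, Pi.smul_apply, smul_eq_mul] at this
    have e2 : colModel.init = (fun l => if l.length = 0 then 1 else 0) := rfl
    rw [e2] at this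
    rw [this]
    simp [colModel]
  rw [h4] at h3
  have h5 : e = curves w := by
    have := Int.pow_right_injective (a := 2) (by decide) h3
    exact this
  have h6 := congrFun h2 [a]
  simp only [Model.build, Pi.smul_apply, smul_eq_mul] at h6
  have e3 : (pathModel d hd).init = pInit := rfl
  rw [e3] at h6
  rw [h6, ← h5]
  simp [pathModel, pInit]

lemma PSupp_pInit : PSupp 0 pInit := by
  intro l hl
  by_cases h : l.length = 1
  · obtain ⟨a, rfl⟩ := List.length_eq_one_iff.1 h
    simp [legal]
  · simp [pInit, h] at hl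

lemma sum_map_hom (f : LaurentPolynomial ℤ →+* ℂ) {β : Type} (L : List β)
    (g : β → LaurentPolynomial ℤ) : f (L.map g).sum = (L.map fun s => f (g s)).sum := by
  induction L with
  | nil => simp
  | cons x L ih => simp [ih]

/-- The path model computes the Kauffman bracket at a point where `d^2 = d + 1`. -/
theorem path_bracket (z : ℂˣ) (d : ℂ) (hd : d * d = d + 1) (hz : evalAt z loopVal = d)
    (D : List Slice) (h : Ok D 0 0) (hD : D ≠ []) (a : Bool) :
    (pathOps z d).run D pInit [a] = d * evalAt z (bracket D) := by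
  rw [run_states z d D 0 0 pInit h PSupp_pInit, bracket, sum_map_hom, ← List.sum_map_mul_left]
  congr 1
  apply List.map_congr_left
  intro s hs
  obtain ⟨h1, h2⟩ := states_ok D 0 0 h s hs
  have h3 := curves_pos s.2 h2 (states_ne D h hD s hs)
  rw [path_noCross z d hd s.2 h1 h2, map_mul, map_pow, hz]
  have h4 : evalAt z (T s.1) = ((z ^ s.1 : ℂˣ) : ℂ) := by
    simp [evalAt, LaurentPolynomial.eval₂_T]
  rw [h4]
  obtain ⟨k, hk⟩ : ∃ k, curves s.2 = k + 1 := ⟨curves s.2 - 1, by omega⟩
  rw [hk, Nat.add_sub_cancel, pow_succ]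
  ring

end Pool.Agent.Helper2
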