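import Mathlib

/-!
# Link diagrams in Morse position, the Kauffman bracket and the f-polynomial

A link diagram is cut by horizontal lines into elementary pieces, read from bottom to top.
-/

namespace Pool.Agent.Helper2

open LaurentPolynomial

/-- The elementary pieces of an oriented link diagram in Morse position.  At every height the
strands are numbered `0, 1, 2, ...` from left to right.
* `cup i u` : a local minimum, creating two new strands in positions `i` and `i+1`; the new
  strand in position `i` is directed upwards iff `u = true` (and the other one the other way);
* `cap i`   : a local maximum, joining the strands in positions `i` and `i+1`;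
* `cross i p` : a crossing of the strands in positions `i` and `i+1`; if `p = true` the strand
  running from the lower left to the upper right is the over-strand, if `p = false` it is the
  under-strand. -/
inductive Slice where
  | cup (i : ℕ) (u : Bool)
  | cap (i : ℕ)
  | cross (i : ℕ) (p : Bool)
deriving DecidableEq

/-- The list of directions of the strands (`true` = upwards) just above a piece, in terms of the
list of directions just below it; `none` if the piece does not fit. -/
def Slice.dirs (o : List Bool) : Slice → Option (List Bool)
  | .cup i u => if i ≤ o.length then some (o.take i ++ u :: (!u) :: o.drop i) else none
  | .cap i =>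
      match o.drop i with
      | a :: b :: r => if a = b then none else some (o.take i ++ r)
      | _ => none
  | .cross i _ =>
      match o.drop i with
      | a :: b :: r => some (o.take i ++ b :: a :: r)
      | _ => none

/-- Directions of the strands above a stack of pieces. -/
def dirsAbove : List Slice → List Bool → Option (List Bool)
  | [], o => some o
  | s :: w, o => (s.dirs o).bind (dirsAbove w)

/-- `D` is an oriented link diagram: the pieces fit together, start and end with no strand, and
the directions agree. -/
def IsDiagram (D : List Slice) : Prop := dirsAbove D [] = some []

/-- Bookkeeping for following the curve: a supply of fresh names, the names of the arcs to which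
the present strands belong, and the number of closed curves completed so far. -/
structure Trace where
  fresh : ℕ
  names : List ℕ
  closed : ℕ

/-- Follow the curve through one piece. At a crossing the strands pass through each other. At a
cap two different arcs are joined, or one arc is closed up to a closed curve. -/
def Trace.step (t : Trace) : Slice → Trace
  | .cup i _ => ⟨t.fresh + 1, t.names.take i ++ t.fresh :: t.fresh :: t.names.drop i, t.closed⟩
  | .cap i =>
      match t.names.drop i with
      | a :: b :: r =>
          if a = b then ⟨t.fresh, t.names.take i ++ r, t.closed + 1⟩
          else ⟨t.fresh, (t.names.take i ++ r).map (fun c => if c = b then a else c), t.closed⟩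
      | _ => t
  | .cross i _ =>
      match t.names.drop i with
      | a :: b :: r => ⟨t.fresh, t.names.take i ++ b :: a :: r, t.closed⟩
      | _ => t

/-- The number of closed curves of a diagram (its number of components). -/
def curves (D : List Slice) : ℕ := (D.foldl Trace.step ⟨0, [], 0⟩).closed

/-- `D` is a diagram of a knot: a link diagram consisting of exactly one closed curve. -/
def IsKnotDiagram (D : List Slice) : Prop := IsDiagram D ∧ curves D = 1

/-- The sign of a crossing in an oriented diagram: `p = true` means positive when both strands
are directed upwards. -/
def Slice.sign (o : List Bool) : Slice → ℤ
  | .cross i p =>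
      match o.drop i with
      | a :: b :: _ => if (a = b) ↔ (p = true) then 1 else -1
      | _ => 0
  | _ => 0

/-- Sum of the signs of the crossings of a stack of pieces. -/
def signSum : List Slice → List Bool → ℤ
  | [], _ => 0
  | s :: w, o => s.sign o + signSum w ((s.dirs o).getD [])

/-- The writhe of an oriented diagram. -/
def writhe (D : List Slice) : ℤ := signSum D []

/-- All states of a diagram, each given as `(number of A-smoothings minus number of B-smoothings,
smoothed diagram)`.  The two smoothings of a crossing are the vertical one (the crossing is
removed) and the horizontal one (a cap followed by a cup).  For `p = true` the vertical one is of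
type `A`, for `p = false` it is of type `B`. -/
def states : List Slice → List (ℤ × List Slice)
  | [] => [(0, [])]
  | .cross i p :: w =>
      (states w).flatMap fun s =>
        [(s.1 + (if p then 1 else -1), s.2),
         (s.1 - (if p then 1 else -1), .cap i :: .cup i true :: s.2)]
  | s :: w => (states w).map fun t => (t.1, s :: t.2)

/-- The value `d = -(A^2 + A^{-2})`. -/
noncomputable def loopVal : LaurentPolynomial ℤ := -(T 2 + T (-2))

/-- The Kauffman bracket `∑ A^{α(s) - β(s)} d^{|s| - 1}` of a diagram. -/
noncomputable def bracket (D : List Slice) : LaurentPolynomial ℤ :=
  ((states D).map fun s => T s.1 * loopVal ^ (curves s.2 - 1)).sum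

/-- The f-polynomial `(-A^{-3})^{w(D)} ⟨D⟩`. -/
noncomputable def fPoly (D : List Slice) : LaurentPolynomial ℤ :=
  (-1) ^ (writhe D).natAbs * T (-3 * writhe D) * bracket D

/-- Doubling of a piece: every strand is replaced by two parallel strands, the left one directed
upwards and the right one directed downwards. -/
def Slice.double : Slice → List Slice
  | .cup i _ => [.cup (2 * i) true, .cup (2 * i + 1) false]
  | .cap i => [.cap (2 * i + 1), .cap (2 * i)]
  | .cross i p => [.cross (2 * i + 1) p, .cross (2 * i) p, .cross (2 * i + 2) p,
      .cross (2 * i + 1) p]

/-- `-w` full twists of the first two strands. -/
def fullTwists (w : ℤ) : List Slice := List.replicate (2 * w.natAbs) (.cross 0 (decide (w < 0)))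

/-- The clasp of the first two strands; `p` is its sign. -/
def clasp (p : Bool) : List Slice := [.cup 1 true, .cross 0 p, .cross 2 p, .cap 1]

/-- The untwisted Whitehead double, with clasp sign `p`, of a knot diagram: double the diagram,
and insert just above the first local minimum, in the first doubled strand, `-w(D)` full twists
and a clasp. -/
def whiteheadDouble (p : Bool) : List Slice → List Slice
  | [] => []
  | s :: w => s.double ++ (fullTwists (writhe (s :: w)) ++ (clasp p ++ w.flatMap Slice.double))

/-- Iterated untwisted Whitehead doubles, with clasp signs given by a list. -/
def iteratedDouble : List Bool → List Slice → List Slice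
  | [], D => D
  | p :: ps, D => whiteheadDouble p (iteratedDouble ps D)

/-- Evaluation of a Laurent polynomial at a nonzero complex number. -/
noncomputable def evalAt (z : ℂˣ) : LaurentPolynomial ℤ →+* ℂ :=
  LaurentPolynomial.eval₂ (Int.castRingHom ℂ) z

end Pool.Agent.Helper2
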