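import Pool.Agent.Helper2.FillDefs
import Pool.Agent.Helper2.StateSum

/-!
# The bracket vector of a tangle diagram
-/

namespace Pool.Agent.Helper2

open LaurentPolynomial

/-- The sign `+1` or `-1` of a Boolean. -/
def sg (p : Bool) : ℤ := if p then 1 else -1

section model

variable {R V : Type} [CommRing R] [AddCommGroup V] [Module R V]

/-- The crossing operator of a model at a unit `z`. -/
def Model.X (M : Model R V) (z : Rˣ) (i : ℕ) (p : Bool) (ψ : V) : V :=
  ((z ^ (sg p) : Rˣ) : R) • ψ + ((z ^ (-(sg p)) : Rˣ) : R) • M.cup i (M.cap i ψ)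

lemma Model.run_add (M : Model R V) (z : Rˣ) (w : List Slice) : ∀ ψ φ,
    (M.ops (M.X z)).run w (ψ + φ) = (M.ops (M.X z)).run w ψ + (M.ops (M.X z)).run w φ := by
  induction w with
  | nil => intro ψ φ; rfl
  | cons s w ih =>
    intro ψ φ
    have : (M.ops (M.X z)).act s (ψ + φ) =
        (M.ops (M.X z)).act s ψ + (M.ops (M.X z)).act s φ := by
      cases s with
      | cup i u => exact map_add (M.cup i) ψ φ
      | cap i => exact map_add (M.cap i) ψ φ
      | cross i p =>
        change M.X z i p (ψ + φ) = M.X z i p ψ + M.X z i p φ
        simp only [Model.X, map_add, smul_add]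
        abel
    simp only [Ops.run]
    rw [this, ih]

lemma Model.run_smul (M : Model R V) (z : Rˣ) (w : List Slice) : ∀ (c : R) ψ,
    (M.ops (M.X z)).run w (c • ψ) = c • (M.ops (M.X z)).run w ψ := by
  induction w with
  | nil => intro c ψ; rfl
  | cons s w ih =>
    intro c ψ
    have : (M.ops (M.X z)).act s (c • ψ) = c • (M.ops (M.X z)).act s ψ := by
      cases s with
      | cup i u => exact map_smul (M.cup i) c ψ
      | cap i => exact map_smul (M.cap i) c ψ
      | cross i p =>
        change M.X z i p (c • ψ) = c • M.X z i p ψ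
        simp only [Model.X, map_smul, smul_add, smul_smul]
        congr 2 <;> ring
    simp only [Ops.run]
    rw [this, ih]

lemma sum_flatMap_pair {β γ W : Type} [AddCommMonoid W] (L : List β) (a b : β → γ) (f : γ → W) :
    ((L.flatMap fun s => [a s, b s]).map f).sum = (L.map fun s => f (a s) + f (b s)).sum := by
  induction L with
  | nil => simp
  | cons x L ih => simp [ih, add_assoc]

lemma sum_map_add' {β W : Type} [AddCommMonoid W] (L : List β) (f g : β → W) :
    (L.map fun s => f s + g s).sum = (L.map f).sum + (L.map g).sum := by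
  induction L with
  | nil => simp
  | cons x L ih => simp only [List.map_cons, List.sum_cons, ih]; abel

lemma smul_sum_map {β : Type} (L : List β) (c : R) (f : β → V) :
    (L.map fun s => c • f s).sum = c • (L.map f).sum := by
  induction L with
  | nil => simp
  | cons x L ih => simp [ih]

lemma Model.run_states (M : Model R V) (z : Rˣ) (w : List Slice) : ∀ ψ,
    (M.ops (M.X z)).run w ψ =
      ((states w).map fun s => ((z ^ s.1 : Rˣ) : R) • (M.ops (M.X z)).run s.2 ψ).sum := by
  induction w with
  | nil => intro ψ; simp [states, Ops.run]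
  | cons s w ih =>
    intro ψ
    cases s with
    | cup i u =>
      rw [states, List.map_map]
      · exact ih _
      · intro j p; exact Slice.noConfusion
    | cap i =>
      rw [states, List.map_map]
      · exact ih _
      · intro j p; exact Slice.noConfusion
    | cross i p =>
      have e1 : (M.ops (M.X z)).run (.cross i p :: w) ψ =
          ((z ^ (sg p) : Rˣ) : R) • (M.ops (M.X z)).run w ψ +
          ((z ^ (-(sg p)) : Rˣ) : R) • (M.ops (M.X z)).run w (M.cup i (M.cap i ψ)) := by
        rw [← M.run_smul, ← M.run_smul, ← M.run_add]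
        rfl
      rw [e1, ih, ih, states, sum_flatMap_pair, ← smul_sum_map, ← smul_sum_map, ← sum_map_add']
      congr 1
      apply List.map_congr_left
      intro s _
      have e2 : (M.ops (M.X z)).run (.cap i :: .cup i true :: s.2) ψ =
        (M.ops (M.X z)).run s.2 (M.cup i (M.cap i ψ)) := rfl
      rw [e2, smul_smul, smul_smul, ← Units.val_mul, ← Units.val_mul, ← zpow_add, ← zpow_add]
      rw [add_comm (sg p), add_comm (-sg p)]
      rfl

end model

/-- The two crossingless tangles with four upper ends. -/
def mw (t : Bool) : List Slice := [.cup 0 true, .cup (if t then 1 else 0) true]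

lemma cups4 (C : List ℕ) (h : CupsOk C 4) : C = [0, 0] ∨ C = [1, 0] ∨ C = [2, 0] := by
  cases h with
  | @cons C' n i h1 hi =>
    cases h1 with
    | @cons C'' n' j h2 hj =>
      cases h2
      obtain rfl : j = 0 := Nat.le_zero.1 hj
      have : i = 0 ∨ i = 1 ∨ i = 2 := by omega
      rcases this with rfl | rfl | rfl <;> simp

/-- Evaluation of Laurent polynomials at a unit. -/
noncomputable def ev {S : Type} [CommRing S] (z : Sˣ) : LaurentPolynomial ℤ →+* S :=
  LaurentPolynomial.eval₂ (Int.castRingHom S) z

lemma ev_T {S : Type} [CommRing S] (z : Sˣ) (n : ℤ) : ev z (T n) = ((z ^ n : Sˣ) : S) := by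
  simp [ev, LaurentPolynomial.eval₂_T]

/-- Far away cups commute. -/
def Model.Far {R V : Type} [CommRing R] [AddCommGroup V] [Module R V] (M : Model R V) : Prop :=
  M.cup 2 (M.cup 0 M.init) = M.cup 0 (M.cup 0 M.init)

lemma col_far : colModel.Far := by
  unfold Model.Far
  funext l
  change lift eCup0 2 (lift eCup0 0 _) l = lift eCup0 0 (lift eCup0 0 _) l
  rcases l with _ | ⟨a, _ | ⟨b, _ | ⟨c, _ | ⟨d, l⟩⟩⟩⟩
  · simp [eCup0]
  · simp [eCup0]
  · simp [eCup0]
  · simp [eCup0]
  · simp only [lift_succ_cons, lift_zero, eCup0]
    split_ifs <;> rfl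

/-- The type and the number of circles of a crossingless tangle with four upper ends. -/
lemma type_of_noCross (w : List Slice) (hw : NoCross w) (h : Ok w 0 4) :
    ∃ (t : Bool) (e : ℕ), ∀ {R V : Type} [CommRing R] [AddCommGroup V] [Module R V]
      (M : Model R V) (X : ℕ → Bool → V → V), M.Far →
      (M.ops X).run w M.init = M.δ ^ e • M.cup (if t then 1 else 0) (M.cup 0 M.init) := by
  obtain ⟨C', e, hC', H⟩ := run_smul_build w hw 0 4 [] h CupsOk.nil
  rcases cups4 C' hC' with rfl | rfl | rfl
  · refine ⟨false, e, fun M X _ => ?_⟩
    have := H M X 1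
    rw [one_smul, one_mul] at this
    exact this
  · refine ⟨true, e, fun M X _ => ?_⟩
    have := H M X 1
    rw [one_smul, one_mul] at this
    exact this
  · refine ⟨false, e, fun M X hM => ?_⟩
    have := H M X 1
    rw [one_smul, one_mul] at this
    have h2 : M.build [2, 0] = M.cup 0 (M.cup 0 M.init) := hM
    rw [h2] at this
    exact this

lemma colOps_lin (w : List Slice) (c : ℤ) (ψ : List Bool → ℤ) :
    colOps.run w (c • ψ) = c • colOps.run w ψ := by
  have hO : ∀ s, Lin2 (colOps.act s) := by
    intro s
    cases s with
    | cup i u => exact eCup0_lin.lift i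
    | cap i => exact eCap0_lin.lift i
    | cross i p => exact eX0_lin.lift i
  exact (run_lin colOps hO w).smul ψ c

/-- Comparison of numbers of curves. -/
lemma curves_pre (m m' : List Slice) (e : ℕ) (hm : colOps.run m colModel.init =
    (2 : ℤ) ^ e • colOps.run m' colModel.init) (t : List Slice) (h : Ok (m ++ t) 0 0)
    (h' : Ok (m' ++ t) 0 0) : curves (m ++ t) = e + curves (m' ++ t) := by
  have h1 := colour_curves _ h
  have h2 := colour_curves _ h'
  rw [Ops.run_append] at h1 h2
  have e2 : colModel.init = (fun l => if l.length = 0 then 1 else 0) := rfl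
  rw [e2] at hm
  rw [hm, colOps_lin, Pi.smul_apply, h2, smul_eq_mul, ← pow_add] at h1
  have := Int.pow_right_injective (a := 2) (by decide) h1
  exact this.symm

lemma sum_states_append (w w' : List Slice) : ∀ G : ℤ → List Slice → LaurentPolynomial ℤ,
    ((states (w ++ w')).map fun s => G s.1 s.2).sum =
      ((states w).map fun s => ((states w').map fun t => G (s.1 + t.1) (s.2 ++ t.2)).sum).sum := by
  induction w with
  | nil => intro G; simp [states]
  | cons s w ih =>
    intro G
    cases s with
    | cup i u =>
      rw [List.cons_append, states, List.map_map, states, List.map_map]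
      · exact ih fun a l => G a (.cup i u :: l)
      · intro j p; exact Slice.noConfusion
      · intro j p; exact Slice.noConfusion
    | cap i =>
      rw [List.cons_append, states, List.map_map, states, List.map_map]
      · exact ih fun a l => G a (.cap i :: l)
      · intro j p; exact Slice.noConfusion
      · intro j p; exact Slice.noConfusion
    | cross i p =>
      rw [List.cons_append, states, states, sum_flatMap_pair, sum_flatMap_pair]
      rw [ih fun a l => G (a + (if p then 1 else -1)) l +
        G (a - (if p then 1 else -1)) (.cap i :: .cup i true :: l)]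
      congr 1
      apply List.map_congr_left
      intro s _
      rw [sum_map_add']
      congr 1
      · congr 1
        apply List.map_congr_left
        intro t _
        rw [add_right_comm]
      · congr 1
        apply List.map_congr_left
        intro t _
        rw [sub_add_eq_add_sub]
        rfl

/-- The bracket of a diagram whose lower part is a fixed crossingless diagram. -/
noncomputable def BB (m t : List Slice) : LaurentPolynomial ℤ :=
  ((states t).map fun s => T s.1 * loopVal ^ (curves (m ++ s.2) - 1)).sum

lemma bracket_mw (t : Bool) (w : List Slice) : bracket (mw t ++ w) = BB (mw t) w := by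
  unfold bracket BB mw
  rw [List.cons_append, List.cons_append, List.nil_append, states, List.map_map, states,
    List.map_map]
  · rfl
  · intro j p; exact Slice.noConfusion
  · intro j p; exact Slice.noConfusion

lemma ok_mw (t : Bool) : Ok (mw t) 0 4 := by
  cases t <;> simp [mw, Ok]

lemma smul_sum_map' {β : Type} (L : List β) (c : LaurentPolynomial ℤ)
    (f : β → LaurentPolynomial ℤ) : (L.map fun s => c * f s).sum = c * (L.map f).sum := by
  induction L with
  | nil => simp
  | cons x L ih => simp [ih, mul_add]

/-- The bracket vector of a tangle. -/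
theorem exists_vec (R : List Slice) (hR : Ok R 0 4) : ∃ x y : LaurentPolynomial ℤ,
    (∀ t, Ok t 4 0 → bracket (R ++ t) =
      x * bracket (mw false ++ t) + y * bracket (mw true ++ t)) ∧
    (∀ {S V : Type} [CommRing S] [AddCommGroup V] [Module S V] (M : Model S V) (z : Sˣ),
      M.δ = ev z loopVal → M.Far → (M.ops (M.X z)).run R M.init =
        ev z x • M.cup 0 (M.cup 0 M.init) + ev z y • M.cup 1 (M.cup 0 M.init)) := by
  have key : ∀ L : List (ℤ × List Slice), (∀ s ∈ L, NoCross s.2 ∧ Ok s.2 0 4) →
      ∃ x y : LaurentPolynomial ℤ,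
      (∀ t, Ok t 4 0 → (L.map fun s => ((states t).map fun r =>
          (T (s.1 + r.1) * loopVal ^ (curves (s.2 ++ r.2) - 1) : LaurentPolynomial ℤ)).sum).sum =
        x * BB (mw false) t + y * BB (mw true) t) ∧
      (∀ {S V : Type} [CommRing S] [AddCommGroup V] [Module S V] (M : Model S V) (z : Sˣ),
        M.δ = ev z loopVal → M.Far →
        (L.map fun s => ((z ^ s.1 : Sˣ) : S) • (M.ops (M.X z)).run s.2 M.init).sum =
        ev z x • M.cup 0 (M.cup 0 M.init) + ev z y • M.cup 1 (M.cup 0 M.init)) := by
    intro L
    induction L with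
    | nil =>
      intro _
      refine ⟨0, 0, fun t _ => by simp, fun M z _ _ => by simp⟩
    | cons s L ih =>
      intro hL
      obtain ⟨x, y, h1, h2⟩ := ih (fun s hs => hL s (List.mem_cons_of_mem _ hs))
      obtain ⟨hs1, hs2⟩ := hL s List.mem_cons_self
      obtain ⟨ty, e, hty⟩ := type_of_noCross s.2 hs1 hs2
      have hcol := hty colModel (fun i _ => lift eX0 i) col_far
      rw [run_ops_col] at hcol
      have hmw : colOps.run (mw ty) colModel.init =
        colModel.cup (if ty then 1 else 0) (colModel.cup 0 colModel.init) := rfl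
      rw [← hmw] at hcol
      have hterm : ∀ t, Ok t 4 0 → ((states t).map fun r =>
          (T (s.1 + r.1) * loopVal ^ (curves (s.2 ++ r.2) - 1) : LaurentPolynomial ℤ)).sum =
          T s.1 * loopVal ^ e * BB (mw ty) t := by
        intro t ht
        rw [BB, ← smul_sum_map']
        congr 1
        apply List.map_congr_left
        intro r hr
        obtain ⟨_, hr2⟩ := states_ok t 4 0 ht r hr
        have hok : Ok (mw ty ++ r.2) 0 0 := ok_append _ _ _ _ _ (ok_mw ty) hr2
        have h3 := curves_pre s.2 (mw ty) e hcol r.2 (ok_append _ _ _ _ _ hs2 hr2) hok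
        have h4 := curves_pos _ hok (by simp [mw])
        rw [h3, Nat.add_sub_assoc h4, pow_add, T_add]
        ring
      have hrun : ∀ {S V : Type} [CommRing S] [AddCommGroup V] [Module S V] (M : Model S V)
          (z : Sˣ), M.δ = ev z loopVal → M.Far →
          ((z ^ s.1 : Sˣ) : S) • (M.ops (M.X z)).run s.2 M.init =
            ev z (T s.1 * loopVal ^ e) • M.cup (if ty then 1 else 0) (M.cup 0 M.init) := by
        intro S V _ _ _ M z hδ hM
        rw [hty M (M.X z) hM, map_mul, map_pow, ev_T, smul_smul, hδ]
      cases ty with
      | false =>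
        refine ⟨T s.1 * loopVal ^ e + x, y, fun t ht => ?_, fun M z hδ hM => ?_⟩
        · rw [List.map_cons, List.sum_cons, hterm t ht, h1 t ht]
          ring
        · rw [List.map_cons, List.sum_cons, hrun M z hδ hM, h2 M z hδ hM, map_add, add_smul]
          simp only [Bool.false_eq_true, if_false]
          abel
      | true =>
        refine ⟨x, T s.1 * loopVal ^ e + y, fun t ht => ?_, fun M z hδ hM => ?_⟩
        · rw [List.map_cons, List.sum_cons, hterm t ht, h1 t ht]
          ring
        · rw [List.map_cons, List.sum_cons, hrun M z hδ hM, h2 M z hδ hM, map_add, add_smul]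
          simp only [if_true]
          abel
  obtain ⟨x, y, h1, h2⟩ := key (states R) (states_ok R 0 4 hR)
  refine ⟨x, y, fun t ht => ?_, fun M z hδ hM => ?_⟩
  · rw [bracket_mw, bracket_mw, ← h1 t ht]
    exact sum_states_append R t fun a l => T a * loopVal ^ (curves l - 1)
  · rw [M.run_states]
    exact h2 M z hδ hM

end Pool.Agent.Helper2
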