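import Pool.Agent.Helper2.Instances

/-!
# Two-colourings count closed curves
-/

namespace Pool.Agent.Helper2

open Classical in
/-- The state described by a trace. -/
noncomputable def cnt (t : Trace) (x : List Bool) : ℤ :=
  if ∃ φ : ℕ → Bool, t.names.map φ = x then 2 ^ t.closed else 0

open Classical in
lemma cnt_of_iff {t : Trace} {x : List Bool} {P : Prop}
    (h : (∃ φ : ℕ → Bool, t.names.map φ = x) ↔ P) : cnt t x = if P then 2 ^ t.closed else 0 := by
  unfold cnt
  by_cases hP : P
  · rw [if_pos (h.2 hP), if_pos hP]
  · rw [if_neg (fun h' => hP (h.1 h')), if_neg hP]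

/-- Invariants of a trace. -/
def Good (t : Trace) : Prop :=
  (∀ a ∈ t.names, a < t.fresh) ∧ ∀ a ∈ t.names, t.names.count a = 2

/-- The swap. -/
def eX0 (ψ : List Bool → ℤ) : List Bool → ℤ
  | x :: y :: l => ψ (y :: x :: l)
  | _ => 0

lemma eX0_lin : Lin2 eX0 := by
  intro φ₁ φ₂ c₁ c₂
  funext l
  rcases l with _ | ⟨a, _ | ⟨b, l⟩⟩ <;> simp [eX0]

/-- The operators of the two-colouring model. -/
def colOps : Ops (List Bool → ℤ) where
  cup := lift eCup0
  cap := lift eCap0
  cross i _ := lift eX0 i

lemma map_append_iff (p q : List ℕ) (φ : ℕ → Bool) (x y : List Bool) (h : p.length = x.length) :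
    (p ++ q).map φ = x ++ y ↔ p.map φ = x ∧ q.map φ = y := by
  rw [List.map_append]
  constructor
  · intro H
    exact List.append_inj H (by simpa using h)
  · rintro ⟨rfl, rfl⟩; rfl

lemma cnt_length {t : Trace} {x : List Bool} (h : cnt t x ≠ 0) : x.length = t.names.length := by
  unfold cnt at h
  split_ifs at h with h1
  · obtain ⟨φ, rfl⟩ := h1
    simp
  · exact absurd rfl h

lemma map_update_of_notMem (q : List ℕ) (φ : ℕ → Bool) (a : ℕ) (v : Bool) (h : a ∉ q) :
    q.map (Function.update φ a v) = q.map φ := by
  apply List.map_congr_left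
  intro b hb
  rw [Function.update_of_ne]
  rintro rfl
  exact h hb

lemma step_cup (t : Trace) (ht : Good t) (i : ℕ) (u : Bool) (hi : i ≤ t.names.length) :
    Good (t.step (.cup i u)) ∧ lift eCup0 i (cnt t) = cnt (t.step (.cup i u)) ∧
      (t.step (.cup i u)).names.length = t.names.length + 2 := by
  obtain ⟨fr, nm, cl⟩ := t
  obtain ⟨p, q, rfl, rfl⟩ := split_list nm i (by simpa using hi)
  obtain ⟨h1, h2⟩ := ht
  simp only at h1 h2
  have hstep : Trace.step ⟨fr, p ++ q, cl⟩ (.cup p.length u) =
      ⟨fr + 1, p ++ fr :: fr :: q, cl⟩ := by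
    simp [Trace.step]
  rw [hstep]
  have hfp : fr ∉ p := fun h => by
    have := h1 fr (List.mem_append_left _ h); omega
  have hfq : fr ∉ q := fun h => by
    have := h1 fr (List.mem_append_right _ h); omega
  refine ⟨⟨?_, ?_⟩, ?_, by simp; omega⟩
  · intro a ha
    simp only [List.mem_append, List.mem_cons] at ha
    rcases ha with ha | ha | ha | ha
    · have := h1 a (List.mem_append_left _ ha); simp only; omega
    · simp only; omega
    · simp only; omega
    · have := h1 a (List.mem_append_right _ ha); simp only; omega
  · intro a ha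
    simp only [List.mem_append, List.mem_cons] at ha
    simp only
    by_cases haf : a = fr
    · subst haf
      simp [List.count_append, List.count_eq_zero_of_not_mem hfp,
        List.count_eq_zero_of_not_mem hfq]
    · have ha' : a ∈ p ++ q := by
        rw [List.mem_append]
        rcases ha with ha | ha | ha | ha
        · exact Or.inl ha
        · exact absurd ha haf
        · exact absurd ha haf
        · exact Or.inr ha
      have := h2 a ha'
      rw [List.count_append] at this ⊢
      rw [List.count_cons_of_ne (Ne.symm haf), List.count_cons_of_ne (Ne.symm haf)]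
      exact this
  · funext x
    by_cases hlen : x.length = (p ++ q).length + 2
    · obtain ⟨xp, xr, rfl, hxp⟩ := split_list x p.length (by rw [hlen]; simp; omega)
      rw [← hxp, lift_append]
      rcases xr with _ | ⟨a, _ | ⟨b, xr⟩⟩
      · simp at hlen; omega
      · simp at hlen; omega
      simp only [eCup0]
      by_cases hab : a = b
      · subst hab
        simp only [if_true, cnt]
        congr 1
        apply propext
        constructor
        · rintro ⟨φ, hφ⟩
          rw [map_append_iff _ _ _ _ _ hxp.symm] at hφ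
          refine ⟨Function.update φ fr a, ?_⟩
          rw [map_append_iff _ _ _ _ _ hxp.symm, map_update_of_notMem _ _ _ _ hfp]
          simp only [List.map_cons, Function.update_self]
          rw [map_update_of_notMem _ _ _ _ hfq]
          exact ⟨hφ.1, by rw [hφ.2]⟩
        · rintro ⟨φ, hφ⟩
          rw [map_append_iff _ _ _ _ _ hxp.symm] at hφ
          refine ⟨φ, ?_⟩
          rw [map_append_iff _ _ _ _ _ hxp.symm]
          simp only [List.map_cons, List.cons.injEq] at hφ
          exact ⟨hφ.1, hφ.2.2.2⟩
      · rw [if_neg hab]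
        simp only [cnt]
        rw [if_neg]
        rintro ⟨φ, hφ⟩
        rw [map_append_iff _ _ _ _ _ hxp.symm] at hφ
        simp only [List.map_cons, List.cons.injEq] at hφ
        exact hab (hφ.2.1.symm.trans hφ.2.2.1)
    · have e1 : cnt ⟨fr + 1, p ++ fr :: fr :: q, cl⟩ x = 0 := by
        by_contra hne
        have := cnt_length hne
        simp at this hlen
        omega
      rw [e1]
      by_contra hne
      have : ESupp (p ++ q).length (cnt ⟨fr, p ++ q, cl⟩) := fun l hl => cnt_length hl
      exact hlen (eCup_supp _ p.length _ (by simp) this _ hne)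

lemma step_cross (t : Trace) (ht : Good t) (i : ℕ) (s : Bool) (hi : i + 2 ≤ t.names.length) :
    Good (t.step (.cross i s)) ∧ lift eX0 i (cnt t) = cnt (t.step (.cross i s)) ∧
      (t.step (.cross i s)).names.length = t.names.length := by
  obtain ⟨fr, nm, cl⟩ := t
  simp only at hi
  obtain ⟨p, q, rfl, rfl⟩ := split_list nm i (by omega)
  rcases q with _ | ⟨a, _ | ⟨b, q⟩⟩
  · simp at hi
  · simp at hi
  obtain ⟨h1, h2⟩ := ht
  simp only at h1 h2
  have hstep : Trace.step ⟨fr, p ++ a :: b :: q, cl⟩ (.cross p.length s) =
      ⟨fr, p ++ b :: a :: q, cl⟩ := by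
    simp [Trace.step]
  rw [hstep]
  have hperm : (p ++ b :: a :: q).Perm (p ++ a :: b :: q) :=
    List.Perm.append_left p (List.Perm.swap _ _ _)
  refine ⟨⟨?_, ?_⟩, ?_, by simp⟩
  · intro c hc
    exact h1 c (hperm.mem_iff.1 hc)
  · intro c hc
    simp only
    rw [hperm.count_eq]
    exact h2 c (hperm.mem_iff.1 hc)
  · funext x
    by_cases hlen : x.length = (p ++ a :: b :: q).length
    · obtain ⟨xp, xr, rfl, hxp⟩ := split_list x p.length (by rw [hlen]; simp)
      rw [← hxp, lift_append]
      rcases xr with _ | ⟨c, _ | ⟨e, xr⟩⟩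
      · simp at hlen; omega
      · simp at hlen; omega
      simp only [eX0, cnt]
      congr 1
      apply propext
      constructor
      · rintro ⟨φ, hφ⟩
        rw [map_append_iff _ _ _ _ _ hxp.symm] at hφ
        refine ⟨φ, ?_⟩
        rw [map_append_iff _ _ _ _ _ hxp.symm]
        simp only [List.map_cons, List.cons.injEq] at hφ ⊢
        exact ⟨hφ.1, hφ.2.2.1, hφ.2.1, hφ.2.2.2⟩
      · rintro ⟨φ, hφ⟩
        rw [map_append_iff _ _ _ _ _ hxp.symm] at hφ
        refine ⟨φ, ?_⟩
        rw [map_append_iff _ _ _ _ _ hxp.symm]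
        simp only [List.map_cons, List.cons.injEq] at hφ ⊢
        exact ⟨hφ.1, hφ.2.2.1, hφ.2.1, hφ.2.2.2⟩
    · have e1 : cnt ⟨fr, p ++ b :: a :: q, cl⟩ x = 0 := by
        by_contra hne
        have := cnt_length hne
        simp at this hlen
        omega
      rw [e1]
      by_cases hx : x.length < p.length
      · exact lift_short _ _ _ _ hx
      obtain ⟨xp, xr, rfl, hxp⟩ := split_list x p.length (by omega)
      rw [← hxp, lift_append]
      rcases xr with _ | ⟨c, _ | ⟨e, xr⟩⟩
      · rfl
      · rfl
      simp only [eX0]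
      by_contra hne
      have := cnt_length hne
      simp at this hlen
      omega

lemma eCap0_cnt_same (fr cl a : ℕ) (p q : List ℕ) (hp : a ∉ p) (hq : a ∉ q) (xp xq : List Bool)
    (hxp : xp.length = p.length) :
    cnt ⟨fr, p ++ a :: a :: q, cl⟩ (xp ++ true :: true :: xq) +
      cnt ⟨fr, p ++ a :: a :: q, cl⟩ (xp ++ false :: false :: xq) =
      cnt ⟨fr, p ++ q, cl + 1⟩ (xp ++ xq) := by
  have key : ∀ t : Bool, (∃ φ : ℕ → Bool, (p ++ a :: a :: q).map φ = xp ++ t :: t :: xq) ↔
      ∃ φ : ℕ → Bool, (p ++ q).map φ = xp ++ xq := by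
    intro t
    constructor
    · rintro ⟨φ, hφ⟩
      rw [map_append_iff _ _ _ _ _ hxp.symm] at hφ
      refine ⟨φ, ?_⟩
      rw [map_append_iff _ _ _ _ _ hxp.symm]
      simp only [List.map_cons, List.cons.injEq] at hφ
      exact ⟨hφ.1, hφ.2.2.2⟩
    · rintro ⟨φ, hφ⟩
      rw [map_append_iff _ _ _ _ _ hxp.symm] at hφ
      refine ⟨Function.update φ a t, ?_⟩
      rw [map_append_iff _ _ _ _ _ hxp.symm, map_update_of_notMem _ _ _ _ hp]
      simp only [List.map_cons, Function.update_self]
      rw [map_update_of_notMem _ _ _ _ hq]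
      exact ⟨hφ.1, by rw [hφ.2]⟩
  rw [cnt_of_iff (key true), cnt_of_iff (key false), cnt_of_iff Iff.rfl]
  simp only
  split_ifs
  · rw [pow_succ]; ring
  · simp

lemma eCap0_cnt_diff (fr cl a b : ℕ) (p q : List ℕ) (hab : a ≠ b) (ha : a ∈ p ++ q)
    (xp xq : List Bool) (hxp : xp.length = p.length) :
    cnt ⟨fr, p ++ a :: b :: q, cl⟩ (xp ++ true :: true :: xq) +
      cnt ⟨fr, p ++ a :: b :: q, cl⟩ (xp ++ false :: false :: xq) =
      cnt ⟨fr, (p ++ q).map (fun c => if c = b then a else c), cl⟩ (xp ++ xq) := by
  have key : ∀ t : Bool, (∃ φ : ℕ → Bool, (p ++ a :: b :: q).map φ = xp ++ t :: t :: xq) ↔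
      ∃ φ : ℕ → Bool, φ a = t ∧ φ b = t ∧ (p ++ q).map φ = xp ++ xq := by
    intro t
    constructor
    · rintro ⟨φ, hφ⟩
      rw [map_append_iff _ _ _ _ _ hxp.symm] at hφ
      refine ⟨φ, ?_⟩
      rw [map_append_iff _ _ _ _ _ hxp.symm]
      simp only [List.map_cons, List.cons.injEq] at hφ
      exact ⟨hφ.2.1, hφ.2.2.1, hφ.1, hφ.2.2.2⟩
    · rintro ⟨φ, hφa, hφb, hφ⟩
      rw [map_append_iff _ _ _ _ _ hxp.symm] at hφ
      refine ⟨φ, ?_⟩
      rw [map_append_iff _ _ _ _ _ hxp.symm]
      simp only [List.map_cons, List.cons.injEq]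
      exact ⟨hφ.1, hφa, hφb, hφ.2⟩
  have key2 : (∃ φ : ℕ → Bool, ((p ++ q).map (fun c => if c = b then a else c)).map φ =
      xp ++ xq) ↔ ∃ t, ∃ φ : ℕ → Bool, φ a = t ∧ φ b = t ∧ (p ++ q).map φ = xp ++ xq := by
    constructor
    · rintro ⟨φ, hφ⟩
      refine ⟨φ a, fun c => φ (if c = b then a else c), ?_, ?_, ?_⟩
      · simp [hab]
      · simp
      · rw [← hφ, List.map_map]
        rfl
    · rintro ⟨t, φ, hφa, hφb, hφ⟩
      refine ⟨φ, ?_⟩
      rw [← hφ, List.map_map]
      apply List.map_congr_left
      intro c _
      simp only [Function.comp]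
      split_ifs with h
      · rw [h, hφa, hφb]
      · rfl
  rw [cnt_of_iff (key true), cnt_of_iff (key false), cnt_of_iff key2]
  by_cases h1 : ∃ φ : ℕ → Bool, φ a = true ∧ φ b = true ∧ (p ++ q).map φ = xp ++ xq
  · have h2 : ¬ ∃ φ : ℕ → Bool, φ a = false ∧ φ b = false ∧ (p ++ q).map φ = xp ++ xq := by
      rintro ⟨φ, hφa, _, hφ⟩
      obtain ⟨φ', hφa', _, hφ'⟩ := h1
      have := List.map_inj_left.1 (hφ.trans hφ'.symm) a ha
      rw [hφa, hφa'] at this
      exact absurd this (by decide)
    rw [if_pos h1, if_neg h2, if_pos ⟨true, h1⟩, add_zero]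
  · by_cases h2 : ∃ φ : ℕ → Bool, φ a = false ∧ φ b = false ∧ (p ++ q).map φ = xp ++ xq
    · rw [if_neg h1, if_pos h2, if_pos ⟨false, h2⟩, zero_add]
    · rw [if_neg h1, if_neg h2, if_neg, add_zero]
      rintro ⟨t, ht⟩
      cases t
      · exact h2 ht
      · exact h1 ht

lemma step_cap (t : Trace) (ht : Good t) (i : ℕ) (hi : i + 2 ≤ t.names.length) :
    Good (t.step (.cap i)) ∧ lift eCap0 i (cnt t) = cnt (t.step (.cap i)) ∧
      (t.step (.cap i)).names.length + 2 = t.names.length := by
  obtain ⟨fr, nm, cl⟩ := t
  simp only at hi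
  obtain ⟨p, q, rfl, rfl⟩ := split_list nm i (by omega)
  rcases q with _ | ⟨a, _ | ⟨b, q⟩⟩
  · simp at hi
  · simp at hi
  obtain ⟨h1, h2⟩ := ht
  simp only at h1 h2
  have hsupp : ESupp ((p ++ q).length + 2) (cnt ⟨fr, p ++ a :: b :: q, cl⟩) := by
    intro l hl
    rw [cnt_length hl]
    simp
    omega
  have hsupp' := eCap_supp (p ++ q).length p.length _ (by simp) hsupp
  by_cases hab : a = b
  · subst hab
    have hstep : Trace.step ⟨fr, p ++ a :: a :: q, cl⟩ (.cap p.length) =
        ⟨fr, p ++ q, cl + 1⟩ := by
      simp [Trace.step]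
    rw [hstep]
    have hc := h2 a (by simp)
    rw [List.count_append, List.count_cons_self, List.count_cons_self] at hc
    have hap : a ∉ p := by
      rw [← List.count_eq_zero]; omega
    have haq : a ∉ q := by
      rw [← List.count_eq_zero]; omega
    refine ⟨⟨?_, ?_⟩, ?_, by simp; omega⟩
    · intro c hc
      apply h1
      simp only [List.mem_append, List.mem_cons] at hc ⊢
      tauto
    · intro c hc'
      simp only at hc' ⊢
      have hca : c ≠ a := by
        rintro rfl
        rw [List.mem_append] at hc'
        exact hc'.elim hap haq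
      have := h2 c (by simp only [List.mem_append, List.mem_cons] at hc' ⊢; tauto)
      rw [List.count_append, List.count_cons_of_ne (Ne.symm hca),
        List.count_cons_of_ne (Ne.symm hca)] at this
      rw [List.count_append]
      exact this
    · funext x
      by_cases hlen : x.length = (p ++ q).length
      · obtain ⟨xp, xr, rfl, hxp⟩ := split_list x p.length (by rw [hlen]; simp)
        rw [← hxp, lift_append]
        exact eCap0_cnt_same fr cl a p q hap haq xp xr hxp
      · have e1 : cnt ⟨fr, p ++ q, cl + 1⟩ x = 0 := by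
          by_contra hne
          exact hlen (cnt_length hne)
        rw [e1]
        by_contra hne
        exact hlen (hsupp' _ hne)
  · have hstep : Trace.step ⟨fr, p ++ a :: b :: q, cl⟩ (.cap p.length) =
        ⟨fr, (p ++ q).map (fun c => if c = b then a else c), cl⟩ := by
      simp [Trace.step, hab]
    rw [hstep]
    have hca := h2 a (by simp)
    have hcb := h2 b (by simp)
    have hca' : (p ++ q).count a = 1 := by
      rw [List.count_append, List.count_cons_self, List.count_cons_of_ne (Ne.symm hab)] at hca
      rw [List.count_append]; omega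
    have hcb' : (p ++ q).count b = 1 := by
      rw [List.count_append, List.count_cons_of_ne hab, List.count_cons_self] at hcb
      rw [List.count_append]; omega
    have hcount : ∀ (c : ℕ), c ≠ b → ∀ (l : List ℕ),
        (l.map (fun c => if c = b then a else c)).count c =
          l.count c + if c = a then l.count b else 0 := by
      intro c hcb l
      induction l with
      | nil => simp
      | cons x l ih =>
        rw [List.map_cons]
        by_cases hxb : x = b
        · rw [if_pos hxb, hxb]
          by_cases hac : c = a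
          · rw [hac, List.count_cons_self, if_pos rfl, List.count_cons_self,
              List.count_cons_of_ne (Ne.symm hab)]
            rw [hac, if_pos rfl] at ih
            rw [ih]
            ring
          · rw [List.count_cons_of_ne (Ne.symm hac), ih, if_neg hac, if_neg hac,
              List.count_cons_of_ne (Ne.symm hcb)]
        · rw [if_neg hxb, List.count_cons_of_ne hxb (l := l)]
          by_cases hxc : x = c
          · rw [hxc, List.count_cons_self, ih, List.count_cons_self]
            ring
          · rw [List.count_cons_of_ne hxc, ih, List.count_cons_of_ne hxc]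
    refine ⟨⟨?_, ?_⟩, ?_, by simp; omega⟩
    · intro c hc
      simp only [List.mem_map] at hc
      obtain ⟨e, he, rfl⟩ := hc
      simp only
      split_ifs with heb
      · exact h1 a (by simp)
      · apply h1
        simp only [List.mem_append, List.mem_cons] at he ⊢
        tauto
    · intro c hc
      simp only [List.mem_map] at hc
      obtain ⟨e, he, rfl⟩ := hc
      simp only
      split_ifs with heb
      · rw [hcount a hab]
        simp [hca', hcb']
      · rw [hcount e heb]
        by_cases hea : e = a
        · subst hea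
          simp [hca', hcb']
        · simp only [hea, if_false, add_zero]
          have := h2 e (by simp only [List.mem_append, List.mem_cons] at he ⊢; tauto)
          rw [List.count_append, List.count_cons_of_ne (Ne.symm hea),
            List.count_cons_of_ne (Ne.symm heb)] at this
          rw [List.count_append]
          exact this
    · funext x
      by_cases hlen : x.length = (p ++ q).length
      · obtain ⟨xp, xr, rfl, hxp⟩ := split_list x p.length (by rw [hlen]; simp)
        rw [← hxp, lift_append]
        refine eCap0_cnt_diff fr cl a b p q hab ?_ xp xr hxp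
        rw [← List.count_pos_iff]; omega
      · have e1 : cnt ⟨fr, (p ++ q).map (fun c => if c = b then a else c), cl⟩ x = 0 := by
          by_contra hne
          have := cnt_length hne
          simp at this hlen
          exact hlen this
        rw [e1]
        by_contra hne
        exact hlen (hsupp' _ hne)

lemma run_cnt (w : List Slice) : ∀ (t : Trace) (m : ℕ), Good t → Ok w t.names.length m →
    colOps.run w (cnt t) = cnt (w.foldl Trace.step t) ∧
      (w.foldl Trace.step t).names.length = m := by
  induction w with
  | nil => intro t m ht h; exact ⟨rfl, h⟩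
  | cons s w ih =>
    intro t m ht h
    cases s with
    | cup i u =>
      obtain ⟨h1, h2, h3⟩ := step_cup t ht i u h.1
      have := ih _ m h1 (by rw [h3]; exact h.2)
      rw [← h2] at this
      exact this
    | cap i =>
      obtain ⟨h1, h2, h3⟩ := step_cap t ht i h.1
      have := ih _ m h1 (by
        have h4 : (t.step (.cap i)).names.length = t.names.length - 2 := by omega
        rw [h4]; exact h.2)
      rw [← h2] at this
      exact this
    | cross i p =>
      obtain ⟨h1, h2, h3⟩ := step_cross t ht i p h.1
      have := ih _ m h1 (by rw [h3]; exact h.2)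
      rw [← h2] at this
      exact this

/-- The number of two-colourings of a diagram is `2 ^ curves`. -/
theorem colour_curves (D : List Slice) (h : Ok D 0 0) :
    colOps.run D (fun l => if l.length = 0 then 1 else 0) [] = 2 ^ curves D := by
  have h0 : cnt ⟨0, [], 0⟩ = fun l => if l.length = 0 then 1 else 0 := by
    funext l
    simp only [cnt, List.map_nil, pow_zero]
    cases l <;> simp
  have := run_cnt D ⟨0, [], 0⟩ 0 ⟨by simp, by simp⟩ h
  rw [← h0, this.1]
  have hn : (D.foldl Trace.step ⟨0, [], 0⟩).names = [] := by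
    have := this.2
    exact List.eq_nil_of_length_eq_zero this
  unfold cnt
  rw [if_pos ⟨fun _ => true, by rw [hn]; rfl⟩]
  rfl

end Pool.Agent.Helper2
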