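import Pool.Agent.Helper2.TraceLemma

/-!
# Directions and writhe of a Whitehead double
-/

namespace Pool.Agent.Helper2

lemma dirsAbove_append (w w' : List Slice) : ∀ o o', dirsAbove w o = some o' →
    dirsAbove (w ++ w') o = dirsAbove w' o' ∧ signSum (w ++ w') o = signSum w o + signSum w' o' := by
  induction w with
  | nil =>
    intro o o' h
    simp only [dirsAbove, Option.some.injEq] at h
    subst h
    simp [signSum]
  | cons s w ih =>
    intro o o' h
    simp only [dirsAbove, List.cons_append, signSum] at h ⊢
    rcases hs : s.dirs o with _ | o₁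
    · rw [hs] at h; simp at h
    · rw [hs] at h
      simp only [Option.bind_some] at h ⊢
      obtain ⟨h1, h2⟩ := ih o₁ o' h
      rw [h1]
      simp only [Option.getD_some]
      rw [h2]
      exact ⟨trivial, by ring⟩

/-- Directions of doubled strands. -/
def alt : ℕ → List Bool
  | 0 => []
  | n + 1 => true :: false :: alt n

lemma alt_add (i j : ℕ) : alt (i + j) = alt i ++ alt j := by
  induction i with
  | zero => simp [alt]
  | succ i ih =>
    have : i + 1 + j = (i + j) + 1 := by ring
    rw [this]
    simp [alt, ih]

lemma alt_length (i : ℕ) : (alt i).length = 2 * i := by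
  induction i with
  | zero => simp [alt]
  | succ i ih => simp [alt, ih]; ring

lemma take_left' (p r : List Bool) (k : ℕ) (h : p.length = k) : (p ++ r).take k = p := by
  subst h; simp

lemma drop_left' (p r : List Bool) (k : ℕ) (h : p.length = k) : (p ++ r).drop k = r := by
  subst h; simp

lemma dirs_cup (p r : List Bool) (i : ℕ) (u : Bool) (h : p.length = i) :
    (Slice.cup i u).dirs (p ++ r) = some (p ++ u :: (!u) :: r) := by
  subst h; simp [Slice.dirs]

lemma dirs_cap (p r : List Bool) (i : ℕ) (a b : Bool) (h : p.length = i) (hab : a ≠ b) :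
    (Slice.cap i).dirs (p ++ a :: b :: r) = some (p ++ r) := by
  subst h; simp [Slice.dirs, hab]

lemma dirs_cross (p r : List Bool) (i : ℕ) (s a b : Bool) (h : p.length = i) :
    (Slice.cross i s).dirs (p ++ a :: b :: r) = some (p ++ b :: a :: r) := by
  subst h; simp [Slice.dirs]

lemma sign_cross (p r : List Bool) (i : ℕ) (s a b : Bool) (h : p.length = i) :
    (Slice.cross i s).sign (p ++ a :: b :: r) = if (a = b) ↔ (s = true) then 1 else -1 := by
  subst h; simp [Slice.sign]

lemma double_dirs (s : Slice) (n m : ℕ) (h : Ok [s] n m) :
    dirsAbove s.double (alt n) = some (alt m) ∧ signSum s.double (alt n) = 0 := by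
  cases s with
  | cup i u =>
    obtain ⟨h1, h2⟩ := h
    simp only [Ok] at h2
    subst h2
    obtain ⟨j, rfl⟩ : ∃ j, n = i + j := ⟨n - i, by omega⟩
    have e1 := dirs_cup (alt i) (alt j) (2 * i) true (alt_length i)
    have e2 := dirs_cup (alt i ++ [true]) ((!true) :: alt j) (2 * i + 1) false
      (by simp [alt_length])
    have e3 : alt i ++ true :: (!true) :: alt j = (alt i ++ [true]) ++ ((!true) :: alt j) := by
      simp
    constructor
    · simp only [Slice.double, dirsAbove]
      rw [alt_add, e1]
      simp only [Option.bind_some]
      rw [e3, e2]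
      have : i + j + 2 = i + ((j + 1) + 1) := by ring
      rw [this, alt_add]
      simp [alt]
    · simp [Slice.double, signSum, Slice.sign]
  | cap i =>
    obtain ⟨h1, h2⟩ := h
    simp only [Ok] at h2
    subst h2
    obtain ⟨j, rfl⟩ : ∃ j, n = i + ((j + 1) + 1) := ⟨n - i - 2, by omega⟩
    have e0 : alt (i + ((j + 1) + 1)) =
        (alt i ++ [true]) ++ false :: true :: (false :: alt j) := by
      rw [alt_add]; simp [alt]
    have e1 := dirs_cap (alt i ++ [true]) (false :: alt j) (2 * i + 1) false true
      (by simp [alt_length]) (by decide)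
    have e2 := dirs_cap (alt i) (alt j) (2 * i) true false (alt_length i) (by decide)
    constructor
    · simp only [Slice.double, dirsAbove]
      rw [e0, e1]
      simp only [Option.bind_some]
      have e3 : alt i ++ [true] ++ false :: alt j = alt i ++ true :: false :: alt j := by simp
      rw [e3, e2]
      have : i + ((j + 1) + 1) - 2 = i + j := by omega
      rw [this, alt_add]
      rfl
    · simp [Slice.double, signSum, Slice.sign]
  | cross i s =>
    obtain ⟨h1, h2⟩ := h
    simp only [Ok] at h2
    subst h2
    obtain ⟨j, rfl⟩ : ∃ j, n = i + ((j + 1) + 1) := ⟨n - i - 2, by omega⟩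
    have e0 : alt (i + ((j + 1) + 1)) =
        (alt i ++ [true]) ++ false :: true :: (false :: alt j) := by
      rw [alt_add]; simp [alt]
    have e1 := dirs_cross (alt i ++ [true]) (false :: alt j) (2 * i + 1) s false true
      (by simp [alt_length])
    have e2 := dirs_cross (alt i) (false :: false :: alt j) (2 * i) s true true (alt_length i)
    have e3 := dirs_cross (alt i ++ [true, true]) (alt j) (2 * i + 2) s false false
      (by simp [alt_length])
    have e4 := dirs_cross (alt i ++ [true]) (false :: alt j) (2 * i + 1) s true false
      (by simp [alt_length])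
    have s1 := sign_cross (alt i ++ [true]) (false :: alt j) (2 * i + 1) s false true
      (by simp [alt_length])
    have s2 := sign_cross (alt i) (false :: false :: alt j) (2 * i) s true true (alt_length i)
    have s3 := sign_cross (alt i ++ [true, true]) (alt j) (2 * i + 2) s false false
      (by simp [alt_length])
    have s4 := sign_cross (alt i ++ [true]) (false :: alt j) (2 * i + 1) s true false
      (by simp [alt_length])
    have c1 : alt i ++ [true] ++ true :: false :: (false :: alt j) =
      alt i ++ true :: true :: false :: false :: alt j := by simp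
    have c2 : alt i ++ true :: true :: false :: false :: alt j =
      alt i ++ [true, true] ++ false :: false :: alt j := by simp
    have c3 : alt i ++ [true, true] ++ false :: false :: alt j =
      alt i ++ [true] ++ true :: false :: (false :: alt j) := by simp
    constructor
    · simp only [Slice.double, dirsAbove]
      rw [e0, e1]
      simp only [Option.bind_some]
      rw [c1, e2]
      simp only [Option.bind_some]
      rw [c2, e3]
      simp only [Option.bind_some]
      rw [c3, e4]
      rfl
    · simp only [Slice.double, signSum]
      rw [e0, e1]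
      simp only [Option.getD_some]
      rw [c1, e2]
      simp only [Option.getD_some]
      rw [c2, e3]
      simp only [Option.getD_some]
      rw [← c1] at s2
      rw [c3] at s3
      rw [c3, s1, s2, s3, s4]
      cases s <;> simp

lemma ok_cons (s : Slice) (w : List Slice) (n m : ℕ) (h : Ok (s :: w) n m) :
    ∃ k, Ok [s] n k ∧ Ok w k m := by
  cases s with
  | cup i u => exact ⟨n + 2, ⟨h.1, rfl⟩, h.2⟩
  | cap i => exact ⟨n - 2, ⟨h.1, rfl⟩, h.2⟩
  | cross i p => exact ⟨n, ⟨h.1, rfl⟩, h.2⟩

lemma doubles_dirs (w : List Slice) : ∀ (n m : ℕ), Ok w n m →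
    dirsAbove (w.flatMap Slice.double) (alt n) = some (alt m) ∧
      signSum (w.flatMap Slice.double) (alt n) = 0 := by
  induction w with
  | nil =>
    intro n m h
    simp only [Ok] at h
    subst h
    simp [dirsAbove, signSum]
  | cons s w ih =>
    intro n m h
    obtain ⟨k, h1, h2⟩ := ok_cons s w n m h
    obtain ⟨e1, e2⟩ := double_dirs s n k h1
    obtain ⟨e3, e4⟩ := ih k m h2
    obtain ⟨e5, e6⟩ := dirsAbove_append s.double (w.flatMap Slice.double) _ _ e1
    rw [List.flatMap_cons]
    exact ⟨e5.trans e3, by rw [e6, e2, e4]; rfl⟩

lemma twists_dirs (p : Bool) (r : List Bool) (k : ℕ) :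
    dirsAbove (List.replicate (2 * k) (.cross 0 p)) (true :: false :: r) =
      some (true :: false :: r) ∧
    signSum (List.replicate (2 * k) (.cross 0 p)) (true :: false :: r) =
      (if p then -1 else 1) * (2 * k : ℤ) := by
  induction k with
  | zero => simp [dirsAbove, signSum]
  | succ k ih =>
    have : 2 * (k + 1) = 2 * k + 1 + 1 := by ring
    rw [this, List.replicate_succ, List.replicate_succ]
    constructor
    · simp only [dirsAbove, Slice.dirs, List.drop_zero, List.take_zero, List.nil_append,
        Option.bind_some]
      exact ih.1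
    · simp only [signSum, Slice.dirs, Slice.sign, List.drop_zero, List.take_zero,
        List.nil_append, Option.getD_some]
      rw [ih.2]
      cases p <;> simp <;> ring

lemma clasp_dirs (p : Bool) (r : List Bool) :
    dirsAbove (clasp p) (true :: false :: r) = some (true :: false :: r) ∧
    signSum (clasp p) (true :: false :: r) = if p then 2 else -2 := by
  cases p <;> simp [clasp, dirsAbove, signSum, Slice.dirs, Slice.sign]

theorem whitehead_dirs (p : Bool) (D : List Slice) (h : Ok D 0 0) (hne : D ≠ []) :
    IsDiagram (whiteheadDouble p D) ∧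
      writhe (whiteheadDouble p D) = 2 * writhe D + if p then 2 else -2 := by
  cases D with
  | nil => exact absurd rfl hne
  | cons s w =>
    obtain ⟨k, h1, h2⟩ := ok_cons s w 0 0 h
    have hk : k = 2 := by
      cases s with
      | cup i u => exact h1.2.symm
      | cap i => exact absurd h1.1 (by omega)
      | cross i p => exact absurd h1.1 (by omega)
    subst hk
    obtain ⟨e1, e2⟩ := double_dirs s 0 2 h1
    obtain ⟨e3, e4⟩ := doubles_dirs w 2 0 h2
    have ealt : alt 2 = true :: false :: [true, false] := rfl
    rw [ealt] at e1 e3 e4
    obtain ⟨t1, t2⟩ := twists_dirs (decide (writhe (s :: w) < 0)) [true, false]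
      (writhe (s :: w)).natAbs
    obtain ⟨c1, c2⟩ := clasp_dirs p [true, false]
    obtain ⟨a1, a2⟩ := dirsAbove_append (clasp p) (w.flatMap Slice.double) _ _ c1
    obtain ⟨b1, b2⟩ := dirsAbove_append (fullTwists (writhe (s :: w)))
      (clasp p ++ w.flatMap Slice.double) _ _ t1
    obtain ⟨d1, d2⟩ := dirsAbove_append s.double (fullTwists (writhe (s :: w)) ++
      (clasp p ++ w.flatMap Slice.double)) _ _ e1
    constructor
    · rw [IsDiagram, whiteheadDouble]
      have : ([] : List Bool) = alt 0 := rfl
      rw [this, d1, b1, a1, e3]
    · have : writhe (whiteheadDouble p (s :: w)) = signSum (whiteheadDouble p (s :: w)) (alt 0) :=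
        rfl
      rw [this, whiteheadDouble, d2, b2, a2, e2, e4, c2]
      have t2' : signSum (fullTwists (writhe (s :: w))) [true, false, true, false] = _ := t2
      rw [t2']
      rcases lt_or_ge (writhe (s :: w)) 0 with hw | hw
      · rw [decide_eq_true hw]
        have : ((writhe (s :: w)).natAbs : ℤ) = - writhe (s :: w) := by omega
        rw [this]
        simp
      · rw [decide_eq_false (not_lt.2 hw)]
        have : ((writhe (s :: w)).natAbs : ℤ) = writhe (s :: w) := by omega
        rw [this]
        simp

end Pool.Agent.Helper2
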