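import Pool.Agent.Helper2.StateSum
import Pool.Agent.Helper2.Valid

/-!
# A Whitehead double of a knot is a knot
-/

namespace Pool.Agent.Helper2

/-- Types of doubled strands in the colouring model: `true` if both colours agree. -/
def tyE : List Bool → List Bool
  | x :: y :: l => (x == y) :: tyE l
  | _ => []

/-- Colours of the left strands. -/
def coE : List Bool → List Bool
  | x :: _ :: l => x :: coE l
  | _ => []

lemma tyE_coE_append (i : ℕ) : ∀ (p r : List Bool), p.length = 2 * i →
    tyE (p ++ r) = tyE p ++ tyE r ∧ coE (p ++ r) = coE p ++ coE r ∧ (tyE p).length = i ∧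
      (coE p).length = i := by
  induction i with
  | zero =>
    intro p r h
    have : p = [] := List.eq_nil_of_length_eq_zero (by simpa using h)
    subst this
    simp [tyE, coE]
  | succ i ih =>
    intro p r h
    rcases p with _ | ⟨a, _ | ⟨t, p⟩⟩
    · simp at h
    · simp at h; omega
    · have hp : p.length = 2 * i := by simp at h; omega
      obtain ⟨h1, h2, h3, h4⟩ := ih p r hp
      simp [tyE, coE, h1, h2, h3, h4]

lemma tyE_len (n : ℕ) (l : List Bool) (h : l.length = 2 * n) : (tyE l).length = n :=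
  (tyE_coE_append n l [] h).2.2.1

/-- Comparison of a doubled colouring state with a colouring state. -/
structure KE (n : ℕ) (ψ : List Bool → ℤ) (c j : List Bool → ℤ) : Prop where
  low : LB n c
  val : ∀ l, l.length = 2 * n → c (tyE l) = lb (tyE l) →
    ψ l = if mono true (tyE l) then j (coE l) else 0

lemma KE.cup {n i : ℕ} {ψ c j : List Bool → ℤ} (h : KE n ψ c j) (hi : i ≤ n) :
    KE (n + 2) (lift eCup0 (2 * i + 1) (lift eCup0 (2 * i) ψ)) (lift eCup0 i c)
      (lift eCup0 i j) := by
  refine ⟨h.low.cup hi, ?_⟩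
  intro l hl hc
  obtain ⟨p, r, rfl, hp⟩ := split_list l (2 * i) (by omega)
  rcases r with _ | ⟨x, _ | ⟨y, _ | ⟨x', _ | ⟨y', r⟩⟩⟩⟩
  · simp at hl; omega
  · simp at hl; omega
  · simp at hl; omega
  · simp at hl; omega
  obtain ⟨h1, h2, h3, h4⟩ := tyE_coE_append i p (x :: y :: x' :: y' :: r) hp
  obtain ⟨h1', h2', -, -⟩ := tyE_coE_append i p r hp
  simp only [tyE, coE] at h1 h2
  rw [h1] at hc ⊢
  rw [h2]
  have hlen := tyE_len n (p ++ r) (by simp at hl ⊢; omega)
  rw [h1'] at hlen
  have e1 : lift eCup0 i c (tyE p ++ (x == y) :: (x' == y') :: tyE r) =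
      if (x == y) = (x' == y') then c (tyE p ++ tyE r) else 0 := by
    rw [← h3, lift_append]
    simp only [eCup0]
  have e2 : lift eCup0 (2 * i + 1) (lift eCup0 (2 * i) ψ) (p ++ x :: y :: x' :: y' :: r) =
      if y = x' then (if x = y' then ψ (p ++ r) else 0) else 0 := by
    rw [← hp, lift_append_add]
    simp only [lift_succ_cons, lift_zero, eCup0, lift_append]
  have e3 : lift eCup0 i j (coE p ++ x :: x' :: coE r) =
      if x = x' then j (coE p ++ coE r) else 0 := by
    rw [← h4, lift_append]
    simp only [eCup0]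
  rw [e1] at hc
  rw [e2, e3]
  by_cases ht : (x == y) = (x' == y')
  · rw [if_pos ht] at hc
    rw [← ht] at hc ⊢
    have hlow := h.low _ hlen
    have hcup := lb_cup (tyE p) (tyE r) (x == y)
    have hc' : c (tyE (p ++ r)) = lb (tyE (p ++ r)) := by rw [h1']; omega
    have hlb : lb (tyE p ++ (x == y) :: (x == y) :: tyE r) = lb (tyE p ++ tyE r) := by omega
    have hv := h.val (p ++ r) (by simp at hl ⊢; omega) hc'
    rw [h1', h2'] at hv
    rw [hv]
    simp only [lb, mono_append, mono_cons] at hlb
    simp only [mono_append, mono_cons]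
    by_cases hMT : mono true (tyE p) ∧ mono true (tyE r)
    · by_cases hMF : mono false (tyE p) ∧ mono false (tyE r)
      · cases x <;> cases y <;> simp [hMT, hMF] at hlb
      · cases x <;> cases y <;> cases x' <;> cases y' <;> simp [hMT, hMF] at hlb ht ⊢
    · cases x <;> cases y <;> cases x' <;> cases y' <;> simp [hMT] at ht ⊢
  · have h5 : ¬ mono true (tyE p ++ (x == y) :: (x' == y') :: tyE r) := by
      simp only [mono_append, mono_cons]
      rintro ⟨_, h6, h7, _⟩
      exact ht (h6.trans h7.symm)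
    rw [if_neg h5]
    cases x <;> cases y <;> cases x' <;> cases y' <;> simp at ht ⊢

lemma KE.cap {n i : ℕ} {ψ c j : List Bool → ℤ} (h : KE (n + 2) ψ c j) (hi : i ≤ n) :
    KE n (lift eCap0 (2 * i) (lift eCap0 (2 * i + 1) ψ)) (lift eCap0 i c)
      (lift eCap0 i j) := by
  refine ⟨h.low.cap hi, ?_⟩
  intro l hl hc
  obtain ⟨p, r, rfl, hp⟩ := split_list l (2 * i) (by omega)
  obtain ⟨h1, h2, h3, h4⟩ := tyE_coE_append i p r hp
  rw [h1] at hc ⊢
  rw [h2]
  have hlen := tyE_len n (p ++ r) hl
  rw [h1] at hlen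
  have key : ∀ x y : Bool, tyE (p ++ x :: y :: y :: x :: r) =
      tyE p ++ (x == y) :: (y == x) :: tyE r ∧
      coE (p ++ x :: y :: y :: x :: r) = coE p ++ x :: y :: coE r := by
    intro x y
    obtain ⟨h1', h2', -, -⟩ := tyE_coE_append i p (x :: y :: y :: x :: r) hp
    rw [h1', h2']
    simp [tyE, coE]
  have e1 : lift eCap0 i c (tyE p ++ tyE r) =
      c (tyE p ++ true :: true :: tyE r) + c (tyE p ++ false :: false :: tyE r) := by
    rw [← h3, lift_append]
    simp only [eCap0]
  have e2 : lift eCap0 (2 * i) (lift eCap0 (2 * i + 1) ψ) (p ++ r) =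
      (ψ (p ++ true :: true :: true :: true :: r) + ψ (p ++ true :: false :: false :: true :: r)) +
      (ψ (p ++ false :: true :: true :: false :: r) +
        ψ (p ++ false :: false :: false :: false :: r)) := by
    rw [← hp, lift_append]
    simp only [eCap0]
    rw [lift_append_add, lift_append_add]
    simp only [lift_succ_cons, lift_zero, eCap0]
  have e3 : lift eCap0 i j (coE p ++ coE r) =
      j (coE p ++ true :: true :: coE r) + j (coE p ++ false :: false :: coE r) := by
    rw [← h4, lift_append]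
    simp only [eCap0]
  rw [e1] at hc
  have hT := h.low (tyE p ++ true :: true :: tyE r) (by simp at hlen ⊢; omega)
  have hF := h.low (tyE p ++ false :: false :: tyE r) (by simp at hlen ⊢; omega)
  have hcap := lb_cap (tyE p) (tyE r)
  have hv : ∀ (x y : Bool), ψ (p ++ x :: y :: y :: x :: r) =
      if mono true (tyE p ++ (x == y) :: (y == x) :: tyE r) then j (coE p ++ x :: y :: coE r)
        else 0 := by
    intro x y
    have := h.val (p ++ x :: y :: y :: x :: r) (by simp at hl ⊢; omega) (by
      rw [(key x y).1]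
      cases x <;> cases y <;> simp <;> omega)
    rw [(key x y).1, (key x y).2] at this
    exact this
  rw [e2, e3, hv, hv, hv, hv]
  simp only [mono_append, mono_cons]
  by_cases hMT : mono true (tyE p) ∧ mono true (tyE r)
  · simp [hMT]
  · simp [hMT]

lemma KE.cross {n i : ℕ} {ψ c j : List Bool → ℤ} (h : KE n ψ c j) (hi : i + 2 ≤ n) :
    KE n (lift eX0 (2 * i + 1) (lift eX0 (2 * i + 2) (lift eX0 (2 * i)
      (lift eX0 (2 * i + 1) ψ)))) (lift eX0 i c) (lift eX0 i j) := by
  refine ⟨h.low.cross hi, ?_⟩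
  intro l hl hc
  obtain ⟨p, r, rfl, hp⟩ := split_list l (2 * i) (by omega)
  rcases r with _ | ⟨x, _ | ⟨y, _ | ⟨x', _ | ⟨y', r⟩⟩⟩⟩
  · simp at hl; omega
  · simp at hl; omega
  · simp at hl; omega
  · simp at hl; omega
  obtain ⟨h1, h2, h3, h4⟩ := tyE_coE_append i p (x :: y :: x' :: y' :: r) hp
  obtain ⟨h1', h2', -, -⟩ := tyE_coE_append i p (x' :: y' :: x :: y :: r) hp
  simp only [tyE, coE] at h1 h2 h1' h2'
  rw [h1] at hc ⊢
  rw [h2]
  have e1 : lift eX0 i c (tyE p ++ (x == y) :: (x' == y') :: tyE r) =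
      c (tyE p ++ (x' == y') :: (x == y) :: tyE r) := by
    rw [← h3, lift_append]
    simp only [eX0]
  have e2 : lift eX0 (2 * i + 1) (lift eX0 (2 * i + 2) (lift eX0 (2 * i)
      (lift eX0 (2 * i + 1) ψ))) (p ++ x :: y :: x' :: y' :: r) =
      ψ (p ++ x' :: y' :: x :: y :: r) := by
    rw [← hp]
    simp only [lift_append_add, lift_append, lift_succ_cons, lift_zero, eX0]
  have e3 : lift eX0 i j (coE p ++ x :: x' :: coE r) = j (coE p ++ x' :: x :: coE r) := by
    rw [← h4, lift_append]
    simp only [eX0]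
  rw [e1, lb_swap] at hc
  have := h.val (p ++ x' :: y' :: x :: y :: r) (by simp at hl ⊢; omega) (by rw [h1']; exact hc)
  rw [h1', h2'] at this
  rw [e2, e3, this]
  simp only [mono_append, mono_cons]
  by_cases h5 : mono true (tyE p) <;> by_cases h6 : mono true (tyE r) <;>
    by_cases h7 : (x == y) = true <;> by_cases h8 : (x' == y') = true <;> simp [h5, h6, h7, h8]

lemma KE.run (w : List Slice) : ∀ (n m : ℕ) (ψ c j : List Bool → ℤ), Ok w n m → KE n ψ c j →
    KE m (colOps.run (w.flatMap Slice.double) ψ) (colOps.run w c) (colOps.run w j) := by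
  induction w with
  | nil =>
    intro n m ψ c j h hk
    simp only [Ok] at h
    subst h
    exact hk
  | cons s w ih =>
    intro n m ψ c j h hk
    rw [List.flatMap_cons, Ops.run_append]
    cases s with
    | cup i u => exact ih _ _ _ _ _ h.2 (hk.cup h.1)
    | cap i =>
      obtain ⟨k, rfl⟩ : ∃ k, n = k + 2 := ⟨n - 2, by have := h.1; omega⟩
      exact ih _ _ _ _ _ h.2 (hk.cap (by have := h.1; omega))
    | cross i p => exact ih _ _ _ _ _ h.2 (hk.cross h.1)

/-- Supported on lists with an odd number of `true`. -/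
def OddSupp (ψ : List Bool → ℤ) : Prop := ∀ l, ψ l ≠ 0 → Odd (l.count true)

lemma OddSupp.act {ψ : List Bool → ℤ} (h : OddSupp ψ) (s : Slice) : OddSupp (colOps.act s ψ) := by
  intro l hl
  cases s with
  | cup i u =>
    have hl' : lift eCup0 i ψ l ≠ 0 := hl
    by_cases hi : l.length < i
    · exact absurd (lift_short _ _ _ _ hi) hl'
    obtain ⟨p, r, rfl, rfl⟩ := split_list l i (by omega)
    rw [lift_append] at hl'
    rcases r with _ | ⟨x, _ | ⟨y, r⟩⟩ <;> simp only [eCup0] at hl'
    · exact absurd rfl hl'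
    · exact absurd rfl hl'
    · split_ifs at hl' with hxy
      · subst hxy
        have := h _ hl'
        rw [List.count_append] at this ⊢
        cases x
        · simpa using this
        · simp only [List.count_cons_self]
          rw [← Nat.add_assoc, ← Nat.add_assoc]
          obtain ⟨k, hk⟩ := this
          exact ⟨k + 1, by omega⟩
      · exact absurd rfl hl'
  | cap i =>
    have hl' : lift eCap0 i ψ l ≠ 0 := hl
    by_cases hi : l.length < i
    · exact absurd (lift_short _ _ _ _ hi) hl'
    obtain ⟨p, r, rfl, rfl⟩ := split_list l i (by omega)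
    rw [lift_append] at hl'
    simp only [eCap0] at hl'
    have key : ∃ b : Bool, ψ (p ++ b :: b :: r) ≠ 0 := by
      by_contra hcon
      push Not at hcon
      apply hl'
      rw [hcon, hcon]
      simp
    obtain ⟨b, hb⟩ := key
    have := h _ hb
    rw [List.count_append] at this ⊢
    cases b
    · simpa using this
    · simp only [List.count_cons_self] at this
      obtain ⟨k, hk⟩ := this
      exact ⟨k - 1, by omega⟩
  | cross i p =>
    have hl' : lift eX0 i ψ l ≠ 0 := hl
    by_cases hi : l.length < i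
    · exact absurd (lift_short _ _ _ _ hi) hl'
    obtain ⟨p, r, rfl, rfl⟩ := split_list l i (by omega)
    rw [lift_append] at hl'
    rcases r with _ | ⟨x, _ | ⟨y, r⟩⟩ <;> simp only [eX0] at hl'
    · exact absurd rfl hl'
    · exact absurd rfl hl'
    · have := h _ hl'
      rw [List.count_append] at this ⊢
      cases x <;> cases y <;> simpa using this

lemma OddSupp.run (w : List Slice) : ∀ {ψ : List Bool → ℤ}, OddSupp ψ →
    OddSupp (colOps.run w ψ) := by
  induction w with
  | nil => intro ψ h; exact h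
  | cons s w ih => intro ψ h; exact ih (h.act s)

lemma colOps_act_lin (s : Slice) : Lin2 (colOps.act s) := by
  cases s with
  | cup i u => exact eCup0_lin.lift i
  | cap i => exact eCap0_lin.lift i
  | cross i p => exact eX0_lin.lift i

/-- The state of the doubled strands above the clasp. -/
def eStart : List Bool → ℤ
  | [x, y, x', y'] => if x = y ∧ x' = y' then 1 else 0
  | _ => 0

/-- The constant state. -/
def jStart : List Bool → ℤ
  | [_, _] => 1
  | _ => 0

lemma KE_start : KE 2 eStart (lift eCup0 0 eInit) jStart := by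
  refine ⟨LB.first, ?_⟩
  intro l hl _
  rcases l with _ | ⟨x, _ | ⟨y, _ | ⟨x', _ | ⟨y', _ | ⟨e, l⟩⟩⟩⟩⟩
  · simp at hl
  · simp at hl
  · simp at hl
  · simp at hl
  · cases x <;> cases y <;> cases x' <;> cases y' <;> decide
  · simp at hl

/-- The difference between the constant state and the cup. -/
def oStart : List Bool → ℤ
  | [x, y] => if x = y then 0 else 1
  | _ => 0

lemma jStart_eq : jStart = fun l => lift eCup0 0 eInit l + oStart l := by
  funext l
  rcases l with _ | ⟨x, _ | ⟨y, _ | ⟨x', l⟩⟩⟩
  · simp [jStart, oStart, eCup0]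
  · simp [jStart, oStart, eCup0]
  · cases x <;> cases y <;> simp [jStart, oStart, eCup0, eInit]
  · simp [jStart, oStart, eCup0, eInit]

lemma oStart_odd : OddSupp oStart := by
  intro l hl
  rcases l with _ | ⟨x, _ | ⟨y, _ | ⟨x', l⟩⟩⟩
  · simp [oStart] at hl
  · simp [oStart] at hl
  · cases x <;> cases y <;> simp [oStart] at hl <;> decide
  · simp [oStart] at hl

/-- The state of the doubled strands above the first minimum. -/
def eStart0 : List Bool → ℤ
  | [x, y, x', y'] => if x = y' ∧ y = x' then 1 else 0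
  | _ => 0

lemma eStart0_eq : lift eCup0 1 (lift eCup0 0 eInit) = eStart0 := by
  funext l
  rcases l with _ | ⟨x, _ | ⟨y, _ | ⟨x', _ | ⟨y', _ | ⟨e, l⟩⟩⟩⟩⟩
  · simp [eStart0]
  · simp [eStart0, eCup0]
  · simp [eStart0, eCup0]
  · simp [eStart0, eCup0]
  · cases x <;> cases y <;> cases x' <;> cases y' <;> simp [eStart0, eCup0, eInit]
  · simp [eStart0, eCup0, eInit]

lemma eTwist_twice : lift eX0 0 (lift eX0 0 eStart0) = eStart0 := by
  funext l
  rcases l with _ | ⟨x, _ | ⟨y, l⟩⟩
  · simp [eStart0, eX0]
  · simp [eStart0, eX0]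
  · simp [eX0]

lemma eTwists (p : Bool) (k : ℕ) :
    colOps.run (List.replicate (2 * k) (.cross 0 p)) eStart0 = eStart0 := by
  induction k with
  | zero => rfl
  | succ k ih =>
    have : 2 * (k + 1) = 2 * k + 1 + 1 := by ring
    rw [this, List.replicate_succ, List.replicate_succ]
    have e : colOps.run (Slice.cross 0 p :: Slice.cross 0 p :: List.replicate (2 * k) (.cross 0 p))
      eStart0 = colOps.run (List.replicate (2 * k) (.cross 0 p))
        (lift eX0 0 (lift eX0 0 eStart0)) := rfl
    rw [e, eTwist_twice, ih]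

lemma eX_supp (n i : ℕ) (ψ : List Bool → ℤ) (h : ESupp n ψ) : ESupp n (lift eX0 i ψ) := by
  intro l hl
  by_cases hlen : l.length < i
  · exact absurd (lift_short _ _ _ _ hlen) hl
  obtain ⟨p, r, rfl, rfl⟩ := split_list l i (by omega)
  rw [lift_append] at hl
  rcases r with _ | ⟨a, _ | ⟨b, r⟩⟩ <;> simp only [eX0] at hl
  · exact absurd rfl hl
  · exact absurd rfl hl
  · have h3 := h _ hl
    simp at h3 ⊢; omega

lemma eStart0_supp : ESupp 4 eStart0 := by
  rw [← eStart0_eq]
  refine eCup_supp 2 1 _ (by norm_num) (eCup_supp 0 0 _ (le_refl 0) ?_)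
  intro l hl
  by_contra hne
  simp [eInit, hne] at hl

lemma eStart_supp : ESupp 4 eStart := by
  intro l hl
  rcases l with _ | ⟨x, _ | ⟨y, _ | ⟨x', _ | ⟨y', _ | ⟨e, l⟩⟩⟩⟩⟩ <;> simp [eStart] at hl ⊢

lemma eClasp (p : Bool) : colOps.run (clasp p) eStart0 = eStart := by
  have e : colOps.run (clasp p) eStart0 =
      lift eCap0 1 (lift eX0 2 (lift eX0 0 (lift eCup0 1 eStart0))) := rfl
  rw [e]
  refine ESupp.ext (n := 4) (eCap_supp 4 1 _ (by norm_num) (eX_supp _ _ _ (eX_supp _ _ _
    (eCup_supp 4 1 _ (by norm_num) eStart0_supp)))) eStart_supp ?_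
  intro l hl
  rcases l with _ | ⟨x, _ | ⟨y, _ | ⟨x', _ | ⟨y', _ | ⟨e, l⟩⟩⟩⟩⟩
  · simp at hl
  · simp at hl
  · simp at hl
  · simp at hl
  · simp only [lift_succ_cons, lift_zero, eCap0, eX0, eCup0, eStart0, eStart]
    cases x <;> cases y <;> cases x' <;> cases y' <;> decide
  · simp at hl

theorem whitehead_curves (p : Bool) (D : List Slice) (h : Ok D 0 0) (hk : curves D = 1)
    (hW : Ok (whiteheadDouble p D) 0 0) : curves (whiteheadDouble p D) = 1 := by
  have hne : D ≠ [] := by
    rintro rfl
    simp [curves] at hk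
  obtain ⟨u, w, rfl, hw⟩ := first_slice D 0 h hne
  have h1 := colour_curves _ hW
  have hcnt : colOps.run w (lift eCup0 0 eInit) [] = 2 := by
    have := colour_curves (.cup 0 u :: w) h
    rw [hk] at this
    exact this
  have e1 : colOps.run (whiteheadDouble p (.cup 0 u :: w)) eInit =
      colOps.run (w.flatMap Slice.double) eStart := by
    rw [whiteheadDouble, Ops.run_append, Ops.run_append, Ops.run_append]
    have : colOps.run (Slice.cup 0 u).double eInit = eStart0 := eStart0_eq
    rw [this, fullTwists, eTwists, eClasp]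
  have hK := KE.run w 2 0 _ _ _ hw KE_start
  have hv := hK.val [] rfl (by
    simp only [tyE]
    rw [hcnt]
    simp [lb, mono])
  have hj : colOps.run w jStart [] = 2 := by
    rw [jStart_eq, (run_lin colOps colOps_act_lin w).add]
    simp only
    rw [hcnt]
    have : colOps.run w oStart [] = 0 := by
      by_contra hne
      have := OddSupp.run w oStart_odd [] hne
      simp at this
    rw [this]
    rfl
  have hlast : colOps.run (whiteheadDouble p (.cup 0 u :: w)) eInit [] = 2 := by
    rw [e1, hv]
    simp only [tyE, coE, mono_nil, if_true]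
    exact hj
  have h2 : (2 : ℤ) ^ curves (whiteheadDouble p (.cup 0 u :: w)) = 2 ^ 1 := by
    rw [← h1]
    exact hlast
  exact Int.pow_right_injective (a := 2) (by decide) h2

end Pool.Agent.Helper2
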