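import Pool.Agent.Helper2.Typed

/-!
# Doubling a diagram in the path model
-/

namespace Pool.Agent.Helper2

lemma Lin2.comp {α R : Type*} [CommRing R] {A B : (List α → R) → List α → R} (hA : Lin2 A)
    (hB : Lin2 B) : Lin2 (fun φ => A (B φ)) := by
  intro φ₁ φ₂ c₁ c₂
  simp only
  rw [hB, hA]

lemma HL2.comp {α R : Type*} [CommRing R] {A B : (List α → R) → List α → R} (hA : HL2 A)
    (hB : HL2 B) : HL2 (fun φ => A (B φ)) := by
  intro a φ φ₁ φ₂ c₁ c₂ H l
  exact hA a _ _ _ c₁ c₂ (hB a φ φ₁ φ₂ c₁ c₂ H) l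

lemma dCup0_lin (d : ℂ) : Lin2 (dCup0 d) := ((pCup0_lin d).lift 1).comp (pCup0_lin d)
lemma dCup0_hl (d : ℂ) : HL2 (dCup0 d) := ((pCup0_hl d).lift (pCup0_lin d) 1).comp (pCup0_hl d)
lemma dCap0_lin (d : ℂ) : Lin2 (dCap0 d) := (pCap0_lin d).comp ((pCap0_lin d).lift 1)
lemma dCap0_hl (d : ℂ) : HL2 (dCap0 d) := (pCap0_hl d).comp ((pCap0_hl d).lift (pCap0_lin d) 1)
lemma dX0_lin (z : ℂˣ) (d : ℂ) (p : Bool) : Lin2 (dX0 z d p) :=
  ((pX0_lin z d p).lift 1).comp (((pX0_lin z d p).lift 2).comp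
    ((pX0_lin z d p).comp ((pX0_lin z d p).lift 1)))
lemma dX0_hl (z : ℂˣ) (d : ℂ) (p : Bool) : HL2 (dX0 z d p) :=
  ((pX0_hl z d p).lift (pX0_lin z d p) 1).comp (((pX0_hl z d p).lift (pX0_lin z d p) 2).comp
    ((pX0_hl z d p).comp ((pX0_hl z d p).lift (pX0_lin z d p) 1)))

lemma UU_lift (g d : ℂ) (T T' : (List Bool → ℂ) → List Bool → ℂ) (hT : Lin2 T) (hT' : HL2 T)
    (h0 : ∀ φ, T φ [] = 0) (h0' : ∀ φ, T' φ [] = 0)
    (base : ∀ ψ, T (UU g d ψ) = UU g d (T' ψ)) (i : ℕ) :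
    ∀ ψ, lift T (2 * i) (UU g d ψ) = UU g d (lift T' (2 * i) ψ) := by
  induction i with
  | zero => intro ψ; simp only [Nat.mul_zero, lift_zero']; exact base ψ
  | succ i ih =>
    intro ψ
    have e : 2 * (i + 1) = 2 * i + 1 + 1 := by ring
    rw [e]
    funext l
    rcases l with _ | ⟨a, _ | ⟨m, _ | ⟨b, l⟩⟩⟩
    · rw [UU_short _ _ _ _ (by simp)]; simp
    · rw [UU_short _ _ _ _ (by simp)]; simp
    · rw [UU_short _ _ _ _ (by simp)]
      simp only [lift_succ_cons]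
      cases i with
      | zero => simp only [Nat.mul_zero, lift_zero, h0, h0']
      | succ i =>
        rw [lift_short _ _ _ _ (by simp), lift_short _ _ _ _ (by simp)]
    · simp only [lift_succ_cons, UU_cons]
      rw [← ih, ← ih]
      refine (hT'.lift hT (2 * i)) b _ _ _ _ _ (fun l' => ?_) l
      rw [UU_cons]

/-- The operators of the typed model. -/
noncomputable def gOps (z : ℂˣ) (d : ℂ) : Ops (List Bool → ℂ) where
  cup i := lift (gCup0 d) (2 * i)
  cap i := lift (gCap0 d) (2 * i)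
  cross i p := lift (gX0 z d p) (2 * i)

variable (z : ℂˣ) (g d : ℂ) (hd : d * d = d + 1) (hg : g * g = d - 1)
    (hz : (z : ℂ) ^ 4 + (z : ℂ) ^ 3 + (z : ℂ) ^ 2 + z + 1 = 0)
    (hzd : d = -((z : ℂ) ^ 2 + (z : ℂ) ^ 3)) (hzi : ((z⁻¹ : ℂˣ) : ℂ) = (z : ℂ) ^ 4)

include hd hg hz hzd hzi

lemma double_act (s : Slice) (ψ : List Bool → ℂ) :
    (pathOps z d).run s.double (UU g d ψ) = UU g d ((gOps z d).act s ψ) := by
  cases s with
  | cup i u =>
    have e1 : (pathOps z d).run (Slice.cup i u).double (UU g d ψ) =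
        lift (dCup0 d) (2 * i) (UU g d ψ) := by
      have := lift_comp (lift (pCup0 d) 1) (pCup0 d) (2 * i) (UU g d ψ)
      unfold dCup0
      rw [this, ← lift_add, Nat.add_comm 1 (2 * i)]
      rfl
    rw [e1, UU_lift g d (dCup0 d) (gCup0 d) (dCup0_lin d) (dCup0_hl d)
      (fun φ => by simp [dCup0]) (fun φ => by simp [gCup0]) (base_cup g d hd hg) i ψ]
    rfl
  | cap i =>
    have e1 : (pathOps z d).run (Slice.cap i).double (UU g d ψ) =
        lift (dCap0 d) (2 * i) (UU g d ψ) := by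
      have := lift_comp (pCap0 d) (lift (pCap0 d) 1) (2 * i) (UU g d ψ)
      unfold dCap0
      rw [this, ← lift_add, Nat.add_comm 1 (2 * i)]
      rfl
    rw [e1, UU_lift g d (dCap0 d) (gCap0 d) (dCap0_lin d) (dCap0_hl d)
      (fun φ => by simp [dCap0, pCap0]) (fun φ => by simp [gCap0]) (base_cap g d hd hg) i ψ]
    rfl
  | cross i p =>
    have e1 : (pathOps z d).run (Slice.cross i p).double (UU g d ψ) =
        lift (dX0 z d p) (2 * i) (UU g d ψ) := by
      have h1 := lift_comp (lift (pX0 z d p) 1) (fun φ => lift (pX0 z d p) 2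
        (pX0 z d p (lift (pX0 z d p) 1 φ))) (2 * i) (UU g d ψ)
      have h2 := lift_comp (lift (pX0 z d p) 2) (fun φ => 
        (pX0 z d p (lift (pX0 z d p) 1 φ))) (2 * i) (UU g d ψ)
      have h3 := lift_comp (pX0 z d p) (lift (pX0 z d p) 1) (2 * i) (UU g d ψ)
      unfold dX0
      rw [h1, h2, h3, ← lift_add, ← lift_add, ← lift_add, Nat.add_comm 1 (2 * i),
        Nat.add_comm 2 (2 * i)]
      rfl
    rw [e1, UU_lift g d (dX0 z d p) (gX0 z d p) (dX0_lin z d p) (dX0_hl z d p)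
      (fun φ => by simp [dX0]) (fun φ => by simp [gX0])
      (base_cross z g d hd hz hzd hzi p) i ψ]
    rfl

lemma double_run (w : List Slice) : ∀ (ψ : List Bool → ℂ),
    (pathOps z d).run (w.flatMap Slice.double) (UU g d ψ) = UU g d ((gOps z d).run w ψ) := by
  induction w with
  | nil => intro ψ; rfl
  | cons s w ih =>
    intro ψ
    rw [List.flatMap_cons, Ops.run_append, double_act z g d hd hg hz hzd hzi, ih]
    rfl

end Pool.Agent.Helper2
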