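import Pool.Agent.Helper2.FillVec

/-!
# The bracket of rational fillings
-/

namespace Pool.Agent.Helper2

open LaurentPolynomial

/-- `v` is the bracket vector of the tangle `R`. -/
def Vec (R : List Slice) (v : LaurentPolynomial ℤ × LaurentPolynomial ℤ) : Prop :=
  ∀ t, Ok t 4 0 → bracket (R ++ t) = v.1 * BB (mw false) t + v.2 * BB (mw true) t

/-- The action of a letter on bracket vectors. -/
noncomputable def bact (v : LaurentPolynomial ℤ × LaurentPolynomial ℤ) (c : Bool × Bool) :
    LaurentPolynomial ℤ × LaurentPolynomial ℤ :=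
  if c.1 then (T (sg c.2) * v.1, -T (-3 * sg c.2) * v.2 + T (-sg c.2) * v.1)
  else (-T (-3 * sg c.2) * v.1 + T (-sg c.2) * v.2, T (sg c.2) * v.2)

/-- The bracket of the closure. -/
noncomputable def clo (v : LaurentPolynomial ℤ × LaurentPolynomial ℤ) : LaurentPolynomial ℤ :=
  loopVal * v.1 + v.2

lemma BB_cross (m : List Slice) (i : ℕ) (p : Bool) (t : List Slice) :
    BB m (.cross i p :: t) = T (sg p) * BB m t + T (-sg p) *
      ((states t).map fun s =>
        (T s.1 * loopVal ^ (curves (m ++ .cap i :: .cup i true :: s.2) - 1) :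
          LaurentPolynomial ℤ)).sum := by
  unfold BB
  rw [states, sum_flatMap_pair, ← smul_sum_map', ← smul_sum_map', ← sum_map_add']
  congr 1
  apply List.map_congr_left
  intro s _
  have e1 : s.1 + (if p = true then 1 else -1) = sg p + s.1 := add_comm _ _
  have e2 : s.1 - (if p = true then 1 else -1) = -sg p + s.1 := by
    rw [sub_eq_add_neg, add_comm]; rfl
  rw [e1, e2, T_add, T_add, mul_assoc, mul_assoc]

lemma col_mw (ty j : Bool) :
    colOps.run (mw ty ++ [.cap (if j then 1 else 0), .cup (if j then 1 else 0) true])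
      colModel.init = (2 : ℤ) ^ (if ty = j then 1 else 0) • colOps.run (mw j) colModel.init := by
  have h0 : colModel.Supp 2 (colModel.cup 0 colModel.init) :=
    colModel.supp_cup 0 0 _ le_rfl colModel.supp_init
  have key : ∀ k l : ℕ, colOps.run ([.cup 0 true, .cup k true] ++ [.cap l, .cup l true])
      colModel.init = colModel.cup l (colModel.cap l (colModel.cup k
        (colModel.cup 0 colModel.init))) := fun k l => rfl
  have key2 : ∀ l : ℕ, colOps.run [.cup 0 true, .cup l true] colModel.init =
      colModel.cup l (colModel.cup 0 colModel.init) := fun l => rfl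
  have hδ : colModel.δ = 2 := rfl
  cases ty <;> cases j <;> simp only [mw, if_true, Bool.false_eq_true, if_false, pow_zero,
    pow_one, reduceCtorEq, one_smul]
  · rw [key, key2, colModel.rel1 2 0 _ h0 (by omega), map_smul, hδ]
  · have := colModel.rel2 2 0 _ h0 (by omega)
    rw [key, key2]
    rw [zero_add] at this
    rw [this]
  · have := colModel.rel3 2 0 _ h0 (by omega)
    rw [key, key2]
    rw [zero_add] at this
    rw [this]
  · rw [key, key2, colModel.rel1 2 1 _ h0 (by omega), map_smul, hδ]

lemma BB_cap_cup (ty j : Bool) (t : List Slice) (ht : Ok t 4 0) :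
    ((states t).map fun s => (T s.1 * loopVal ^ (curves (mw ty ++ .cap (if j then 1 else 0) ::
      .cup (if j then 1 else 0) true :: s.2) - 1) : LaurentPolynomial ℤ)).sum =
    loopVal ^ (if ty = j then 1 else 0) * BB (mw j) t := by
  rw [BB, ← smul_sum_map']
  congr 1
  apply List.map_congr_left
  intro s hs
  obtain ⟨_, h2⟩ := states_ok t 4 0 ht s hs
  have hok : Ok (mw j ++ s.2) 0 0 := ok_append _ _ _ _ _ (ok_mw j) h2
  have hok2 : Ok ((mw ty ++ [.cap (if j then 1 else 0), .cup (if j then 1 else 0) true]) ++ s.2)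
      0 0 := by
    refine ok_append _ _ 0 4 0 (ok_append _ _ 0 4 4 (ok_mw ty) ?_) h2
    cases j <;> simp [Ok]
  have h3 := curves_pre _ (mw j) _ (col_mw ty j) s.2 hok2 hok
  have h4 := curves_pos _ hok (by simp [mw])
  rw [List.append_assoc] at h3
  have e : [Slice.cap (if j then 1 else 0), .cup (if j then 1 else 0) true] ++ s.2 =
    .cap (if j then 1 else 0) :: .cup (if j then 1 else 0) true :: s.2 := rfl
  rw [e] at h3
  rw [h3, Nat.add_sub_assoc h4, pow_add]
  ring

lemma curl (p : Bool) :
    (T (sg p) + T (-sg p) * loopVal : LaurentPolynomial ℤ) = -T (-3 * sg p) := by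
  unfold loopVal
  cases p
  · simp only [sg, Bool.false_eq_true, if_false]
    rw [mul_neg, mul_add, ← T_add, ← T_add]
    norm_num
  · simp only [sg, if_true]
    rw [mul_neg, mul_add, ← T_add, ← T_add]
    norm_num

lemma BB_cross' (ty j p : Bool) (t : List Slice) (ht : Ok t 4 0) :
    BB (mw ty) (.cross (if j then 1 else 0) p :: t) =
      if ty = j then -T (-3 * sg p) * BB (mw j) t
      else T (sg p) * BB (mw ty) t + T (-sg p) * BB (mw j) t := by
  rw [BB_cross, BB_cap_cup ty j t ht]
  split_ifs with h
  · subst h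
    rw [← curl, pow_one]
    ring
  · rw [pow_zero, one_mul]

lemma Vec.step {R : List Slice} {v : LaurentPolynomial ℤ × LaurentPolynomial ℤ} (h : Vec R v)
    (c : Bool × Bool) : Vec (R ++ [.cross (if c.1 then 1 else 0) c.2]) (bact v c) := by
  intro t ht
  have h1 := h (.cross (if c.1 then 1 else 0) c.2 :: t) ⟨by cases c.1 <;> simp, ht⟩
  rw [List.append_assoc]
  have e : [Slice.cross (if c.1 then 1 else 0) c.2] ++ t =
    .cross (if c.1 then 1 else 0) c.2 :: t := rfl
  rw [e, h1, BB_cross' false c.1 c.2 t ht, BB_cross' true c.1 c.2 t ht]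
  obtain ⟨j, p⟩ := c
  cases j
  · simp only [bact, Bool.false_eq_true, if_false, if_true, reduceCtorEq]
    ring
  · simp only [bact, if_true, reduceCtorEq, if_false]
    ring

lemma Vec.braid (b : List (Bool × Bool)) : ∀ {R : List Slice}
    {v : LaurentPolynomial ℤ × LaurentPolynomial ℤ}, Vec R v →
    Vec (R ++ braid b) (b.foldl bact v) := by
  induction b with
  | nil => intro R v h; simpa [Helper2.braid] using h
  | cons c b ih =>
    intro R v h
    have := ih (h.step c)
    rw [List.append_assoc] at this
    exact this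

lemma ok_caps : Ok [.cap 0, .cap 0] 4 0 := by simp [Ok]

lemma Vec.fill {R : List Slice} {v : LaurentPolynomial ℤ × LaurentPolynomial ℤ} (h : Vec R v)
    (b : List (Bool × Bool)) : bracket (fill R b) = clo (b.foldl bact v) := by
  have h1 := h.braid b [.cap 0, .cap 0] ok_caps
  unfold Helper2.fill
  rw [← List.append_assoc, h1]
  have e1 : BB (mw false) [.cap 0, .cap 0] = loopVal := by
    have : curves (mw false ++ [.cap 0, .cap 0]) = 2 := by decide
    simp [BB, states, this]
  have e2 : BB (mw true) [.cap 0, .cap 0] = 1 := by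
    have : curves (mw true ++ [.cap 0, .cap 0]) = 1 := by decide
    simp [BB, states, this]
  rw [e1, e2, clo]
  ring

lemma Vec.mw_false : Vec (mw false) (1, 0) := by
  intro t _
  rw [bracket_mw]
  ring

lemma Vec.rational (g : List (Bool × Bool)) : Vec (rational g) (g.foldl bact (1, 0)) := by
  have := Vec.mw_false.braid g
  exact this

end Pool.Agent.Helper2
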