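import Pool.Agent.Helper2.Diagram

/-!
# Rational fillings of a tangle diagram
-/

namespace Pool.Agent.Helper2

/-- A braid word on the first three of four strands: the letter `(false, p)` is a crossing of the
strands `0` and `1`, the letter `(true, p)` a crossing of the strands `1` and `2`. -/
def braid (b : List (Bool × Bool)) : List Slice :=
  b.map fun c => .cross (if c.1 then 1 else 0) c.2

/-- The filling of a tangle diagram `R` with four upper ends by the rational tangle `b`: put the
braid on top of `R` and close by two caps. -/
def fill (R : List Slice) (b : List (Bool × Bool)) : List Slice :=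
  R ++ (braid b ++ [.cap 0, .cap 0])

/-- The rational tangle diagram with four upper ends given by a braid word. -/
def rational (g : List (Bool × Bool)) : List Slice := .cup 0 true :: .cup 0 true :: braid g

/-- The slope of the rational filling `b`, as a pair of coprime integers up to sign. -/
def slope : List (Bool × Bool) → ℤ × ℤ
  | [] => (0, 1)
  | (false, p) :: b => ((slope b).1, (slope b).2 + (if p then 1 else -1) * (slope b).1)
  | (true, p) :: b => ((slope b).1 - (if p then 1 else -1) * (slope b).2, (slope b).2)

/-- The action of a letter on slopes of tangles. -/
def twist (v : ℤ × ℤ) (c : Bool × Bool) : ℤ × ℤ :=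
  if c.1 then (v.1, v.2 - (if c.2 then 1 else -1) * v.1)
  else (v.1 + (if c.2 then 1 else -1) * v.2, v.2)

/-- The slope of the rational tangle `g`, as a pair of coprime integers up to sign. -/
def tangleSlope (g : List (Bool × Bool)) : ℤ × ℤ := g.foldl twist (1, 0)

/-- The distance between the slopes of the rational tangle `g` and the filling `b`. -/
def dist (g b : List (Bool × Bool)) : ℕ :=
  ((slope b).1 * (tangleSlope g).1 + (slope b).2 * (tangleSlope g).2).natAbs

end Pool.Agent.Helper2
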