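import Pool.Agent.Helper2.FillMain

/-!
# The classification of rational fillings with trivial normalized bracket
-/

set_option linter.unusedSimpArgs false

namespace Pool.Agent.Helper2

open LaurentPolynomial

/-! ### Reduction modulo two -/

lemma ev1_loop : ev (1 : (ZMod 2)ˣ) loopVal = 0 := by
  unfold loopVal
  rw [map_neg, map_add, ev1_T, ev1_T]
  decide

lemma ev1_fill (b : List (Bool × Bool)) : ∀ (o : Or3)
    (v : LaurentPolynomial ℤ × LaurentPolynomial ℤ),
    ev (1 : (ZMod 2)ˣ) (clo (b.foldl nact (o, v)).2) =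
      (pz (slope b)).1 * ev (1 : (ZMod 2)ˣ) v.1 + (pz (slope b)).2 * ev (1 : (ZMod 2)ˣ) v.2 := by
  induction b with
  | nil =>
    intro o v
    simp [clo, ev1_loop, slope, pz]
  | cons c b ih =>
    intro o v
    have e : nact (o, v) c = (swap3 o c, -T (-3 * sgn3 o c) * (bact v c).1,
      -T (-3 * sgn3 o c) * (bact v c).2) := rfl
    rw [List.foldl_cons, e, ih, pz_slope]
    obtain ⟨j, p⟩ := c
    generalize pz (slope b) = r
    cases j
    · simp only [bact, rstep, Bool.false_eq_true, if_false, map_mul, map_neg, map_add, ev1_T,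
        neg_one_zmod, one_mul]
      ring
    · simp only [bact, rstep, if_true, map_mul, map_neg, map_add, ev1_T,
        neg_one_zmod, one_mul]
      ring

/-- The number of upward directions. -/
def ct (o : Or3) : ℕ := o.1.toNat + o.2.1.toNat + o.2.2.toNat

lemma ct_swap (o : Or3) (c : Bool × Bool) : ct (swap3 o c) = ct o := by
  obtain ⟨x, y, z⟩ := o
  obtain ⟨j, p⟩ := c
  cases j <;> cases x <;> cases y <;> cases z <;> rfl

lemma ct_foldl (b : List (Bool × Bool)) : ∀ o, ct (b.foldl swap3 o) = ct o := by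
  induction b with
  | nil => intro o; rfl
  | cons c b ih => intro o; rw [List.foldl_cons, ih, ct_swap]

lemma balanced (o : Or3) (d : Bool) (b : List (Bool × Bool))
    (h : (b.foldl swap3 o).1 ≠ (b.foldl swap3 o).2.1 ∧ (b.foldl swap3 o).2.2 ≠ d) :
    ct o + d.toNat = 2 := by
  rw [← ct_foldl b o]
  generalize b.foldl swap3 o = o' at h
  obtain ⟨x, y, z⟩ := o'
  revert h
  cases x <;> cases y <;> cases z <;> cases d <;> simp [ct]

lemma balanced_NC (o : Or3) (d : Bool) (h : ct o + d.toNat = 2) : NC o := by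
  obtain ⟨x, y, z⟩ := o
  revert h
  cases x <;> cases y <;> cases z <;> cases d <;> simp [ct, NC]

/-- Compatibility of the directions with the parities of the bracket vector. -/
lemma tcomp_of_knot (R : List Slice) (o : Or3) (d : Bool)
    (hR : dirsAbove R [] = some [o.1, o.2.1, o.2.2, d]) (hb : ct o + d.toNat = 2)
    (hc : (R.foldl Trace.step ⟨0, [], 0⟩).closed = 0) (x y : LaurentPolynomial ℤ)
    (h : ∀ {S V : Type} [CommRing S] [AddCommGroup V] [Module S V] (M : Model S V) (z : Sˣ),
      M.δ = ev z loopVal → M.Far → (M.ops (M.X z)).run R M.init =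
        ev z x • M.cup 0 (M.cup 0 M.init) + ev z y • M.cup 1 (M.cup 0 M.init)) :
    Tcomp o (ev (1 : (ZMod 2)ˣ) x, ev (1 : (ZMod 2)ˣ) y) := by
  have h1 := or_value R _ hR
  rw [hc, h orModel 1 ev1_loop.symm or_far] at h1
  have e0 : ∀ a b c d : Bool, orModel.cup 0 (orModel.cup 0 orModel.init) [a, b, c, d] =
      if a = b then 0 else if c = d then 0 else 1 := fun a b c d => rfl
  have e1 : ∀ a b c d : Bool, orModel.cup 1 (orModel.cup 0 orModel.init) [a, b, c, d] =
      if b = c then 0 else if a = d then 0 else 1 := fun a b c d => rfl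
  rw [Pi.add_apply, Pi.smul_apply, Pi.smul_apply, e0, e1] at h1
  unfold Tcomp
  obtain ⟨a, b, c⟩ := o
  revert hb h1
  generalize ev (1 : (ZMod 2)ˣ) x = x'
  generalize ev (1 : (ZMod 2)ˣ) y = y'
  cases a <;> cases b <;> cases c <;> cases d <;> simp [ct]

/-! ### Slopes -/

lemma foldl_twist (b : List (Bool × Bool)) : ∀ v : ℤ × ℤ,
    (b.foldl twist v).2 = (slope b).1 * v.1 + (slope b).2 * v.2 := by
  induction b with
  | nil => intro v; simp [slope]
  | cons c b ih =>
    intro v
    rw [List.foldl_cons, ih]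
    obtain ⟨j, p⟩ := c
    cases j <;> cases p <;> simp [slope, twist] <;> ring

lemma slope_coprime (b : List (Bool × Bool)) : IsCoprime (slope b).1 (slope b).2 := by
  induction b with
  | nil => exact isCoprime_zero_left.2 isUnit_one
  | cons c b ih =>
    obtain ⟨x, y, h⟩ := ih
    obtain ⟨j, p⟩ := c
    cases j <;> cases p
    · exact ⟨x + y, y, by simp only [slope, Bool.false_eq_true, if_false]; linear_combination h⟩
    · exact ⟨x - y, y, by simp only [slope, if_true]; linear_combination h⟩
    · exact ⟨x, y - x, by simp only [slope, Bool.false_eq_true, if_false]; linear_combination h⟩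
    · exact ⟨x, y + x, by simp only [slope, if_true]; linear_combination h⟩

lemma eq_of_det (p q : ℤ × ℤ) (hp : IsCoprime p.1 p.2) (hq : IsCoprime q.1 q.2)
    (h : p.1 * q.2 = p.2 * q.1) : q = p ∨ q = -p := by
  have h1 : p.1 ∣ q.1 := hp.dvd_of_dvd_mul_left ⟨q.2, h.symm⟩
  have h2 : q.1 ∣ p.1 := hq.dvd_of_dvd_mul_right ⟨p.2, by rw [h]; ring⟩
  have h3 : p.2 ∣ q.2 := hp.symm.dvd_of_dvd_mul_left ⟨q.1, h⟩
  have h4 : q.2 ∣ p.2 := hq.symm.dvd_of_dvd_mul_right ⟨p.1, by rw [← h]; ring⟩
  have h5 := Int.natAbs_eq_natAbs_iff.1 (Int.natAbs_eq_of_dvd_dvd h1 h2)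
  have h6 := Int.natAbs_eq_natAbs_iff.1 (Int.natAbs_eq_of_dvd_dvd h3 h4)
  obtain ⟨p1, p2⟩ := p
  obtain ⟨q1, q2⟩ := q
  simp only at *
  rcases h5 with h5 | h5 <;> rcases h6 with h6 | h6
  · left; rw [h5, h6]
  · have : q1 * q2 = 0 := by rw [h5, h6] at h; linarith
    rcases mul_eq_zero.1 this with h0 | h0
    · right; rw [h0] at h5; rw [h5, h6]; simp [h0]
    · left; rw [h0] at h6; rw [h5, h6]; simp [h0]
  · have : q1 * q2 = 0 := by rw [h5, h6] at h; linarith
    rcases mul_eq_zero.1 this with h0 | h0
    · left; rw [h0] at h5; rw [h5, h6]; simp [h0]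
    · right; rw [h0] at h6; rw [h5, h6]; simp [h0]
  · right; rw [h5, h6]; simp

lemma exists_word (n : ℕ) : ∀ v : ℤ × ℤ, v.1.natAbs + v.2.natAbs ≤ n → IsCoprime v.1 v.2 →
    ∃ g : List (Bool × Bool), tangleSlope g = v ∨ tangleSlope g = -v := by
  have hneg : ∀ (g : List (Bool × Bool)) (v : ℤ × ℤ), g.foldl twist (-v) = -g.foldl twist v := by
    intro g
    induction g with
    | nil => intro v; rfl
    | cons c g ih => intro v; rw [List.foldl_cons, List.foldl_cons, twist_neg, ih]
  have hstep : ∀ (v w : ℤ × ℤ) (c : Bool × Bool), twist w c = v →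
      (∃ g : List (Bool × Bool), tangleSlope g = w ∨ tangleSlope g = -w) →
      ∃ g : List (Bool × Bool), tangleSlope g = v ∨ tangleSlope g = -v := by
    rintro v w c h ⟨g, hg⟩
    refine ⟨g ++ [c], ?_⟩
    unfold tangleSlope at hg ⊢
    rw [List.foldl_append, List.foldl_cons, List.foldl_nil]
    rcases hg with hg | hg <;> rw [hg]
    · left; exact h
    · right; rw [twist_neg, h]
  induction n with
  | zero =>
    intro v hv hc
    exfalso
    have h1 : v.1 = 0 := by omega
    have h2 : v.2 = 0 := by omega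
    rw [h1, h2] at hc
    exact not_isCoprime_zero_zero hc
  | succ n ih =>
    rintro ⟨a, b⟩ hv hc
    simp only at hv hc
    by_cases hb : b = 0
    · subst hb
      have ha : IsUnit a := isCoprime_zero_right.1 hc
      rcases Int.isUnit_iff.1 ha with rfl | rfl
      · exact ⟨[], Or.inl rfl⟩
      · exact ⟨[], Or.inr rfl⟩
    by_cases ha : a = 0
    · subst ha
      have hb : IsUnit b := isCoprime_zero_left.1 hc
      have : ∃ g : List (Bool × Bool), tangleSlope g = (0, 1) :=
        ⟨[(true, false), (false, false)], rfl⟩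
      obtain ⟨g, hg⟩ := this
      rcases Int.isUnit_iff.1 hb with rfl | rfl
      · exact ⟨g, Or.inl hg⟩
      · exact ⟨g, Or.inr (by rw [hg]; rfl)⟩
    by_cases hlt : b.natAbs ≤ a.natAbs
    · by_cases hs : 0 < a * b
      · -- subtract
        apply hstep (a, b) (a - b, b) (false, true) (by simp [twist])
        apply ih
        · have h1 : (a - b).natAbs < a.natAbs := by
            rcases pos_and_pos_or_neg_and_neg_of_mul_pos hs with ⟨h1, h2⟩ | ⟨h1, h2⟩ <;> omega
          simp only
          omega
        · obtain ⟨x, y, h⟩ := hc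
          exact ⟨x, y + x, by simp only; linear_combination h⟩
      · apply hstep (a, b) (a + b, b) (false, false) (by simp [twist])
        apply ih
        · have h0 : a * b < 0 := lt_of_le_of_ne (not_lt.1 hs) (mul_ne_zero ha hb)
          have h1 : (a + b).natAbs < a.natAbs := by
            rcases mul_neg_iff.1 h0 with ⟨h1, h2⟩ | ⟨h1, h2⟩ <;> omega
          simp only
          omega
        · obtain ⟨x, y, h⟩ := hc
          exact ⟨x, y - x, by simp only; linear_combination h⟩
    · by_cases hs : 0 < a * b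
      · apply hstep (a, b) (a, b - a) (true, false) (by simp [twist])
        apply ih
        · have h1 : (b - a).natAbs < b.natAbs := by
            rcases pos_and_pos_or_neg_and_neg_of_mul_pos hs with ⟨h1, h2⟩ | ⟨h1, h2⟩ <;> omega
          simp only
          omega
        · obtain ⟨x, y, h⟩ := hc
          exact ⟨x + y, y, by simp only; linear_combination h⟩
      · apply hstep (a, b) (a, b + a) (true, true) (by simp [twist])
        apply ih
        · have h0 : a * b < 0 := lt_of_le_of_ne (not_lt.1 hs) (mul_ne_zero ha hb)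
          have h1 : (b + a).natAbs < b.natAbs := by
            rcases mul_neg_iff.1 h0 with ⟨h1, h2⟩ | ⟨h1, h2⟩ <;> omega
          simp only
          omega
        · obtain ⟨x, y, h⟩ := hc
          exact ⟨x - y, y, by simp only; linear_combination h⟩

end Pool.Agent.Helper2
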