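import Pool.Agent.Helper2.FillPar
import Pool.Agent.Helper2.Valid

/-!
# Rational fillings with trivial normalized bracket
-/

set_option linter.unusedSimpArgs false

namespace Pool.Agent.Helper2

open LaurentPolynomial

/-! ### Normalization -/

/-- The normalizing unit. -/
noncomputable def nrm (n : ℤ) : LaurentPolynomial ℤ := (-1) ^ n.natAbs * T (-3 * n)

lemma neg_one_pow_congr {m n : ℕ} (h : m % 2 = n % 2) :
    ((-1) ^ m : LaurentPolynomial ℤ) = (-1) ^ n := by
  rw [neg_one_pow_eq_pow_mod_two, h, ← neg_one_pow_eq_pow_mod_two]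

lemma nrm_add (m n : ℤ) : nrm (m + n) = nrm m * nrm n := by
  unfold nrm
  have h : ((-1) ^ (m + n).natAbs : LaurentPolynomial ℤ) = (-1) ^ m.natAbs * (-1) ^ n.natAbs := by
    rw [← pow_add]
    apply neg_one_pow_congr
    omega
  rw [h, mul_add, T_add]
  ring

lemma nrm_zero : nrm 0 = 1 := by simp [nrm]

lemma nrm_neg_mul (n : ℤ) : nrm (-n) * nrm n = 1 := by
  rw [← nrm_add]
  simp [nrm_zero]

lemma nrm_pm (s : ℤ) (h : s = 1 ∨ s = -1) : nrm s = -T (-3 * s) := by
  rcases h with rfl | rfl <;> simp [nrm]

lemma ev1_T (n : ℤ) : ev (1 : (ZMod 2)ˣ) (T n) = 1 := by rw [ev_T]; simp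

lemma neg_one_zmod : (-1 : ZMod 2) = 1 := by decide

lemma ev1_nrm (n : ℤ) : ev (1 : (ZMod 2)ˣ) (nrm n) = 1 := by
  unfold nrm
  rw [map_mul, ev1_T, map_pow, map_neg, map_one, neg_one_zmod]
  simp

/-! ### Writhe -/

lemma signSum_append (w w' : List Slice) : ∀ o o', dirsAbove w o = some o' →
    signSum (w ++ w') o = signSum w o + signSum w' o' := by
  induction w with
  | nil =>
    intro o o' h
    simp [dirsAbove] at h
    subst h
    simp [signSum]
  | cons s w ih =>
    intro o o' h
    rw [List.cons_append, signSum, signSum]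
    rw [dirsAbove] at h
    cases hs : s.dirs o with
    | none => rw [hs] at h; simp at h
    | some o1 =>
      rw [hs] at h
      simp only [Option.bind_some] at h
      simp only [Option.getD_some]
      rw [ih o1 o' h]
      ring

/-- The sum of the signs of a braid word. -/
def ssum : Or3 → List (Bool × Bool) → ℤ
  | _, [] => 0
  | o, c :: b => sgn3 o c + ssum (swap3 o c) b

lemma braid_dirs (b : List (Bool × Bool)) : ∀ (o : Or3) (d : Bool),
    dirsAbove (braid b) [o.1, o.2.1, o.2.2, d] =
      some [(b.foldl swap3 o).1, (b.foldl swap3 o).2.1, (b.foldl swap3 o).2.2, d] := by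
  induction b with
  | nil => intro o d; rfl
  | cons c b ih =>
    intro o d
    obtain ⟨j, p⟩ := c
    have e : dirsAbove (braid ((j, p) :: b)) [o.1, o.2.1, o.2.2, d] =
        dirsAbove (braid b) [(swap3 o (j, p)).1, (swap3 o (j, p)).2.1, (swap3 o (j, p)).2.2, d] := by
      cases j <;> rfl
    rw [e, ih]
    rfl

lemma braid_sum (b : List (Bool × Bool)) : ∀ (o : Or3) (d : Bool),
    signSum (braid b) [o.1, o.2.1, o.2.2, d] = ssum o b := by
  induction b with
  | nil => intro o d; rfl
  | cons c b ih =>
    intro o d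
    obtain ⟨j, p⟩ := c
    have e : signSum (braid ((j, p) :: b)) [o.1, o.2.1, o.2.2, d] = sgn3 o (j, p) +
        signSum (braid b) [(swap3 o (j, p)).1, (swap3 o (j, p)).2.1, (swap3 o (j, p)).2.2, d] := by
      obtain ⟨x, y, z⟩ := o
      cases j <;> cases p <;> cases x <;> cases y <;> cases z <;> rfl
    rw [e, ih]
    rfl

lemma foldl_nact (b : List (Bool × Bool)) : ∀ (o : Or3)
    (v : LaurentPolynomial ℤ × LaurentPolynomial ℤ) (k : LaurentPolynomial ℤ),
    b.foldl nact (o, k * v.1, k * v.2) = (b.foldl swap3 o,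
      nrm (ssum o b) * k * (b.foldl bact v).1, nrm (ssum o b) * k * (b.foldl bact v).2) := by
  induction b with
  | nil =>
    intro o v k
    simp [ssum, nrm_zero]
  | cons c b ih =>
    intro o v k
    have hs : sgn3 o c = 1 ∨ sgn3 o c = -1 := by
      obtain ⟨j, p⟩ := c
      obtain ⟨x, y, z⟩ := o
      cases j <;> cases p <;> cases x <;> cases y <;> cases z <;> simp [sgn3, sg]
    have e1 : nact (o, k * v.1, k * v.2) c = (swap3 o c, (nrm (sgn3 o c) * k) * (bact v c).1,
        (nrm (sgn3 o c) * k) * (bact v c).2) := by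
      rw [nrm_pm _ hs]
      unfold nact bact
      split_ifs
      · simp only [Prod.mk.injEq, true_and]
        constructor <;> ring
      · simp only [Prod.mk.injEq, true_and]
        constructor <;> ring
    rw [List.foldl_cons, e1, ih, List.foldl_cons, List.foldl_cons]
    simp only [ssum, nrm_add]
    congr 2 <;> ring

lemma foldl_nact' (b : List (Bool × Bool)) (o : Or3)
    (v : LaurentPolynomial ℤ × LaurentPolynomial ℤ) (k : LaurentPolynomial ℤ) :
    clo (b.foldl nact (o, k * v.1, k * v.2)).2 = nrm (ssum o b) * k * clo (b.foldl bact v) := by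
  rw [foldl_nact]
  unfold clo
  ring

lemma foldl_nact_fst (b : List (Bool × Bool)) (s : Or3 × LaurentPolynomial ℤ × LaurentPolynomial ℤ) :
    (b.foldl nact s).1 = b.foldl swap3 s.1 := by
  have := foldl_nact b s.1 s.2 1
  simp only [one_mul] at this
  rw [this]

/-- The closure is linear in the bracket vector. -/
lemma clo_lin (b : List (Bool × Bool)) (o : Or3)
    (v : LaurentPolynomial ℤ × LaurentPolynomial ℤ) :
    clo (b.foldl nact (o, v)).2 = clo (b.foldl nact (o, (1, 0))).2 * v.1 +
      clo (b.foldl nact (o, (0, 1))).2 * v.2 := by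
  have key : ∀ (b : List (Bool × Bool)) (v : LaurentPolynomial ℤ × LaurentPolynomial ℤ),
      b.foldl bact v = ((b.foldl bact (1, 0)).1 * v.1 + (b.foldl bact (0, 1)).1 * v.2,
        (b.foldl bact (1, 0)).2 * v.1 + (b.foldl bact (0, 1)).2 * v.2) := by
    intro b
    induction b using List.reverseRecOn with
    | nil => intro v; simp
    | append_singleton b c ih =>
      intro v
      simp only [List.foldl_append, List.foldl_cons, List.foldl_nil]
      rw [ih v]
      unfold bact
      split_ifs
      · simp only [Prod.mk.injEq]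
        constructor <;> ring
      · simp only [Prod.mk.injEq]
        constructor <;> ring
  have h1 := foldl_nact' b o v 1
  have h2 := foldl_nact' b o (1, 0) 1
  have h3 := foldl_nact' b o (0, 1) 1
  simp only [one_mul, mul_one, mul_zero] at h1 h2 h3
  rw [h2, h3, h1, key b v]
  unfold clo
  ring

/-! ### Oriented fillings -/

lemma caps_dirs (a b c d : Bool) : dirsAbove [.cap 0, .cap 0] [a, b, c, d] = some [] ↔
    (a ≠ b ∧ c ≠ d) := by
  cases a <;> cases b <;> cases c <;> cases d <;> decide

lemma braid_ok (b : List (Bool × Bool)) (t : List Slice) (ht : Ok t 4 0) :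
    Ok (braid b ++ t) 4 0 := by
  induction b with
  | nil => exact ht
  | cons c b ih =>
    refine ⟨?_, ih⟩
    cases c.1 <;> simp

lemma fill_diagram (R : List Slice) (o : Or3) (d : Bool)
    (hR : dirsAbove R [] = some [o.1, o.2.1, o.2.2, d]) (b : List (Bool × Bool)) :
    IsDiagram (fill R b) ↔ ((b.foldl swap3 o).1 ≠ (b.foldl swap3 o).2.1 ∧
      (b.foldl swap3 o).2.2 ≠ d) := by
  unfold IsDiagram fill
  rw [(dirsAbove_append _ _ _ _ hR).1, (dirsAbove_append _ _ _ _ (braid_dirs b o d)).1, caps_dirs]

lemma fill_writhe (R : List Slice) (o : Or3) (d : Bool)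
    (hR : dirsAbove R [] = some [o.1, o.2.1, o.2.2, d]) (b : List (Bool × Bool)) :
    writhe (fill R b) = writhe R + ssum o b := by
  unfold writhe fill
  rw [signSum_append _ _ _ _ hR, signSum_append _ _ _ _ (braid_dirs b o d), braid_sum]
  have : ∀ l, signSum [.cap 0, .cap 0] l = 0 := by
    intro l
    simp [signSum, Slice.sign]
  rw [this, add_zero]

lemma fill_fPoly (R : List Slice) (o : Or3) (d : Bool)
    (hR : dirsAbove R [] = some [o.1, o.2.1, o.2.2, d])
    (v : LaurentPolynomial ℤ × LaurentPolynomial ℤ) (hv : Vec R v) (b : List (Bool × Bool)) :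
    fPoly (fill R b) =
      clo (b.foldl nact (o, nrm (writhe R) * v.1, nrm (writhe R) * v.2)).2 := by
  have : fPoly (fill R b) = nrm (writhe (fill R b)) * bracket (fill R b) := rfl
  rw [this, hv.fill b, fill_writhe R o d hR b, foldl_nact', nrm_add]
  ring

end Pool.Agent.Helper2
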