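import Pool.Agent.Helper2.FillRat

/-!
# Normal form of rational tangles and unknotted closures
-/

namespace Pool.Agent.Helper2

open LaurentPolynomial

/-- The two positive letters. -/
def pl (l : Bool) : Bool × Bool := if l then (true, false) else (false, true)

/-- States of the simplest tangle. -/
noncomputable def e1 (o : Or3) : Or3 × LaurentPolynomial ℤ × LaurentPolynomial ℤ := (o, 1, 0)

/-- States of positive words (last letter first). -/
noncomputable def Pst (o : Or3) : List Bool → Or3 × LaurentPolynomial ℤ × LaurentPolynomial ℤ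
  | [] => e1 o
  | l :: w => nact (Pst o w) (pl l)

/-- Slopes of positive words (last letter first). -/
def Zst : List Bool → ℤ × ℤ
  | [] => (1, 0)
  | l :: w => twist (Zst w) (pl l)

lemma Pst_NC (o : Or3) (ho : o.1 ≠ o.2.1) (w : List Bool) : NC (Pst o w).1 := by
  induction w with
  | nil => exact fun h => ho h.1
  | cons l w ih => exact ih.swap _

lemma e1_curl (o : Or3) (ho : o.1 ≠ o.2.1) (p : Bool) :
    nact (e1 o) (false, p) = e1 (swap3 o (false, p)) := by
  obtain ⟨a, b, d⟩ := o
  simp only at ho
  have h1 := T_one_mul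
  have e3 := T_three
  have e4 := T_neg_three
  have e : sgn3 (a, b, d) (false, p) = -sg p := by simp [sgn3, ho]
  unfold nact e1
  rw [e]
  cases p
  · simp only [bact, sg, Bool.false_eq_true, if_false, Prod.mk.injEq, true_and, mul_neg, mul_one,
      neg_neg, e3, e4]
    generalize (T 1 : LaurentPolynomial ℤ) = u at *
    generalize (T (-1) : LaurentPolynomial ℤ) = v at *
    clear e3 e4
    constructor <;> grind
  · simp only [bact, sg, Bool.false_eq_true, if_true, if_false, Prod.mk.injEq, true_and, mul_neg,
      mul_one, neg_neg, e3, e4]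
    generalize (T 1 : LaurentPolynomial ℤ) = u at *
    generalize (T (-1) : LaurentPolynomial ℤ) = v at *
    clear e3 e4
    constructor <;> grind

/-- Optional half twist. -/
def hfn (m : Bool) (s : Or3 × LaurentPolynomial ℤ × LaurentPolynomial ℤ) :
    Or3 × LaurentPolynomial ℤ × LaurentPolynomial ℤ := if m then hf s else s

/-- Optional half twist of slopes. -/
def hzn (m : Bool) (v : ℤ × ℤ) : ℤ × ℤ := if m then hz v else v

lemma nf_step (o : Or3) (ho : o.1 ≠ o.2.1) (w : List Bool) (c : Bool × Bool) :
    ∃ (m : Bool) (w' : List Bool) (o' : Or3), o'.1 ≠ o'.2.1 ∧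
      nact (Pst o w) c = hfn m (Pst o' w') ∧
      (twist (Zst w) c = hzn m (Zst w') ∨ twist (Zst w) c = -hzn m (Zst w')) := by
  obtain ⟨j, p⟩ := c
  cases j <;> cases p
  · -- (false, false)
    cases w with
    | nil =>
      refine ⟨false, [], swap3 o (false, false), ?_, ?_, Or.inl ?_⟩
      · simpa [swap3] using ho.symm
      · exact e1_curl o ho false
      · simp [Zst, twist, hzn]
    | cons l w =>
      cases l
      · refine ⟨false, w, o, ho, ?_, Or.inl ?_⟩
        · exact nact_cancel (Pst o w) false true
        · simp only [Zst, twist, hzn, pl]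
          simp
      · refine ⟨true, false :: w, o, ho, ?_, Or.inr ?_⟩
        · exact nact_rel1 (Pst o w) (Pst_NC o ho w)
        · simp only [Zst, twist, hzn, pl, hz]
          simp [add_comm]
  · exact ⟨false, false :: w, o, ho, rfl, Or.inl rfl⟩
  · exact ⟨false, true :: w, o, ho, rfl, Or.inl rfl⟩
  · -- (true, true)
    cases w with
    | nil =>
      have ho' : (swap3 o (false, true)).1 ≠ (swap3 o (false, true)).2.1 := by
        simpa [swap3] using ho.symm
      refine ⟨true, [true], swap3 o (false, true), ho', ?_, Or.inl ?_⟩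
      · have h := nact_rel2 (e1 (swap3 o (false, true))) (Pst_NC _ ho' [])
        rw [e1_curl _ ho' true] at h
        exact h
      · simp [Zst, twist, hzn, pl, hz]
    | cons l w =>
      cases l
      · refine ⟨true, true :: w, o, ho, ?_, Or.inl ?_⟩
        · exact nact_rel2 (Pst o w) (Pst_NC o ho w)
        · simp only [Zst, twist, hzn, pl, hz]
          simp [add_comm]
      · refine ⟨false, w, o, ho, ?_, Or.inl ?_⟩
        · exact nact_cancel (Pst o w) true false
        · simp only [Zst, twist, hzn, pl]
          simp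

lemma normal_form (g : List (Bool × Bool)) (o : Or3) (ho : o.1 ≠ o.2.1) :
    ∃ (m : Bool) (w : List Bool) (o' : Or3), o'.1 ≠ o'.2.1 ∧
      g.foldl nact (e1 o) = hfn m (Pst o' w) ∧
      (g.foldl twist (1, 0) = hzn m (Zst w) ∨ g.foldl twist (1, 0) = -hzn m (Zst w)) := by
  induction g using List.reverseRecOn with
  | nil => exact ⟨false, [], o, ho, rfl, Or.inl rfl⟩
  | append_singleton g c ih =>
    obtain ⟨m, w, o', ho', h1, h2⟩ := ih
    rw [List.foldl_append, List.foldl_append]
    simp only [List.foldl_cons, List.foldl_nil]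
    cases m
    · obtain ⟨m', w', o'', ho'', h3, h4⟩ := nf_step o' ho' w c
      refine ⟨m', w', o'', ho'', ?_, ?_⟩
      · rw [h1]; exact h3
      · simp only [hzn, Bool.false_eq_true, if_false] at h2
        rcases h2 with h2 | h2 <;> rw [h2]
        · exact h4
        · rw [twist_neg]
          rcases h4 with h4 | h4 <;> rw [h4]
          · exact Or.inr rfl
          · exact Or.inl (neg_neg _)
    · obtain ⟨m', w', o'', ho'', h3, h4⟩ := nf_step o' ho' w (!c.1, c.2)
      refine ⟨!m', w', o'', ho'', ?_, ?_⟩
      · rw [h1]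
        simp only [hfn, if_true]
        rw [nact_hf, h3]
        cases m' <;> simp [hfn, hf_hf]
      · have h5 : twist (hz (Zst w)) c = hzn (!m') (Zst w') ∨
            twist (hz (Zst w)) c = -hzn (!m') (Zst w') := by
          have hzneg : ∀ v, hz (-v) = -hz v := fun v => by simp [hz]
          rw [twist_hz]
          rcases h4 with h4 | h4 <;> rw [h4] <;> cases m'
          · exact Or.inl rfl
          · exact Or.inr rfl
          · rw [hzneg]; exact Or.inr rfl
          · rw [hzneg]; exact Or.inl (neg_neg _)
        simp only [hzn, if_true] at h2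
        rcases h2 with h2 | h2 <;> rw [h2]
        · exact h5
        · rw [twist_neg]
          rcases h5 with h5 | h5 <;> rw [h5]
          · exact Or.inr rfl
          · exact Or.inl (neg_neg _)

lemma Zst_pos (w : List Bool) : 1 ≤ (Zst w).1 ∧ 0 ≤ (Zst w).2 := by
  induction w with
  | nil => simp [Zst]
  | cons l w ih =>
    cases l <;> simp [Zst, twist, pl] <;> constructor <;> omega

lemma Pst_zero (w : List Bool) : ∀ (o : Or3), o.1 ≠ o.2.1 → (Zst w).2 = 0 →
    (Zst w).1 = 1 ∧ ∃ o' : Or3, o'.1 ≠ o'.2.1 ∧ Pst o w = e1 o' := by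
  induction w with
  | nil => intro o ho _; exact ⟨rfl, o, ho, rfl⟩
  | cons l w ih =>
    intro o ho h
    have hp := Zst_pos w
    cases l
    · have h2 : (Zst w).2 = 0 := by simpa [Zst, twist, pl] using h
      obtain ⟨h3, o', ho', h4⟩ := ih o ho h2
      refine ⟨by simp [Zst, twist, pl, h2, h3], swap3 o' (false, true), ?_, ?_⟩
      · simpa [swap3] using ho'.symm
      · change nact (Pst o w) (false, true) = _
        rw [h4, e1_curl o' ho']
    · exfalso
      simp [Zst, twist, pl] at h
      omega

/-- The closure is not changed by a curl. -/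
lemma clo_curl (s : Or3 × LaurentPolynomial ℤ × LaurentPolynomial ℤ) (hs : s.1.1 ≠ s.1.2.1)
    (p : Bool) : clo (nact s (false, p)).2 = clo s.2 := by
  obtain ⟨⟨a, b, d⟩, x, y⟩ := s
  simp only at hs
  have h1 := T_one_mul
  have e3 := T_three
  have e4 := T_neg_three
  have e2 : (T 2 : LaurentPolynomial ℤ) = T 1 ^ 2 := by rw [T_pow]; norm_num
  have e2' : (T (-2) : LaurentPolynomial ℤ) = T (-1) ^ 2 := by rw [T_pow]; norm_num
  have e : sgn3 (a, b, d) (false, p) = -sg p := by simp [sgn3, hs]
  unfold nact clo loopVal
  rw [e]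
  cases p
  · simp only [bact, sg, Bool.false_eq_true, if_false, mul_neg, mul_one,
      neg_neg, e3, e4, e2, e2']
    generalize (T 1 : LaurentPolynomial ℤ) = u at *
    generalize (T (-1) : LaurentPolynomial ℤ) = v at *
    clear e3 e4 e2 e2'
    grind
  · simp only [bact, sg, Bool.false_eq_true, if_true, if_false, mul_neg,
      mul_one, neg_neg, e3, e4, e2, e2']
    generalize (T 1 : LaurentPolynomial ℤ) = u at *
    generalize (T (-1) : LaurentPolynomial ℤ) = v at *
    clear e3 e4 e2 e2'
    grind

lemma clo_curl' (s : Or3 × LaurentPolynomial ℤ × LaurentPolynomial ℤ) (hs : s.1.2.1 ≠ s.1.2.2)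
    (p : Bool) : clo (hf (nact s (true, p))).2 = clo (hf s).2 := by
  have h := clo_curl (hf s) (fun h => hs h.symm) p
  rw [nact_hf] at h
  exact h

lemma clo_one (w : List Bool) : ∀ (o : Or3), o.1 ≠ o.2.1 → (Zst w).2 = 1 →
    (Pst o w).1.1 ≠ (Pst o w).1.2.1 → clo (Pst o w).2 = 1 := by
  induction w with
  | nil => intro o _ h; simp [Zst] at h
  | cons l w ih =>
    intro o ho h ht
    have hp := Zst_pos w
    cases l
    · have h2 : (Zst w).2 = 1 := by simpa [Zst, twist, pl] using h
      have ht' : (Pst o w).1.1 ≠ (Pst o w).1.2.1 := by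
        intro h
        apply ht
        change (swap3 (Pst o w).1 (false, true)).1 = (swap3 (Pst o w).1 (false, true)).2.1
        simp [swap3, h]
      change clo (nact (Pst o w) (false, true)).2 = 1
      rw [clo_curl _ ht', ih o ho h2 ht']
    · have h2 : (Zst w).2 = 0 := by
        simp [Zst, twist, pl] at h
        omega
      obtain ⟨_, ⟨a, b, d⟩, ho', h4⟩ := Pst_zero w o ho h2
      have ht2 : (nact (Pst o w) (true, false)).1.1 ≠ (nact (Pst o w) (true, false)).1.2.1 := ht
      change clo (nact (Pst o w) (true, false)).2 = 1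
      rw [h4] at ht2 ⊢
      simp only [nact, e1, swap3, if_true] at ht2
      have hbd : b = d := by
        cases a <;> cases b <;> cases d <;> simp_all
      have e : sgn3 (a, b, d) (true, false) = -1 := by simp [sgn3, hbd, sg]
      have h1 := T_one_mul
      have e3 := T_three
      have e2 : (T 2 : LaurentPolynomial ℤ) = T 1 ^ 2 := by rw [T_pow]; norm_num
      have e2' : (T (-2) : LaurentPolynomial ℤ) = T (-1) ^ 2 := by rw [T_pow]; norm_num
      unfold nact clo loopVal e1
      simp only [e, bact, sg, Bool.false_eq_true, if_true, if_false, mul_neg, mul_one, neg_neg,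
        e3, e2, e2']
      generalize (T 1 : LaurentPolynomial ℤ) = u at *
      generalize (T (-1) : LaurentPolynomial ℤ) = v at *
      clear e3 e2 e2'
      grind

lemma clo_one' (w : List Bool) : ∀ (o : Or3), o.1 ≠ o.2.1 → (Zst w).1 = 1 →
    (Pst o w).1.2.1 ≠ (Pst o w).1.2.2 → clo (hf (Pst o w)).2 = 1 := by
  induction w with
  | nil => intro o _ _ _; simp [Pst, e1, hf, clo]
  | cons l w ih =>
    intro o ho h ht
    have hp := Zst_pos w
    cases l
    · have h2 : (Zst w).2 = 0 := by
        simp [Zst, twist, pl] at h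
        omega
      obtain ⟨_, o', ho', h4⟩ := Pst_zero w o ho h2
      change clo (hf (nact (Pst o w) (false, true))).2 = 1
      rw [h4, e1_curl o' ho']
      simp [e1, hf, clo]
    · have h2 : (Zst w).1 = 1 := by simpa [Zst, twist, pl] using h
      have ht' : (Pst o w).1.2.1 ≠ (Pst o w).1.2.2 := by
        intro h
        apply ht
        change (swap3 (Pst o w).1 (true, false)).2.1 = (swap3 (Pst o w).1 (true, false)).2.2
        simp [swap3, h]
      change clo (hf (nact (Pst o w) (true, false))).2 = 1
      rw [clo_curl' _ ht', ih o ho h2 ht']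

/-- The closure of a rational tangle at distance one is unknotted: its normalized bracket is
`1`. -/
theorem unknotted_closure (g : List (Bool × Bool)) (o : Or3) (ho : o.1 ≠ o.2.1)
    (ht : (g.foldl nact (e1 o)).1.1 ≠ (g.foldl nact (e1 o)).1.2.1)
    (hz : (tangleSlope g).2.natAbs = 1) : clo (g.foldl nact (e1 o)).2 = 1 := by
  obtain ⟨m, w, o', ho', h1, h2⟩ := normal_form g o ho
  have hp := Zst_pos w
  unfold tangleSlope at hz
  rw [h1] at ht ⊢
  cases m
  · simp only [hfn, Bool.false_eq_true, if_false] at ht ⊢
    apply clo_one w o' ho' _ ht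
    simp only [hzn, Bool.false_eq_true, if_false] at h2
    rcases h2 with h2 | h2 <;> rw [h2] at hz
    · omega
    · simp at hz; omega
  · simp only [hfn, if_true] at ht ⊢
    apply clo_one' w o' ho' _ (fun h => ht h.symm)
    simp only [hzn, if_true] at h2
    rcases h2 with h2 | h2 <;> rw [h2] at hz
    · simp [Helper2.hz] at hz; omega
    · simp [Helper2.hz] at hz; omega

end Pool.Agent.Helper2
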