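import Pool.Agent.Helper2.FillNF

/-!
# Evaluation at a primitive eighth root of unity
-/

set_option linter.unusedSimpArgs false

namespace Pool.Agent.Helper2

open LaurentPolynomial

/-- `√2 / 2`. -/
noncomputable def rt : ℝ := Real.sqrt 2 / 2

lemma rt_sq : rt * rt = 1 / 2 := by
  unfold rt
  have : Real.sqrt 2 * Real.sqrt 2 = 2 := Real.mul_self_sqrt (by norm_num)
  linarith [this]

lemma rt_irr : Irrational rt := by
  have := irrational_sqrt_two.div_natCast (m := 2) (by norm_num)
  simpa [rt] using this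

/-- The primitive eighth root of unity `(1 + i) / √2`. -/
noncomputable def zc : ℂ := ⟨rt, rt⟩

lemma zc_sq : zc ^ 2 = Complex.I := by
  rw [sq]
  apply Complex.ext
  · simp [zc, Complex.mul_re]
  · simp [zc, Complex.mul_im, rt_sq]
    norm_num

lemma zc_ne : zc ≠ 0 := by
  intro h
  have := zc_sq
  rw [h] at this
  simp only [ne_eq, OfNat.ofNat_ne_zero, not_false_eq_true, zero_pow] at this
  exact Complex.I_ne_zero this.symm

/-- The unit given by the primitive eighth root of unity. -/
noncomputable def z8 : ℂˣ := Units.mk0 zc zc_ne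

lemma ev_T1 : ev z8 (T 1) = zc := by rw [ev_T]; simp [z8]

lemma zc_four : zc ^ 4 = -1 := by
  have : zc ^ 4 = (zc ^ 2) ^ 2 := by ring
  rw [this, zc_sq, Complex.I_sq]

lemma ev_Tm1 : ev z8 (T (-1)) = -zc ^ 3 := by
  have h : ev z8 (T 1) * ev z8 (T (-1)) = 1 := by
    rw [← map_mul, T_one_mul, map_one]
  rw [ev_T1] at h
  have h2 : zc * (-zc ^ 3) = 1 := by
    have := zc_four
    linear_combination (-1 : ℂ) * this
  exact mul_left_cancel₀ zc_ne (h.trans h2.symm)

lemma zc_indep (a b c d : ℤ) (h : (a : ℂ) + b * zc + c * zc ^ 2 + d * zc ^ 3 = 0) :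
    a = 0 ∧ b = 0 ∧ c = 0 ∧ d = 0 := by
  have h3 : zc ^ 3 = Complex.I * zc := by
    have : zc ^ 3 = zc ^ 2 * zc := by ring
    rw [this, zc_sq]
  rw [h3, zc_sq] at h
  have hre := congrArg Complex.re h
  have him := congrArg Complex.im h
  simp [zc] at hre him
  -- hre : a + b rt - d rt = 0, him : b rt + c + d rt = 0
  have key : ∀ k l : ℤ, (k : ℝ) + l * rt = 0 → k = 0 ∧ l = 0 := by
    intro k l hkl
    by_cases hl : l = 0
    · subst hl
      simp at hkl
      exact ⟨hkl, rfl⟩
    · exfalso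
      apply rt_irr
      refine ⟨-(k : ℚ) / l, ?_⟩
      have hl' : (l : ℝ) ≠ 0 := by exact_mod_cast hl
      push_cast
      rw [div_eq_iff hl']
      linarith
  have h1 := key a (b - d) (by push_cast; linarith)
  have h2 := key c (b + d) (by push_cast; linarith)
  refine ⟨h1.1, ?_, h2.1, ?_⟩ <;> omega

/-- Coordinates of the value at the eighth root of unity, and the parity of their sum. -/
lemma ev_coord (P : LaurentPolynomial ℤ) : ∃ a b c d : ℤ,
    ev z8 P = a + b * zc + c * zc ^ 2 + d * zc ^ 3 ∧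
      ev (1 : (ZMod 2)ˣ) P = ((a + b + c + d : ℤ) : ZMod 2) := by
  have hu : ∀ P, (∃ a b c d : ℤ, ev z8 P = a + b * zc + c * zc ^ 2 + d * zc ^ 3 ∧
      ev (1 : (ZMod 2)ˣ) P = ((a + b + c + d : ℤ) : ZMod 2)) →
      (∃ a b c d : ℤ, ev z8 (P * T 1) = a + b * zc + c * zc ^ 2 + d * zc ^ 3 ∧
      ev (1 : (ZMod 2)ˣ) (P * T 1) = ((a + b + c + d : ℤ) : ZMod 2)) := by
    rintro P ⟨a, b, c, d, h1, h2⟩
    refine ⟨-d, a, b, c, ?_, ?_⟩
    · rw [map_mul, h1, ev_T1]
      push_cast
      have := zc_four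
      linear_combination (d : ℂ) * this
    · rw [map_mul, h2, ev_T]
      simp only [one_zpow, Units.val_one, mul_one]
      push_cast
      have : (d : ZMod 2) = -d := (ZMod.neg_eq_self_mod_two (d : ZMod 2)).symm
      linear_combination this
  have hd : ∀ P, (∃ a b c d : ℤ, ev z8 P = a + b * zc + c * zc ^ 2 + d * zc ^ 3 ∧
      ev (1 : (ZMod 2)ˣ) P = ((a + b + c + d : ℤ) : ZMod 2)) →
      (∃ a b c d : ℤ, ev z8 (P * T (-1)) = a + b * zc + c * zc ^ 2 + d * zc ^ 3 ∧
      ev (1 : (ZMod 2)ˣ) (P * T (-1)) = ((a + b + c + d : ℤ) : ZMod 2)) := by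
    rintro P ⟨a, b, c, d, h1, h2⟩
    refine ⟨b, c, d, -a, ?_, ?_⟩
    · rw [map_mul, h1, ev_Tm1]
      push_cast
      have := zc_four
      linear_combination (-(b : ℂ) - c * zc - d * zc ^ 2) * this
    · rw [map_mul, h2, ev_T]
      simp only [one_zpow, Units.val_one, mul_one]
      push_cast
      have : (a : ZMod 2) = -a := (ZMod.neg_eq_self_mod_two (a : ZMod 2)).symm
      linear_combination this
  induction P using LaurentPolynomial.induction_on with
  | h_C a =>
    refine ⟨a, 0, 0, 0, ?_, ?_⟩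
    · simp [ev]
    · simp [ev]
  | @h_add p q hp hq =>
    obtain ⟨a, b, c, d, h1, h2⟩ := hp
    obtain ⟨a', b', c', d', h3, h4⟩ := hq
    refine ⟨a + a', b + b', c + c', d + d', ?_, ?_⟩
    · rw [map_add, h1, h3]; push_cast; ring
    · rw [map_add, h2, h4]; push_cast; ring
  | h_C_mul_T n a h =>
    have := hu _ h
    rwa [mul_assoc, ← T_add] at this
  | h_C_mul_T_Z n a h =>
    have := hd _ h
    rwa [mul_assoc, ← T_add, ← sub_eq_add_neg] at this

/-- Integrality. -/
lemma ev_int (P : LaurentPolynomial ℤ) (δ n : ℤ) (hδ : δ ≠ 0) (h : (δ : ℂ) * ev z8 P = n) :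
    ∃ m : ℤ, ev z8 P = m ∧ ev (1 : (ZMod 2)ˣ) P = (m : ZMod 2) := by
  obtain ⟨a, b, c, d, h1, h2⟩ := ev_coord P
  rw [h1] at h
  have h3 := zc_indep (δ * a - n) (δ * b) (δ * c) (δ * d) (by
    push_cast
    linear_combination h)
  obtain ⟨_, hb, hc, hd⟩ := h3
  have hb : b = 0 := by simpa [hδ] using hb
  have hc : c = 0 := by simpa [hδ] using hc
  have hd : d = 0 := by simpa [hδ] using hd
  subst hb hc hd
  refine ⟨a, ?_, ?_⟩
  · rw [h1]; simp
  · rw [h2]; simp

/-- The values of a bracket vector in integral normalization. -/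
noncomputable def cv (v : LaurentPolynomial ℤ × LaurentPolynomial ℤ) : ℂ × ℂ :=
  (ev z8 v.1, -Complex.I * ev z8 v.2)

/-- Whether a letter is a crossing of parallel strands. -/
def isPar (o : Or3) (c : Bool × Bool) : Bool :=
  if c.1 then decide (o.2.1 = o.2.2) else decide (o.1 = o.2.1)

lemma cv_nact (s : Or3 × LaurentPolynomial ℤ × LaurentPolynomial ℤ) (c : Bool × Bool) :
    cv (nact s c).2 =
      (if isPar s.1 c then (sg c.2 : ℂ) * Complex.I else 1) •
        (if c.1 then ((cv s.2).1, (cv s.2).2 - (sg c.2 : ℂ) * (cv s.2).1)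
          else ((cv s.2).1 + (sg c.2 : ℂ) * (cv s.2).2, (cv s.2).2)) := by
  obtain ⟨⟨a, b, d⟩, x, y⟩ := s
  obtain ⟨j, p⟩ := c
  have h4 := zc_four
  have h2 := zc_sq
  have e3 := T_three
  have e4 := T_neg_three
  cases j <;> cases p <;> cases a <;> cases b <;> cases d <;>
    simp only [cv, nact, isPar, swap3, sgn3, bact, sg, Bool.false_eq_true, decide_true,
      decide_false, Bool.not_true, Bool.not_false,
      if_true, if_false, reduceCtorEq, mul_neg, mul_one, neg_neg, e3, e4, Prod.mk.injEq,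
      Prod.smul_mk, smul_eq_mul, map_mul, map_add, map_neg, map_pow, ev_T1, ev_Tm1,
      Int.cast_neg, Int.cast_one, one_mul, neg_mul, ← h2] <;>
    generalize ev z8 x = X <;> generalize ev z8 y = Y <;> generalize zc = w at * <;>
    constructor <;> grind

lemma ev_loop : ev z8 loopVal = 0 := by
  have e2 : (T 2 : LaurentPolynomial ℤ) = T 1 ^ 2 := by rw [T_pow]; norm_num
  have e2' : (T (-2) : LaurentPolynomial ℤ) = T (-1) ^ 2 := by rw [T_pow]; norm_num
  unfold loopVal
  rw [map_neg, map_add, e2, e2', map_pow, map_pow, ev_T1, ev_Tm1]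
  have := zc_four
  linear_combination (-zc ^ 2) * this

lemma ev_clo (v : LaurentPolynomial ℤ × LaurentPolynomial ℤ) :
    ev z8 (clo v) = Complex.I * (cv v).2 := by
  unfold clo cv
  rw [map_add, map_mul, ev_loop]
  linear_combination (ev z8 v.2) * Complex.I_mul_I

/-- The parity of the number of crossings of parallel strands in a braid word. -/
def par : Or3 → List (Bool × Bool) → Bool
  | _, [] => false
  | o, c :: b => xor (isPar o c) (par (swap3 o c) b)

lemma sg_cases (p : Bool) : sg p = 1 ∨ sg p = -1 := by cases p <;> simp [sg]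

/-- The value of the normalized bracket of a rational filling at the eighth root of unity. -/
lemma ev_fill (b : List (Bool × Bool)) : ∀ o : Or3, ∃ ε : ℤ, (ε = 1 ∨ ε = -1) ∧
    ∀ v : LaurentPolynomial ℤ × LaurentPolynomial ℤ,
      ev z8 (clo (b.foldl nact (o, v)).2) = ε * Complex.I *
        (if par o b then Complex.I else 1) *
        ((slope b).1 * (cv v).1 + (slope b).2 * (cv v).2) := by
  induction b with
  | nil =>
    intro o
    refine ⟨1, Or.inl rfl, fun v => ?_⟩
    simp [ev_clo, par, slope]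
  | cons c b ih =>
    intro o
    obtain ⟨ε, hε, h'⟩ := ih (swap3 o c)
    have hs := sg_cases c.2
    have h : ∀ v, ev z8 (clo (b.foldl nact (nact (o, v) c)).2) = ε * Complex.I *
        (if par (swap3 o c) b then Complex.I else 1) *
        ((slope b).1 * (cv (nact (o, v) c).2).1 + (slope b).2 * (cv (nact (o, v) c).2).2) :=
      fun v => h' _
    obtain ⟨j, p⟩ := c
    have e0 : par o ((j, p) :: b) = xor (isPar o (j, p)) (par (swap3 o (j, p)) b) := rfl
    have esl : ∀ X Y : ℂ, ((slope ((j, p) :: b)).1 : ℂ) * X + (slope ((j, p) :: b)).2 * Y =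
        if j then (slope b).1 * X + (slope b).2 * (Y - sg p * X)
        else (slope b).1 * (X + sg p * Y) + (slope b).2 * Y := by
      intro X Y
      cases j <;> cases p <;> simp [slope, sg] <;> ring
    have hI := Complex.I_mul_I
    cases hP : isPar o (j, p) <;> cases hQ : par (swap3 o (j, p)) b
    · refine ⟨ε, hε, fun v => ?_⟩
      rw [List.foldl_cons, h, cv_nact, e0, esl, hP, hQ]
      cases j <;> simp
    · refine ⟨ε, hε, fun v => ?_⟩
      rw [List.foldl_cons, h, cv_nact, e0, esl, hP, hQ]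
      cases j <;> simp
    · refine ⟨ε * sg p, ?_, fun v => ?_⟩
      · rcases hε with rfl | rfl <;> rcases hs with hs | hs <;> simp at hs <;> simp [hs]
      · rw [List.foldl_cons, h, cv_nact, e0, esl, hP, hQ]
        cases j <;> simp <;> ring
    · refine ⟨-(ε * sg p), ?_, fun v => ?_⟩
      · rcases hε with rfl | rfl <;> rcases hs with hs | hs <;> simp at hs <;> simp [hs]
      · rw [List.foldl_cons, h, cv_nact, e0, esl, hP, hQ]
        generalize cv v = q
        cases j <;> simp
        · linear_combination (ε * Complex.I * sg p * (slope b).1 * (q.1 + sg p * q.2) +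
            ε * Complex.I * sg p * (slope b).2 * q.2) * hI
        · linear_combination (ε * Complex.I * sg p * (slope b).1 * q.1 +
            ε * Complex.I * sg p * (slope b).2 * (q.2 - sg p * q.1)) * hI

end Pool.Agent.Helper2
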