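import Pool.Agent.Helper2.OrRun
import Pool.Agent.Helper2.FillZeta

/-!
# Parities
-/

set_option linter.unusedSimpArgs false

namespace Pool.Agent.Helper2

open LaurentPolynomial

/-- A filling which is a knot diagram leaves no closed curve in the tangle. -/
lemma closed_zero (R t : List Slice) (hR : Ok R 0 4) (ht : Ok t 4 0) (h : curves (R ++ t) = 1) :
    (R.foldl Trace.step ⟨0, [], 0⟩).closed = 0 := by
  have h1 := colour_curves (R ++ t) (ok_append _ _ _ _ _ hR ht)
  have h2 := run_cnt R ⟨0, [], 0⟩ 4 ⟨by simp, by simp⟩ hR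
  set tr := R.foldl Trace.step ⟨0, [], 0⟩ with htr
  rw [Ops.run_append, h] at h1
  have e0 : (fun l : List Bool => if l.length = 0 then (1 : ℤ) else 0) = cnt ⟨0, [], 0⟩ :=
    cnt_init.symm
  rw [e0, h2.1] at h1
  set tr0 : Trace := ⟨tr.fresh, tr.names, 0⟩ with htr0
  have e1 : cnt tr = (2 : ℤ) ^ tr.closed • cnt tr0 := by
    funext x
    simp only [cnt, Pi.smul_apply, smul_eq_mul, htr0, pow_zero, mul_ite, mul_one, mul_zero]
  have hlb : LB 4 (cnt tr0) := by
    intro x hx
    have key : ∀ b : Bool, mono b x → cnt tr0 x = 1 := by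
      intro b hb
      unfold cnt
      rw [if_pos]
      · simp [htr0]
      · refine ⟨fun _ => b, ?_⟩
        apply List.ext_getElem
        · simp [htr0, h2.2, hx]
        · intro n h3 h4
          simp only [List.getElem_map]
          exact (hb _ (List.getElem_mem h4)).symm
    have hnn : 0 ≤ cnt tr0 x := by
      unfold cnt
      split_ifs <;> simp [htr0]
    have hnot : ¬ (mono true x ∧ mono false x) := by
      rintro ⟨h3, h4⟩
      rcases x with _ | ⟨a, x⟩
      · simp at hx
      · have h5 := h3 a List.mem_cons_self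
        have h6 := h4 a List.mem_cons_self
        rw [h5] at h6
        exact absurd h6 (by decide)
    unfold lb
    by_cases h3 : mono true x
    · have h4 : ¬ mono false x := fun h4 => hnot ⟨h3, h4⟩
      rw [if_pos h3, if_neg h4, key true h3]
      norm_num
    · by_cases h4 : mono false x
      · rw [if_neg h3, if_pos h4, key false h4]
        norm_num
      · rw [if_neg h3, if_neg h4]
        simpa using hnn
  have h3 := LB.run t 4 0 _ ht hlb [] rfl
  rw [e1, colOps_lin, Pi.smul_apply, smul_eq_mul] at h1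
  have h4 : lb [] = 2 := by simp [lb, mono]
  rw [h4] at h3
  by_contra hne
  obtain ⟨k, hk⟩ : ∃ k, tr.closed = k + 1 := ⟨tr.closed - 1, by omega⟩
  rw [hk, pow_succ] at h1
  have h5 : (1 : ℤ) ≤ 2 ^ k := one_le_pow₀ (by norm_num)
  nlinarith

/-- Parities. -/
abbrev Par := ZMod 2 × ZMod 2

/-- The residues of a pair of integers modulo two. -/
def pz (v : ℤ × ℤ) : Par := ((v.1 : ZMod 2), (v.2 : ZMod 2))

/-- Directions compatible with the closure of a given slope. -/
def Allowed (o : Or3) (r : Par) : Prop :=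
  if o.1 = o.2.1 then (o.2.1 ≠ o.2.2 ∧ r.1 = 1)
  else if o.2.1 = o.2.2 then r.2 = 1 else r.1 + r.2 = 1

instance (o : Or3) (r : Par) : Decidable (Allowed o r) := by unfold Allowed; infer_instance

/-- The parity of the number of crossings of parallel strands. -/
def Phi (o : Or3) (r : Par) : Bool := if o.1 = o.2.1 then decide (r.2 = 0) else decide (r.1 = 1)

/-- Directions compatible with the parities of a bracket vector. -/
def Tcomp (o : Or3) (v : Par) : Prop :=
  (if o.1 = o.2.1 then 0 else v.1) + (if o.2.1 = o.2.2 then 0 else v.2) = 1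

instance (o : Or3) (r : Par) : Decidable (Tcomp o r) := by unfold Tcomp; infer_instance

/-- The action of a letter on parities of slopes of fillings. -/
def rstep (c : Bool × Bool) (r : Par) : Par :=
  if c.1 then (r.1 + r.2, r.2) else (r.1, r.2 + r.1)

/-- The action of a letter on parities of slopes of tangles. -/
def vstep (v : Par) (c : Bool × Bool) : Par :=
  if c.1 then (v.1, v.2 + v.1) else (v.1 + v.2, v.2)

lemma pz_slope (c : Bool × Bool) (b : List (Bool × Bool)) :
    pz (slope (c :: b)) = rstep c (pz (slope b)) := by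
  obtain ⟨j, p⟩ := c
  cases j <;> cases p <;> simp [slope, pz, rstep, CharTwo.sub_eq_add]

lemma pz_twist (v : ℤ × ℤ) (c : Bool × Bool) : pz (twist v c) = vstep (pz v) c := by
  obtain ⟨j, p⟩ := c
  cases j <;> cases p <;> simp [twist, pz, vstep, CharTwo.sub_eq_add]

lemma phi_step : ∀ (o : Or3) (r : Par) (c : Bool × Bool), Allowed (swap3 o c) r →
    Allowed o (rstep c r) ∧ xor (isPar o c) (Phi (swap3 o c) r) = Phi o (rstep c r) := by
  decide

lemma phi_nil : ∀ (o : Or3), o.1 ≠ o.2.1 → Allowed o (0, 1) ∧ false = Phi o (0, 1) := by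
  decide

lemma par_phi (b : List (Bool × Bool)) : ∀ o : Or3,
    (b.foldl swap3 o).1 ≠ (b.foldl swap3 o).2.1 →
    Allowed o (pz (slope b)) ∧ par o b = Phi o (pz (slope b)) := by
  induction b with
  | nil =>
    intro o ho
    have := phi_nil o ho
    simpa [slope, pz, par] using this
  | cons c b ih =>
    intro o ho
    obtain ⟨h1, h2⟩ := ih (swap3 o c) ho
    have h3 := phi_step o _ c h1
    rw [pz_slope]
    refine ⟨h3.1, ?_⟩
    rw [← h3.2, ← h2]
    rfl

lemma same_class_aux : ∀ (o : Or3) (v : Par), Tcomp o v → ∀ r : Par, Allowed o r →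
    r.1 * v.1 + r.2 * v.2 = 1 →
    r = if o.1 = o.2.1 then (1, v.1 + 1) else if o.2.1 = o.2.2 then (v.2 + 1, 1)
      else (v.1, v.2) := by
  decide

lemma same_class (o : Or3) (r r' v : Par) (h1 : Allowed o r) (h2 : Allowed o r')
    (h3 : Tcomp o v) (h4 : r.1 * v.1 + r.2 * v.2 = 1) (h5 : r'.1 * v.1 + r'.2 * v.2 = 1) :
    r = r' := by
  rw [same_class_aux o v h3 r h1 h4, same_class_aux o v h3 r' h2 h5]

lemma tcomp_step : ∀ (o : Or3) (v : Par) (c : Bool × Bool),
    ¬ (o.1 = o.2.1 ∧ o.2.1 = o.2.2) → Tcomp (swap3 o c) (vstep v c) → Tcomp o v := by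
  decide

lemma tcomp_base : ∀ (o : Or3), Tcomp o (1, 0) → o.1 ≠ o.2.1 := by
  decide

lemma swap3_swap3 (o : Or3) (c : Bool × Bool) : swap3 (swap3 o c) c = o := by
  obtain ⟨j, p⟩ := c
  cases j <;> rfl

lemma NC_of_swap {o : Or3} {c : Bool × Bool} (h : NC (swap3 o c)) : NC o := by
  have := h.swap c
  rwa [swap3_swap3] at this

/-- Directions of a rational tangle. -/
lemma exists_dirs (g : List (Bool × Bool)) : ∀ (o : Or3) (v : ℤ × ℤ), NC o →
    Tcomp o (pz (g.foldl twist v)) → ∃ o' : Or3, g.foldl swap3 o' = o ∧ NC o' ∧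
      Tcomp o' (pz v) := by
  induction g using List.reverseRecOn with
  | nil => intro o v ho h; exact ⟨o, rfl, ho, h⟩
  | append_singleton g c ih =>
    intro o v ho h
    rw [List.foldl_append, List.foldl_cons, List.foldl_nil, pz_twist] at h
    have h1 : Tcomp (swap3 o c) (pz (g.foldl twist v)) := by
      apply tcomp_step _ _ c (ho.swap c)
      rw [swap3_swap3]
      exact h
    obtain ⟨o', h2, h3, h4⟩ := ih (swap3 o c) v (ho.swap c) h1
    refine ⟨o', ?_, h3, h4⟩
    rw [List.foldl_append, List.foldl_cons, List.foldl_nil, h2, swap3_swap3]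

end Pool.Agent.Helper2
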