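import Pool.Agent.Helper2.FillAct

/-!
# Unknotted closures of rational tangles
-/

set_option linter.unusedSimpArgs false

namespace Pool.Agent.Helper2

open LaurentPolynomial

/-- Directions of the first three strands. -/
abbrev Or3 := Bool × Bool × Bool

/-- A letter permutes the first three strands. -/
def swap3 (o : Or3) (c : Bool × Bool) : Or3 :=
  if c.1 then (o.1, o.2.2, o.2.1) else (o.2.1, o.1, o.2.2)

/-- The sign of the crossing of a letter. -/
def sgn3 (o : Or3) (c : Bool × Bool) : ℤ :=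
  if c.1 then (if o.2.1 = o.2.2 then sg c.2 else -sg c.2)
  else (if o.1 = o.2.1 then sg c.2 else -sg c.2)

/-- The normalized action of a letter on directions and bracket vectors. -/
noncomputable def nact (s : Or3 × LaurentPolynomial ℤ × LaurentPolynomial ℤ) (c : Bool × Bool) :
    Or3 × LaurentPolynomial ℤ × LaurentPolynomial ℤ :=
  (swap3 s.1 c, -T (-3 * sgn3 s.1 c) * (bact s.2 c).1, -T (-3 * sgn3 s.1 c) * (bact s.2 c).2)

/-- The half twist. -/
def hf (s : Or3 × LaurentPolynomial ℤ × LaurentPolynomial ℤ) :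
    Or3 × LaurentPolynomial ℤ × LaurentPolynomial ℤ :=
  ((s.1.2.2, s.1.2.1, s.1.1), s.2.2, s.2.1)

/-- The half twist on slopes. -/
def hz (v : ℤ × ℤ) : ℤ × ℤ := (v.2, -v.1)

/-- Not all directions are equal. -/
def NC (o : Or3) : Prop := ¬ (o.1 = o.2.1 ∧ o.2.1 = o.2.2)

lemma NC.swap {o : Or3} (h : NC o) (c : Bool × Bool) : NC (swap3 o c) := by
  revert h
  unfold NC swap3
  obtain ⟨a, b, d⟩ := o
  obtain ⟨j, p⟩ := c
  cases a <;> cases b <;> cases d <;> cases j <;> simp

lemma nact_fst (s : Or3 × LaurentPolynomial ℤ × LaurentPolynomial ℤ) (c : Bool × Bool) :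
    (nact s c).1 = swap3 s.1 c := rfl

lemma hf_hf (s : Or3 × LaurentPolynomial ℤ × LaurentPolynomial ℤ) : hf (hf s) = s := rfl

lemma hz_hz (v : ℤ × ℤ) : hz (hz v) = -v := rfl

lemma nact_hf (s : Or3 × LaurentPolynomial ℤ × LaurentPolynomial ℤ) (c : Bool × Bool) :
    nact (hf s) c = hf (nact s (!c.1, c.2)) := by
  obtain ⟨⟨a, b, d⟩, x, y⟩ := s
  obtain ⟨j, p⟩ := c
  cases j <;> cases a <;> cases b <;> cases d <;> simp [nact, hf, swap3, sgn3, bact]

lemma twist_hz (v : ℤ × ℤ) (c : Bool × Bool) : twist (hz v) c = hz (twist v (!c.1, c.2)) := by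
  obtain ⟨j, p⟩ := c
  cases j <;> cases p <;> simp [twist, hz] <;> ring

lemma twist_neg (v : ℤ × ℤ) (c : Bool × Bool) : twist (-v) c = -twist v c := by
  obtain ⟨j, p⟩ := c
  cases j <;> cases p <;> simp [twist] <;> ring

lemma T_three : (T 3 : LaurentPolynomial ℤ) = T 1 ^ 3 := by rw [T_pow]; norm_num

lemma T_neg_three : (T (-3) : LaurentPolynomial ℤ) = T (-1) ^ 3 := by rw [T_pow]; norm_num

lemma T_one_mul : (T 1 * T (-1) : LaurentPolynomial ℤ) = 1 := by rw [← T_add]; simp

/-- Inverse letters cancel. -/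
lemma nact_cancel (s : Or3 × LaurentPolynomial ℤ × LaurentPolynomial ℤ) (j p : Bool) :
    nact (nact s (j, p)) (j, !p) = s := by
  obtain ⟨⟨a, b, d⟩, x, y⟩ := s
  have h1 := T_one_mul
  have e3 := T_three
  have e4 := T_neg_three
  cases j <;> cases p <;> cases a <;> cases b <;> cases d <;>
    simp only [nact, swap3, sgn3, bact, sg, Bool.not_true, Bool.not_false, Bool.false_eq_true,
      if_true, if_false, reduceCtorEq, mul_neg, mul_one, neg_neg, e3, e4, Prod.mk.injEq,
      true_and] <;>
    generalize (T 1 : LaurentPolynomial ℤ) = u at * <;>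
    generalize (T (-1) : LaurentPolynomial ℤ) = v at * <;>
    clear e3 e4 <;>
    constructor <;> grind

/-- The relation `σ₀⁻¹ σ₁⁻¹ = Δ⁻¹ σ₀`. -/
lemma nact_rel1 (s : Or3 × LaurentPolynomial ℤ × LaurentPolynomial ℤ) (hs : NC s.1) :
    nact (nact s (true, false)) (false, false) = hf (nact s (false, true)) := by
  obtain ⟨⟨a, b, d⟩, x, y⟩ := s
  have h1 := T_one_mul
  have e3 := T_three
  have e4 := T_neg_three
  unfold NC at hs
  cases a <;> cases b <;> cases d <;>
    simp only [nact, swap3, sgn3, bact, sg, hf, Bool.not_true, Bool.not_false, Bool.false_eq_true,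
      if_true, if_false, reduceCtorEq, mul_neg, mul_one, neg_neg, e3, e4, Prod.mk.injEq,
      true_and, and_true, and_false, not_true_eq_false] at hs ⊢ <;>
    generalize (T 1 : LaurentPolynomial ℤ) = u at * <;>
    generalize (T (-1) : LaurentPolynomial ℤ) = v at * <;>
    clear e3 e4 <;>
    constructor <;> grind

/-- The relation `σ₁ σ₀ = Δ σ₁⁻¹`. -/
lemma nact_rel2 (s : Or3 × LaurentPolynomial ℤ × LaurentPolynomial ℤ) (hs : NC s.1) :
    nact (nact s (false, true)) (true, true) = hf (nact s (true, false)) := by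
  obtain ⟨⟨a, b, d⟩, x, y⟩ := s
  have h1 := T_one_mul
  have e3 := T_three
  have e4 := T_neg_three
  unfold NC at hs
  cases a <;> cases b <;> cases d <;>
    simp only [nact, swap3, sgn3, bact, sg, hf, Bool.not_true, Bool.not_false, Bool.false_eq_true,
      if_true, if_false, reduceCtorEq, mul_neg, mul_one, neg_neg, e3, e4, Prod.mk.injEq,
      true_and, and_true, and_false, not_true_eq_false] at hs ⊢ <;>
    generalize (T 1 : LaurentPolynomial ℤ) = u at * <;>
    generalize (T (-1) : LaurentPolynomial ℤ) = v at * <;>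
    clear e3 e4 <;>
    constructor <;> grind

end Pool.Agent.Helper2
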