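import Pool.Agent.Helper2.FillFinal

/-!
# The classification theorem
-/

set_option linter.unusedSimpArgs false

namespace Pool.Agent.Helper2

open LaurentPolynomial

lemma ev_z8_T2 : ev z8 (T 2) = Complex.I := by
  have e2 : (T 2 : LaurentPolynomial ℤ) = T 1 ^ 2 := by rw [T_pow]; norm_num
  rw [e2, map_pow, ev_T1, zc_sq]

/-- Solving two equations. -/
lemma solve_two (P1 P2 : LaurentPolynomial ℤ) (r s : ℤ × ℤ) (a b : ℤ)
    (hD : r.1 * s.2 - r.2 * s.1 ≠ 0)
    (h1 : (r.1 : ℂ) * ev z8 P1 + r.2 * ev z8 P2 = a)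
    (h2 : (s.1 : ℂ) * ev z8 P1 + s.2 * ev z8 P2 = b) :
    ∃ m : ℤ × ℤ, ev z8 P1 = m.1 ∧ ev z8 P2 = m.2 ∧ ev (1 : (ZMod 2)ˣ) P1 = (m.1 : ZMod 2) ∧
      ev (1 : (ZMod 2)ˣ) P2 = (m.2 : ZMod 2) ∧ r.1 * m.1 + r.2 * m.2 = a ∧
      s.1 * m.1 + s.2 * m.2 = b := by
  obtain ⟨m1, h3, h4⟩ := ev_int P1 _ (a * s.2 - b * r.2) hD (by
    push_cast
    linear_combination (s.2 : ℂ) * h1 - (r.2 : ℂ) * h2)
  obtain ⟨m2, h5, h6⟩ := ev_int P2 _ (r.1 * b - s.1 * a) hD (by
    push_cast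
    linear_combination (r.1 : ℂ) * h2 - (s.1 : ℂ) * h1)
  refine ⟨(m1, m2), h3, h5, h4, h6, ?_, ?_⟩
  · rw [h3, h5] at h1
    exact_mod_cast h1
  · rw [h3, h5] at h2
    exact_mod_cast h2

lemma kap_ne (p : Bool) : Complex.I * (if p then Complex.I else 1) ≠ 0 := by
  cases p <;> simp

/-- Scaling of bracket vectors. -/
lemma clo_bact_smul (b : List (Bool × Bool)) (v : LaurentPolynomial ℤ × LaurentPolynomial ℤ)
    (k : LaurentPolynomial ℤ) :
    clo (b.foldl bact (k * v.1, k * v.2)) = k * clo (b.foldl bact v) := by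
  have h1 := foldl_nact' b (true, false, true) v k
  have h2 := foldl_nact' b (true, false, true) (k * v.1, k * v.2) 1
  simp only [one_mul, mul_one] at h2
  rw [h2] at h1
  have h3 := nrm_neg_mul (ssum (true, false, true) b)
  calc clo (b.foldl bact (k * v.1, k * v.2))
      = nrm (-ssum (true, false, true) b) *
        (nrm (ssum (true, false, true) b) * clo (b.foldl bact (k * v.1, k * v.2))) := by
        rw [← mul_assoc, h3, one_mul]
    _ = _ := by
        rw [h1, ← mul_assoc, ← mul_assoc, h3, one_mul]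

lemma pz_neg (v : ℤ × ℤ) : pz (-v) = pz v := by
  simp [pz, CharTwo.neg_eq]

lemma nrm_unit (n : ℤ) : ∃ m : ℤ, nrm n = T m ∨ nrm n = -T m := by
  refine ⟨-3 * n, ?_⟩
  unfold nrm
  rcases neg_one_pow_eq_or (LaurentPolynomial ℤ) n.natAbs with h | h <;> rw [h]
  · left; rw [one_mul]
  · right; rw [neg_one_mul]

/-- The bracket of a tangle with two different rational fillings having the normalized bracket of
the unknot is that of a rational tangle. -/
theorem two_fillings (R : List Slice) (o : Or3) (d : Bool)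
    (hR : dirsAbove R [] = some [o.1, o.2.1, o.2.2, d]) (b₁ b₂ : List (Bool × Bool))
    (hk₁ : IsKnotDiagram (fill R b₁)) (hk₂ : IsKnotDiagram (fill R b₂))
    (hf₁ : fPoly (fill R b₁) = 1) (hf₂ : fPoly (fill R b₂) = 1)
    (hne : ¬ (slope b₂ = slope b₁ ∨ slope b₂ = -slope b₁)) :
    ∃ (g : List (Bool × Bool)) (u : LaurentPolynomial ℤ), (∃ m : ℤ, u = T m ∨ u = -T m) ∧
      (∀ b, bracket (fill R b) = u * bracket (fill (rational g) b)) ∧
      ∀ b, IsKnotDiagram (fill R b) → (fPoly (fill R b) = 1 ↔ dist g b = 1) := by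
  have hOk : Ok R 0 4 := ok_of_dirs R [] _ hR
  obtain ⟨x, y, hxy, hmod⟩ := exists_vec R hOk
  have hv : Vec R (x, y) := by
    intro t ht
    rw [hxy t ht, bracket_mw, bracket_mw]
  have hb : ∀ b, IsKnotDiagram (fill R b) → ((b.foldl swap3 o).1 ≠ (b.foldl swap3 o).2.1 ∧
      (b.foldl swap3 o).2.2 ≠ d) := fun b h => (fill_diagram R o d hR b).1 h.1
  have hbal := balanced o d b₁ (hb b₁ hk₁)
  have hNC := balanced_NC o d hbal
  have hcl := closed_zero R (braid b₁ ++ [.cap 0, .cap 0]) hOk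
    (braid_ok b₁ _ ok_caps) (by have := hk₁.2; unfold fill at this; exact this)
  have hT0 := tcomp_of_knot R o d hR hbal hcl x y hmod
  obtain ⟨vh, hvh⟩ : ∃ vh : LaurentPolynomial ℤ × LaurentPolynomial ℤ,
    vh = (nrm (writhe R) * x, nrm (writhe R) * y) := ⟨_, rfl⟩
  have hvh1 : ev (1 : (ZMod 2)ˣ) vh.1 = ev (1 : (ZMod 2)ˣ) x := by
    rw [hvh, map_mul, ev1_nrm, one_mul]
  have hvh2 : ev (1 : (ZMod 2)ˣ) vh.2 = ev (1 : (ZMod 2)ˣ) y := by
    rw [hvh, map_mul, ev1_nrm, one_mul]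
  have hT : Tcomp o (ev (1 : (ZMod 2)ˣ) vh.1, ev (1 : (ZMod 2)ˣ) vh.2) := by
    rw [hvh1, hvh2]; exact hT0
  have hF : ∀ b, fPoly (fill R b) = clo (b.foldl nact (o, vh)).2 := by
    intro b
    rw [fill_fPoly R o d hR (x, y) hv b, hvh]
  have hc₁ : clo (b₁.foldl nact (o, vh)).2 = 1 := by rw [← hF, hf₁]
  have hc₂ : clo (b₂.foldl nact (o, vh)).2 = 1 := by rw [← hF, hf₂]
  -- parities
  have hp₁ := ev1_fill b₁ o vh
  have hp₂ := ev1_fill b₂ o vh
  rw [hc₁, map_one] at hp₁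
  rw [hc₂, map_one] at hp₂
  obtain ⟨hA₁, hP₁⟩ := par_phi b₁ o (hb b₁ hk₁).1
  obtain ⟨hA₂, hP₂⟩ := par_phi b₂ o (hb b₂ hk₂).1
  have hsame := same_class o _ _ _ hA₁ hA₂ hT hp₁.symm hp₂.symm
  have hpar : par o b₂ = par o b₁ := by rw [hP₁, hP₂, hsame]
  obtain ⟨ε₁, hε₁, he₁⟩ := ev_fill b₁ o
  obtain ⟨ε₂, hε₂, he₂⟩ := ev_fill b₂ o
  rw [hpar] at he₂
  obtain ⟨κ, hκ⟩ : ∃ κ : ℂ, κ = Complex.I * (if par o b₁ then Complex.I else 1) := ⟨_, rfl⟩
  have hκ0 : κ ≠ 0 := by rw [hκ]; exact kap_ne _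
  obtain ⟨q, hq, hq1⟩ : ∃ q : LaurentPolynomial ℤ, ev z8 q = κ ∧ ev (1 : (ZMod 2)ˣ) q = 1 := by
    rw [hκ]
    cases par o b₁
    · exact ⟨T 2, by simp [ev_z8_T2], ev1_T 2⟩
    · exact ⟨T 2 * T 2, by rw [map_mul, ev_z8_T2]; simp, by rw [map_mul, ev1_T, one_mul]⟩
  replace he₁ : ∀ v : LaurentPolynomial ℤ × LaurentPolynomial ℤ,
      ev z8 (clo (b₁.foldl nact (o, v)).2) = ε₁ * κ *
        ((slope b₁).1 * (cv v).1 + (slope b₁).2 * (cv v).2) := by
    intro v
    rw [he₁ v, hκ]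
    ring
  replace he₂ : ∀ v : LaurentPolynomial ℤ × LaurentPolynomial ℤ,
      ev z8 (clo (b₂.foldl nact (o, v)).2) = ε₂ * κ *
        ((slope b₂).1 * (cv v).1 + (slope b₂).2 * (cv v).2) := by
    intro v
    rw [he₂ v, hκ]
    ring
  have he₁' := he₁ vh
  have he₂' := he₂ vh
  rw [hc₁, map_one] at he₁'
  rw [hc₂, map_one] at he₂'
  have hε₁' : (ε₁ : ℂ) * ε₁ = 1 := by rcases hε₁ with h | h <;> rw [h] <;> simp
  have hε₂' : (ε₂ : ℂ) * ε₂ = 1 := by rcases hε₂ with h | h <;> rw [h] <;> simp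
  have hD : (slope b₁).1 * (slope b₂).2 - (slope b₁).2 * (slope b₂).1 ≠ 0 := by
    intro h
    exact hne (eq_of_det _ _ (slope_coprime b₁) (slope_coprime b₂) (sub_eq_zero.1 h))
  have hU1 : ev z8 (q * vh.1) = κ * (cv vh).1 := by rw [map_mul, hq]; rfl
  have hU2 : ev z8 (-T 2 * (q * vh.2)) = κ * (cv vh).2 := by
    rw [map_mul, map_mul, map_neg, hq, ev_z8_T2]; unfold cv; ring
  obtain ⟨m, hm1, hm2, hm3, hm4, hm5, hm6⟩ := solve_two (q * vh.1) (-T 2 * (q * vh.2))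
    (slope b₁) (slope b₂) ε₁ ε₂ hD
    (by
      rw [hU1, hU2]
      linear_combination (-(ε₁ : ℂ)) * he₁' -
        (κ * ((slope b₁).1 * (cv vh).1 + (slope b₁).2 * (cv vh).2)) * hε₁')
    (by
      rw [hU1, hU2]
      linear_combination (-(ε₂ : ℂ)) * he₂' -
        (κ * ((slope b₂).1 * (cv vh).1 + (slope b₂).2 * (cv vh).2)) * hε₂')
  have hm1' : κ * (cv vh).1 = m.1 := by rw [← hU1, hm1]
  have hm2' : κ * (cv vh).2 = m.2 := by rw [← hU2, hm2]
  have hm3' : ev (1 : (ZMod 2)ˣ) vh.1 = (m.1 : ZMod 2) := by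
    rw [← hm3, map_mul, hq1, one_mul]
  have hm4' : ev (1 : (ZMod 2)ˣ) vh.2 = (m.2 : ZMod 2) := by
    rw [← hm4, map_mul, map_mul, map_neg, ev1_T, neg_one_zmod, hq1, one_mul, one_mul]
  have hcop : IsCoprime m.1 m.2 := by
    rcases hε₁ with h | h
    · exact ⟨(slope b₁).1, (slope b₁).2, by rw [hm5, h]⟩
    · exact ⟨-(slope b₁).1, -(slope b₁).2, by linear_combination (-1 : ℤ) * hm5 - h⟩
  obtain ⟨g, hg⟩ := exists_word _ m le_rfl hcop
  have hgp : pz (tangleSlope g) = (ev (1 : (ZMod 2)ˣ) vh.1, ev (1 : (ZMod 2)ˣ) vh.2) := by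
    have : pz m = (ev (1 : (ZMod 2)ˣ) vh.1, ev (1 : (ZMod 2)ˣ) vh.2) := by
      rw [hm3', hm4']; rfl
    rcases hg with hg | hg <;> rw [hg]
    · exact this
    · rw [pz_neg]; exact this
  obtain ⟨o', ho1, _, ho3⟩ := exists_dirs g o (1, 0) hNC (by
    have : pz (g.foldl twist (1, 0)) = _ := hgp
    rw [this]; exact hT)
  have hpz : pz (1, 0) = (1, 0) := by simp [pz]
  rw [hpz] at ho3
  have ho' := tcomp_base o' ho3
  obtain ⟨vq, hvq⟩ : ∃ vq, g.foldl nact (e1 o') = (o, vq) := by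
    refine ⟨(g.foldl nact (e1 o')).2, ?_⟩
    have := foldl_nact_fst g (e1 o')
    have e : (e1 o').1 = o' := rfl
    rw [e, ho1] at this
    rw [← this]
  have hunk : ∀ b, (b.foldl swap3 o).1 ≠ (b.foldl swap3 o).2.1 → dist g b = 1 →
      clo (b.foldl nact (o, vq)).2 = 1 := by
    intro b h1 h2
    have h3 : (g ++ b).foldl nact (e1 o') = b.foldl nact (o, vq) := by
      rw [List.foldl_append, hvq]
    rw [← h3]
    apply unknotted_closure (g ++ b) o' ho'
    · rw [h3, foldl_nact_fst]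
      exact h1
    · have h4 : tangleSlope (g ++ b) = b.foldl twist (tangleSlope g) := by
        unfold tangleSlope
        rw [List.foldl_append]
      rw [h4, foldl_twist]
      exact h2
  have hdist : ∀ b (ε : ℤ), (ε = 1 ∨ ε = -1) → (slope b).1 * m.1 + (slope b).2 * m.2 = ε →
      dist g b = 1 := by
    intro b ε h1 h2
    unfold dist
    rcases hg with hg | hg <;> rw [hg]
    · rw [h2]; rcases h1 with rfl | rfl <;> rfl
    · have : (slope b).1 * (-m).1 + (slope b).2 * (-m).2 = -ε := by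
        rw [← h2, Prod.fst_neg, Prod.snd_neg]; ring
      rw [this]; rcases h1 with rfl | rfl <;> rfl
  have hq₁ := hunk b₁ (hb b₁ hk₁).1 (hdist b₁ ε₁ hε₁ hm5)
  have hq₂ := hunk b₂ (hb b₂ hk₂).1 (hdist b₂ ε₂ hε₂ hm6)
  -- the two linear equations
  rw [clo_lin] at hc₁ hc₂ hq₁ hq₂
  have hdet : clo (b₁.foldl nact (o, (1, 0))).2 * clo (b₂.foldl nact (o, (0, 1))).2 -
      clo (b₁.foldl nact (o, (0, 1))).2 * clo (b₂.foldl nact (o, (1, 0))).2 ≠ 0 := by
    intro h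
    have h' := congrArg (ev z8) h
    rw [map_sub, map_mul, map_mul, map_zero, he₁, he₁, he₂, he₂] at h'
    have e1 : cv ((1, 0) : LaurentPolynomial ℤ × LaurentPolynomial ℤ) = (1, 0) := by
      simp [cv]
    have e2 : cv ((0, 1) : LaurentPolynomial ℤ × LaurentPolynomial ℤ) = (0, -Complex.I) := by
      simp [cv]
    rw [e1, e2] at h'
    have h2 : ((ε₁ : ℂ) * ε₂ * κ ^ 2 * Complex.I) *
        (((slope b₁).1 * (slope b₂).2 - (slope b₁).2 * (slope b₂).1 : ℤ) : ℂ) = 0 := by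
      push_cast
      linear_combination -h'
    have hε₁0 : (ε₁ : ℂ) ≠ 0 := by intro h0; rw [h0] at hε₁'; simp at hε₁'
    have hε₂0 : (ε₂ : ℂ) ≠ 0 := by intro h0; rw [h0] at hε₂'; simp at hε₂'
    rcases mul_eq_zero.1 h2 with h3 | h3
    · exact (mul_ne_zero (mul_ne_zero (mul_ne_zero hε₁0 hε₂0) (pow_ne_zero 2 hκ0))
        Complex.I_ne_zero) h3
    · exact hD (by exact_mod_cast h3)
  have hvv : vh = vq := by
    apply Prod.ext
    · apply mul_left_cancel₀ hdet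
      linear_combination (clo (b₂.foldl nact (o, (0, 1))).2) * (hc₁ - hq₁) -
        (clo (b₁.foldl nact (o, (0, 1))).2) * (hc₂ - hq₂)
    · apply mul_left_cancel₀ hdet
      linear_combination (clo (b₁.foldl nact (o, (1, 0))).2) * (hc₂ - hq₂) -
        (clo (b₂.foldl nact (o, (1, 0))).2) * (hc₁ - hq₁)
  refine ⟨g, nrm (ssum o' g - writhe R), nrm_unit _, ?_, ?_⟩
  · intro b
    have h1 := foldl_nact g o' (1, 0) 1
    simp only [one_mul, mul_one, mul_zero] at h1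
    have h2 : g.foldl nact (o', (1, 0)) = (o, vq) := hvq
    rw [h2, Prod.mk.injEq] at h1
    have h3 := h1.2
    rw [← hvv, hvh, Prod.mk.injEq] at h3
    obtain ⟨h4, h5⟩ := h3
    have h6 : nrm (ssum o' g - writhe R) = nrm (-writhe R) * nrm (ssum o' g) := by
      rw [← nrm_add]; congr 1; ring
    have h7 := nrm_neg_mul (writhe R)
    have hx : x = nrm (ssum o' g - writhe R) * (g.foldl bact (1, 0)).1 := by
      rw [h6, mul_assoc, ← h4, ← mul_assoc, h7, one_mul]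
    have hy : y = nrm (ssum o' g - writhe R) * (g.foldl bact (1, 0)).2 := by
      rw [h6, mul_assoc, ← h5, ← mul_assoc, h7, one_mul]
    rw [hv.fill, (Vec.rational g).fill, hx, hy, clo_bact_smul]
  · intro b hb'
    rw [hF b]
    constructor
    · intro h1
      obtain ⟨ε, hε, he⟩ := ev_fill b o
      have h2 := he vh
      rw [h1, map_one] at h2
      have h3 : κ = (ε * (Complex.I * (if par o b then Complex.I else 1))) *
          (((slope b).1 * m.1 + (slope b).2 * m.2 : ℤ) : ℂ) := by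
        push_cast
        rw [← hm1', ← hm2']
        linear_combination κ * h2
      have h4 := congrArg norm h3
      rw [norm_mul, norm_mul] at h4
      have h5 : ∀ p : Bool, ‖Complex.I * (if p then Complex.I else 1)‖ = 1 := by
        intro p; cases p <;> simp
      have h6 : ‖(ε : ℂ)‖ = 1 := by rcases hε with h | h <;> rw [h] <;> simp
      rw [h5, h6, hκ, h5, one_mul, one_mul, Complex.norm_intCast] at h4
      have h7 : |(slope b).1 * m.1 + (slope b).2 * m.2| = 1 := by exact_mod_cast h4.symm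
      rcases abs_eq (zero_le_one) |>.1 h7 with h8 | h8
      · exact hdist b 1 (Or.inl rfl) h8
      · exact hdist b (-1) (Or.inr rfl) h8
    · intro h1
      rw [hvv]
      exact hunk b (hb b hb').1 h1

end Pool.Agent.Helper2
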