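import Pool.Agent.Helper2.Insert

/-!
# The value of a Whitehead double
-/

namespace Pool.Agent.Helper2

lemma sc_gCup (d : ℂ) (ψ : List Bool → ℂ) : sc 1 1 (gCup0 d ψ) = gCup0 d ψ := by
  funext l
  rcases l with _ | ⟨a, _ | ⟨t, _ | ⟨b, l⟩⟩⟩
  · simp [sc, gCup0]
  · simp [sc, gCup0]
  · simp [sc, gCup0]
  · simp [sc]

lemma UU_pInit (g d : ℂ) : UU g d pInit = pInit := by
  have h0 : ∀ l : List Bool, UU g d (fun _ => 0) l = 0 := by
    intro l
    have := (UU_lin g d).zero
    exact congrFun this l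
  funext l
  rcases l with _ | ⟨a, _ | ⟨t, _ | ⟨b, l⟩⟩⟩
  · simp [UU_short]
  · simp [UU_short]
  · simp [UU_short]
  · rw [UU_cons]
    have e : ∀ t, (fun l' : List Bool => pInit (a :: t :: l')) = fun _ => 0 := by
      intro t; funext l'; simp [pInit]
    rw [e, e, h0]
    simp [pInit]

lemma KP_start (d U V : ℂ) :
    KP 2 (sc U V (gCup0 d pInit)) (lift eCup0 0 eInit) (fun l => U * pCup0 d pInit l) V := by
  refine ⟨LB.first, ?_⟩
  intro l hl _
  rcases l with _ | ⟨a, _ | ⟨t, _ | ⟨b, _ | ⟨t', _ | ⟨c, _ | ⟨e, l⟩⟩⟩⟩⟩⟩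
  · simp at hl
  · simp at hl
  · simp at hl
  · simp at hl
  · simp at hl
  · simp only [sc, gCup0, ty, co, pCup0, pInit, cst, mono]
    cases a <;> cases t <;> cases b <;> cases t' <;> cases c <;> simp [wt]
  · simp at hl

variable (z : ℂˣ) (g d : ℂ) (hd : d * d = d + 1) (hg : g * g = d - 1)
    (hz : (z : ℂ) ^ 4 + (z : ℂ) ^ 3 + (z : ℂ) ^ 2 + z + 1 = 0)
    (hzd : d = -((z : ℂ) ^ 2 + (z : ℂ) ^ 3)) (hzi : ((z⁻¹ : ℂˣ) : ℂ) = (z : ℂ) ^ 4)

include hd hz hzd hzi in
lemma run_twists (p : Bool) (ψ : List Bool → ℂ) (k : ℕ) : ∀ α β : ℂ,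
    (pathOps z d).run (List.replicate k (.cross 0 p)) (UU g d (sc α β ψ)) =
      UU g d (sc ((cA z p) ^ k * α) ((-(cB z p) ^ 3) ^ k * β) ψ) := by
  induction k with
  | zero => intro α β; simp [Ops.run]
  | succ k ih =>
    intro α β
    rw [List.replicate_succ]
    have e : (pathOps z d).run (Slice.cross 0 p :: List.replicate k (.cross 0 p))
        (UU g d (sc α β ψ)) = (pathOps z d).run (List.replicate k (.cross 0 p))
          (pX0 z d p (UU g d (sc α β ψ))) := by
      simp only [Ops.run, Ops.act, pathOps, lift_zero']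
    rw [e, twist_base z g d hd hz hzd hzi, sc_sc, ih]
    congr 2 <;> ring

include hd hz hzd hzi in
lemma run_clasp (p : Bool) (ψ : List Bool → ℂ) :
    (pathOps z d).run (clasp p) (UU g d ψ) =
      UU g d (sc (1 - (cA z p) ^ 4) (-((cA z p) ^ 4 + (cB z p) ^ 4)) ψ) := by
  rw [← clasp_base z g d hd hz hzd hzi]
  simp only [clasp, Ops.run, Ops.act, pathOps, claspOp, lift_zero']

include hd hg hz hzd hzi in
/-- The value of the path model on a knot diagram with a scalar inserted in the doubled strand. -/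
lemma insert_value (w : List Slice) (hw : Ok w 2 0) (u a : Bool)
    (hk : curves (.cup 0 u :: w) = 1) (U V : ℂ) :
    (pathOps z d).run (w.flatMap Slice.double) (UU g d (sc U V (gCup0 d pInit))) [a] =
      V + (-1) ^ crossings (.cup 0 u :: w) * U * (pathOps z d).run (.cup 0 u :: w) pInit [a] := by
  rw [double_run z g d hd hg hz hzd hzi, UU_one]
  have hK := KP.run (z := z) (d := d) w 2 0 _ _ _ V hw (KP_start d U V)
  have hcnt : colOps.run w (lift eCup0 0 eInit) [] = 2 := by
    have := colour_curves (.cup 0 u :: w) ⟨le_refl 0, hw⟩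
    rw [hk] at this
    exact this
  have hv := hK.val [a] rfl (by
    simp only [ty]
    rw [hcnt]
    simp [lb, mono])
  rw [hv]
  have hl := (run_lin _ (pathOps_act_lin z d) w).smul (pCup0 d pInit) U
  have e1 : (pathOps z d).run (.cup 0 u :: w) pInit = (pathOps z d).run w (pCup0 d pInit) := by
    simp only [Ops.run, Ops.act, pathOps, lift_zero']
  simp only [ty, mono_nil, if_true, true_and, co]
  have hc : cst [a] := by cases a <;> simp [cst, mono]
  have e2 : crossings (.cup 0 u :: w) = crossings w := rfl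
  rw [if_pos hc, hl, e1, e2]
  ring

include hd hg hz hzd hzi in
lemma whitehead_value (D : List Slice) (hD : Ok D 0 0) (hk : curves D = 1) (p a : Bool) :
    (pathOps z d).run (whiteheadDouble p D) pInit [a] =
      -((cA z p) ^ 4 + (cB z p) ^ 4) *
        (-(cB z (decide (writhe D < 0))) ^ 3) ^ (2 * (writhe D).natAbs) +
      (-1) ^ crossings D * ((1 - (cA z p) ^ 4) *
        (cA z (decide (writhe D < 0))) ^ (2 * (writhe D).natAbs)) *
        (pathOps z d).run D pInit [a] := by
  have hne : D ≠ [] := by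
    rintro rfl
    simp [curves] at hk
  obtain ⟨u, w, rfl, hw⟩ := first_slice D 0 hD hne
  rw [whiteheadDouble, Ops.run_append, Ops.run_append, Ops.run_append]
  conv_lhs => rw [← UU_pInit g d]
  rw [double_act z g d hd hg hz hzd hzi]
  have e1 : (gOps z d).act (.cup 0 u) pInit = sc 1 1 (gCup0 d pInit) := by
    rw [sc_gCup]
    simp only [Ops.act, gOps, Nat.mul_zero, lift_zero']
  rw [e1, fullTwists, run_twists z g d hd hz hzd hzi, run_clasp z g d hd hz hzd hzi, sc_sc,
    insert_value z g d hd hg hz hzd hzi w hw u a hk]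
  ring

end Pool.Agent.Helper2
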