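import Pool.Agent.Helper2.ColDouble
import Pool.Agent.Helper2.Whitehead

/-!
# The f-polynomial of Whitehead doubles at fifth roots of unity
-/

namespace Pool.Agent.Helper2

open LaurentPolynomial

lemma sign_parity (w : List Slice) : ∀ (o o' : List Bool), dirsAbove w o = some o' →
    Even (signSum w o - crossings w) := by
  induction w with
  | nil => intro o o' _; simp [signSum, crossings]
  | cons s w ih =>
    intro o o' h
    simp only [dirsAbove] at h
    rcases hs : s.dirs o with _ | o₁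
    · rw [hs] at h; simp at h
    · rw [hs] at h
      simp only [Option.bind_some] at h
      have h1 := ih o₁ o' h
      simp only [signSum, hs, Option.getD_some]
      cases s with
      | cup i u => simpa [Slice.sign, crossings] using h1
      | cap i => simpa [Slice.sign, crossings] using h1
      | cross i p =>
        have e : crossings (Slice.cross i p :: w) = crossings w + 1 := rfl
        rw [e]
        simp only [Slice.dirs] at hs
        simp only [Slice.sign]
        rcases hd : o.drop i with _ | ⟨a, _ | ⟨b, r⟩⟩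
        · simp [hd] at hs
        · simp [hd] at hs
        · simp only
          push_cast
          split_ifs
          · have : (1 : ℤ) + signSum w o₁ - (crossings w + 1) = signSum w o₁ - crossings w := by
              ring
            rw [this]; exact h1
          · have : (-1 : ℤ) + signSum w o₁ - (crossings w + 1) =
              (signSum w o₁ - crossings w) - 2 := by ring
            rw [this]
            exact h1.sub (by decide)

lemma neg_one_pow_natAbs (n : ℤ) (m : ℕ) (h : Even (n - m)) :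
    ((-1 : ℂ)) ^ n.natAbs = (-1) ^ m := by
  have h1 : (n.natAbs : ℤ) = n ∨ (n.natAbs : ℤ) = -n := by omega
  obtain ⟨k, hk⟩ := h
  have h2 : n.natAbs % 2 = m % 2 := by omega
  rw [neg_one_pow_eq_pow_mod_two, h2, ← neg_one_pow_eq_pow_mod_two]

lemma eval_fPoly (z : ℂˣ) (D : List Slice) :
    evalAt z (fPoly D) = (-1) ^ (writhe D).natAbs * ((z ^ (-3 * writhe D) : ℂˣ) : ℂ) *
      evalAt z (bracket D) := by
  simp only [fPoly, map_mul, map_pow, map_neg, map_one]
  congr 2
  simp [evalAt, LaurentPolynomial.eval₂_T]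

lemma eval_loopVal (z : ℂˣ) (h5 : (z : ℂ) ^ 5 = 1) :
    evalAt z loopVal = -((z : ℂ) ^ 2 + (z : ℂ) ^ 3) := by
  have h : (z : ℂ) ≠ 0 := z.ne_zero
  simp only [loopVal, map_neg, map_add]
  simp only [evalAt, LaurentPolynomial.eval₂_T]
  have : ((z ^ (-2 : ℤ) : ℂˣ) : ℂ) = (z : ℂ) ^ 3 := by
    rw [zpow_neg]
    push_cast
    field_simp
    exact h5.symm
  have h2 : ((z ^ (2 : ℤ) : ℂˣ) : ℂ) = (z : ℂ) ^ 2 := by norm_cast
  rw [this, h2]

lemma cA_pow (z : ℂˣ) (w : ℤ) : (cA z (decide (w < 0))) ^ (2 * w.natAbs) =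
    ((z ^ (-2 * w) : ℂˣ) : ℂ) := by
  rcases lt_or_ge w 0 with hw | hw
  · rw [decide_eq_true hw]
    simp only [cA, if_true]
    have e : -2 * w = ((2 * w.natAbs : ℕ) : ℤ) := by omega
    rw [e, zpow_natCast]
    push_cast
    rfl
  · rw [decide_eq_false (not_lt.2 hw)]
    simp only [cA, Bool.false_eq_true, if_false]
    have e : -2 * w = -((2 * w.natAbs : ℕ) : ℤ) := by omega
    rw [e, zpow_neg, zpow_natCast, ← inv_pow]
    push_cast
    rfl

lemma cB_pow (z : ℂˣ) (w : ℤ) : (-(cB z (decide (w < 0))) ^ 3) ^ (2 * w.natAbs) =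
    ((z ^ (6 * w) : ℂˣ) : ℂ) := by
  have h1 : (-(cB z (decide (w < 0))) ^ 3) ^ (2 * w.natAbs) =
      (cB z (decide (w < 0))) ^ (6 * w.natAbs) := by
    rw [pow_mul, neg_sq, ← pow_mul, ← pow_mul]
    congr 1
    ring
  rw [h1]
  rcases lt_or_ge w 0 with hw | hw
  · rw [decide_eq_true hw]
    simp only [cB, if_true]
    have e : 6 * w = -((6 * w.natAbs : ℕ) : ℤ) := by omega
    rw [e, zpow_neg, zpow_natCast, ← inv_pow]
    push_cast
    rfl
  · rw [decide_eq_false (not_lt.2 hw)]
    simp only [cB, Bool.false_eq_true, if_false]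
    have e : 6 * w = ((6 * w.natAbs : ℕ) : ℤ) := by omega
    rw [e, zpow_natCast]
    push_cast
    rfl

/-- The factor by which an untwisted Whitehead double multiplies `f - 1`. -/
noncomputable def whFactor (z : ℂ) (p : Bool) : ℂ := if p then z ^ 4 - z ^ 3 else z - z ^ 2

theorem whitehead_main (z : ℂˣ) (hz : IsPrimitiveRoot (z : ℂ) 5) (D : List Slice)
    (hD : IsKnotDiagram D) (p : Bool) :
    IsKnotDiagram (whiteheadDouble p D) ∧
      evalAt z (fPoly (whiteheadDouble p D)) - 1 =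
        whFactor z p * (evalAt z (fPoly D) - 1) := by
  have h5 : (z : ℂ) ^ 5 = 1 := hz.pow_eq_one
  have hsum : (z : ℂ) ^ 4 + (z : ℂ) ^ 3 + (z : ℂ) ^ 2 + z + 1 = 0 := by
    have := hz.geom_sum_eq_zero (by norm_num)
    simp only [Finset.sum_range_succ, Finset.sum_range_zero] at this
    linear_combination this
  set d : ℂ := -((z : ℂ) ^ 2 + (z : ℂ) ^ 3) with hd_def
  have hd : d * d = d + 1 := by
    rw [hd_def]
    linear_combination ((z : ℂ) ^ 2 + z - 1) * hsum
  have hd0 : d ≠ 0 := by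
    intro h
    rw [h] at hd
    simp at hd
  have hzi : ((z⁻¹ : ℂˣ) : ℂ) = (z : ℂ) ^ 4 := by
    have h : (z : ℂ) ≠ 0 := z.ne_zero
    push_cast
    field_simp
    exact h5.symm
  obtain ⟨g, hg⟩ : ∃ g : ℂ, g * g = d - 1 := by
    obtain ⟨g, hg⟩ := IsAlgClosed.exists_pow_nat_eq (d - 1) (n := 2) (by norm_num)
    exact ⟨g, by rw [← hg]; ring⟩
  have hOk : Ok D 0 0 := ok_of_dirs D [] [] hD.1
  have hne : D ≠ [] := by
    rintro rfl
    have := hD.2
    simp [curves] at this
  obtain ⟨hW1, hW2⟩ := whitehead_dirs p D hOk hne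
  have hWOk : Ok (whiteheadDouble p D) 0 0 := ok_of_dirs _ [] [] hW1
  have hWc := whitehead_curves p D hOk hD.2 hWOk
  refine ⟨⟨hW1, hWc⟩, ?_⟩
  have hWne : whiteheadDouble p D ≠ [] := by
    intro h
    rw [h] at hWc
    simp [curves] at hWc
  have hv := whitehead_value z g d hd hg hsum hd_def hzi D hOk hD.2 p false
  have hbW := path_bracket z d hd (eval_loopVal z h5) (whiteheadDouble p D) hWOk hWne false
  have hbD := path_bracket z d hd (eval_loopVal z h5) D hOk hne false
  rw [hbW, hbD] at hv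
  rw [eval_fPoly, eval_fPoly, hW2]
  have hpar := neg_one_pow_natAbs (writhe D) (crossings D) (sign_parity D [] [] hD.1)
  have hparW : ((-1 : ℂ)) ^ (2 * writhe D + if p then 2 else -2).natAbs = 1 := by
    apply Even.neg_one_pow
    cases p
    · simp only [Bool.false_eq_true, if_false]
      exact Int.natAbs_even.2 ⟨writhe D - 1, by ring⟩
    · simp only [if_true]
      exact Int.natAbs_even.2 ⟨writhe D + 1, by ring⟩
  rw [cA_pow, cB_pow] at hv
  rw [hparW, hpar]
  have hz0 : (z : ℂ) ≠ 0 := z.ne_zero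
  have h5z : z ^ (5 : ℤ) = 1 := by
    ext
    push_cast
    exact_mod_cast h5
  have hsq : ((-1 : ℂ)) ^ crossings D * (-1) ^ crossings D = 1 := by
    rw [← mul_pow]; norm_num
  set B := evalAt z (bracket D) with hB
  set W := writhe D with hW
  set ε : ℂ := (-1) ^ crossings D with hε
  have key1 : ((z ^ (-3 * (2 * W + if p then 2 else -2)) : ℂˣ) : ℂ) =
      ((z ^ (-6 * W) : ℂˣ) : ℂ) * (if p then (z : ℂ) ^ 4 else z) := by
    cases p
    · simp only [Bool.false_eq_true, if_false]
      have : -3 * (2 * W + -2) = -6 * W + (5 : ℤ) + 1 := by ring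
      rw [this, zpow_add, zpow_add, h5z, zpow_one]
      push_cast
      ring
    · simp only [if_true]
      have : -3 * (2 * W + 2) = -6 * W + (5 : ℤ) * (-2) + 4 := by ring
      rw [this, zpow_add, zpow_add, zpow_mul z 5 (-2), h5z]
      push_cast
      simp
  have key2 : ((z ^ (-6 * W) : ℂˣ) : ℂ) * ((z ^ (6 * W) : ℂˣ) : ℂ) = 1 := by
    rw [← Units.val_mul, ← zpow_add]
    have : -6 * W + 6 * W = 0 := by ring
    rw [this]; simp
  have key3 : ((z ^ (-6 * W) : ℂˣ) : ℂ) * ((z ^ (-2 * W) : ℂˣ) : ℂ) =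
      ((z ^ (-3 * W) : ℂˣ) : ℂ) := by
    rw [← Units.val_mul, ← zpow_add]
    have : -6 * W + -2 * W = 5 * (-W) + -3 * W := by ring
    rw [this, zpow_add, zpow_mul, h5z]
    simp
  rw [key1]
  apply mul_right_cancel₀ hd0
  generalize ((z ^ (-6 * W) : ℂˣ) : ℂ) = x at *
  generalize ((z ^ (6 * W) : ℂˣ) : ℂ) = y at *
  generalize ((z ^ (-2 * W) : ℂˣ) : ℂ) = s at *
  generalize ((z ^ (-3 * W) : ℂˣ) : ℂ) = t at *
  generalize evalAt z (bracket (whiteheadDouble p D)) = Bw at *
  cases p
  · simp only [cA, cB, whFactor, Bool.false_eq_true, if_false, hzi] at hv ⊢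
    linear_combination (x * z) * hv + (-z * (((z : ℂ) ^ 4) ^ 4 + (z : ℂ) ^ 4)) * key2 +
      (z * ε * (1 - ((z : ℂ) ^ 4) ^ 4) * d * B) * key3 +
      (((z : ℂ) ^ 10 + (z : ℂ) ^ 5 + 1) * (-(z : ℂ) ^ 2 + B * t * ε * (z : ℂ) ^ 4 * (1 + z))) * h5
  · simp only [cA, cB, whFactor, if_true, hzi] at hv ⊢
    linear_combination (x * z ^ 4) * hv + (-(z : ℂ) ^ 4 * (((z : ℂ) ^ 4) ^ 4 + (z : ℂ) ^ 4)) * key2 +
      ((z : ℂ) ^ 4 * ε * (1 - (z : ℂ) ^ 4) * d * B) * key3 +
      (-(z : ℂ) ^ 2 - (z : ℂ) ^ 3 - (z : ℂ) ^ 5 * ((z : ℂ) ^ 10 + (z : ℂ) ^ 5 + 1) +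
        B * t * ε * ((z : ℂ) ^ 5 + (z : ℂ) ^ 6)) * h5

lemma whFactor_ne (z : ℂ) (hz : IsPrimitiveRoot z 5) (p : Bool) : whFactor z p ≠ 0 := by
  have h1 : z ≠ 1 := hz.ne_one (by norm_num)
  have h0 : z ≠ 0 := hz.ne_zero (by norm_num)
  cases p
  · simp only [whFactor, Bool.false_eq_true, if_false]
    intro h
    have : z * (1 - z) = 0 := by linear_combination h
    rcases mul_eq_zero.1 this with h2 | h2
    · exact h0 h2
    · exact h1 (by linear_combination -h2)
  · simp only [whFactor, if_true]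
    intro h
    have : z ^ 3 * (z - 1) = 0 := by linear_combination h
    rcases mul_eq_zero.1 this with h2 | h2
    · exact h0 (by simpa using h2)
    · exact h1 (by linear_combination h2)

theorem iterated_main (z : ℂˣ) (hz : IsPrimitiveRoot (z : ℂ) 5) (D : List Slice)
    (hD : IsKnotDiagram D) (ps : List Bool) :
    IsKnotDiagram (iteratedDouble ps D) ∧
      evalAt z (fPoly (iteratedDouble ps D)) - 1 =
        (ps.map (whFactor z)).prod * (evalAt z (fPoly D) - 1) := by
  induction ps with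
  | nil => simpa [iteratedDouble] using hD
  | cons p ps ih =>
    obtain ⟨h1, h2⟩ := ih
    obtain ⟨h3, h4⟩ := whitehead_main z hz (iteratedDouble ps D) h1 p
    refine ⟨h3, ?_⟩
    rw [iteratedDouble, h4, h2, List.map_cons, List.prod_cons]
    ring

theorem iterated_nontrivial (z : ℂˣ) (hz : IsPrimitiveRoot (z : ℂ) 5) (D : List Slice)
    (hD : IsKnotDiagram D) (h : evalAt z (fPoly D) ≠ 1) (ps : List Bool) :
    IsKnotDiagram (iteratedDouble ps D) ∧ evalAt z (fPoly (iteratedDouble ps D)) ≠ 1 ∧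
      fPoly (iteratedDouble ps D) ≠ 1 := by
  obtain ⟨h1, h2⟩ := iterated_main z hz D hD ps
  have h3 : evalAt z (fPoly (iteratedDouble ps D)) ≠ 1 := by
    intro h4
    rw [h4, sub_self] at h2
    rcases mul_eq_zero.1 h2.symm with h5 | h5
    · rw [List.prod_eq_zero_iff, List.mem_map] at h5
      obtain ⟨p, _, hp⟩ := h5
      exact whFactor_ne z hz p hp
    · exact h (by linear_combination h5)
  refine ⟨h1, h3, ?_⟩
  intro h4
  rw [h4] at h3
  exact h3 (map_one _)

end Pool.Agent.Helper2
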