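import Pool.Agent.Helper2.Knot

/-!
# Twists and clasps in a doubled strand
-/

namespace Pool.Agent.Helper2

/-- Multiply by a scalar depending on the type of the first doubled strand. -/
noncomputable def sc (α β : ℂ) (ψ : List Bool → ℂ) : List Bool → ℂ
  | a :: t :: b :: l => (if t then α else β) * ψ (a :: t :: b :: l)
  | _ => 0

/-- The part of the change of basis beyond the first doubled strand. -/
noncomputable def UU1 (g d : ℂ) (ψ : List Bool → ℂ) : List Bool → ℂ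
  | a :: t :: b :: l => UU g d (fun l' => ψ (a :: t :: l')) (b :: l)
  | _ => 0

lemma UU_eq1 (g d : ℂ) (ψ : List Bool → ℂ) (a m b : Bool) (l : List Bool) :
    UU g d ψ (a :: m :: b :: l) = u0 g d (UU1 g d ψ) (a :: m :: b :: l) := by
  rw [UU_cons]
  simp only [u0, UU1]

lemma UU1_sc (g d α β : ℂ) (ψ : List Bool → ℂ) :
    UU1 g d (sc α β ψ) = sc α β (UU1 g d ψ) := by
  funext l
  rcases l with _ | ⟨a, _ | ⟨t, _ | ⟨b, l⟩⟩⟩
  · simp [UU1, sc]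
  · simp [UU1, sc]
  · simp [UU1, sc]
  · simp only [UU1, sc]
    exact (UU_hl g d).smul b _ _ _ (fun l' => rfl) l

lemma sc_sc (α β α' β' : ℂ) (ψ : List Bool → ℂ) :
    sc α β (sc α' β' ψ) = sc (α * α') (β * β') ψ := by
  funext l
  rcases l with _ | ⟨a, _ | ⟨t, _ | ⟨b, l⟩⟩⟩
  · simp [sc]
  · simp [sc]
  · simp [sc]
  · cases t <;> simp [sc] <;> ring

lemma twist_base (z : ℂˣ) (g d : ℂ) (hd : d * d = d + 1)
    (hz : (z : ℂ) ^ 4 + (z : ℂ) ^ 3 + (z : ℂ) ^ 2 + z + 1 = 0)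
    (hzd : d = -((z : ℂ) ^ 2 + (z : ℂ) ^ 3)) (hzi : ((z⁻¹ : ℂˣ) : ℂ) = (z : ℂ) ^ 4) (p : Bool)
    (ψ : List Bool → ℂ) :
    pX0 z d p (UU g d ψ) = UU g d (sc (cA z p) (-(cB z p) ^ 3) ψ) := by
  have hzi' : ((z : ℂ))⁻¹ = (z : ℂ) ^ 4 := by rw [← hzi]; simp
  funext l
  rcases l with _ | ⟨a, _ | ⟨m, _ | ⟨b, l⟩⟩⟩
  · simp [pX0, UU_short, sc]
  · simp [pX0, UU_short, sc]
  · simp [pX0, UU_short, sc]
  · rw [UU_eq1, UU1_sc]
    simp only [pX0, pCup0, pCap0, UU_eq1, u0, sc]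
    cases p <;> cases a <;> cases m <;> cases b <;>
      simp [uc, wt, wti, cA, cB, hzi'] <;> grind

/-- The operator of a clasp. -/
noncomputable def claspOp (z : ℂˣ) (d : ℂ) (p : Bool) (ψ : List Bool → ℂ) : List Bool → ℂ :=
  lift (pCap0 d) 1 (lift (pX0 z d p) 2 (pX0 z d p (lift (pCup0 d) 1 ψ)))

lemma clasp_base (z : ℂˣ) (g d : ℂ) (hd : d * d = d + 1)
    (hz : (z : ℂ) ^ 4 + (z : ℂ) ^ 3 + (z : ℂ) ^ 2 + z + 1 = 0)
    (hzd : d = -((z : ℂ) ^ 2 + (z : ℂ) ^ 3)) (hzi : ((z⁻¹ : ℂˣ) : ℂ) = (z : ℂ) ^ 4) (p : Bool)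
    (ψ : List Bool → ℂ) :
    claspOp z d p (UU g d ψ) =
      UU g d (sc (1 - (cA z p) ^ 4) (-((cA z p) ^ 4 + (cB z p) ^ 4)) ψ) := by
  have hzi' : ((z : ℂ))⁻¹ = (z : ℂ) ^ 4 := by rw [← hzi]; simp
  funext l
  rcases l with _ | ⟨a, _ | ⟨m, _ | ⟨b, l⟩⟩⟩
  · simp [claspOp, UU_short, sc]
  · simp [claspOp, pCap0, UU_short, sc]
  · simp [claspOp, pX0, pCap0, UU_short, sc]
  · rw [UU_eq1, UU1_sc]
    simp only [claspOp, lift_succ_cons, lift_zero, pX0, pCup0, pCap0, UU_eq1, u0, sc]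
    cases p <;> cases a <;> cases m <;> cases b <;>
      simp [uc, wt, wti, cA, cB, hzi'] <;> grind

end Pool.Agent.Helper2
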