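import Pool.Agent.Helper2.Models

/-!
# The path model and the two-colouring model
-/

namespace Pool.Agent.Helper2

section lin

variable {α R : Type} [CommRing R]

/-- The linear map given by a linear operator at position `i`. -/
def liftL (T : (List α → R) → List α → R) (h : Lin2 T) (i : ℕ) :
    (List α → R) →ₗ[R] (List α → R) where
  toFun := lift T i
  map_add' φ ψ := (h.lift i).add φ ψ
  map_smul' c φ := (h.lift i).smul φ c

@[simp] lemma liftL_apply (T : (List α → R) → List α → R) (h : Lin2 T) (i : ℕ) (ψ : List α → R) :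
    liftL T h i ψ = lift T i ψ := rfl

lemma split_list (l : List α) (i : ℕ) (h : i ≤ l.length) : ∃ p r, l = p ++ r ∧ p.length = i :=
  ⟨l.take i, l.drop i, (List.take_append_drop i l).symm, by simpa using h⟩

end lin

/-! ## The path model -/

section path

variable {R : Type} [CommRing R] (d : R)

/-- Weights of the two colours. -/
def wt (d : R) (b : Bool) : R := if b then d else 1

/-- Inverse weights of the two colours (if `d (d-1) = 1`). -/
def wti (d : R) (b : Bool) : R := if b then d - 1 else 1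

/-- The cup of the path model. -/
def pCup0 (ψ : List Bool → R) : List Bool → R
  | a :: b :: c :: l => if c = a ∧ (a || b) = true then wt d b * ψ (a :: l) else 0
  | _ => 0

/-- The cap of the path model. -/
def pCap0 (ψ : List Bool → R) : List Bool → R
  | a :: l => wti d a * (ψ (a :: true :: a :: l) + if a then ψ (a :: false :: a :: l) else 0)
  | _ => 0

lemma pCup0_lin : Lin2 (pCup0 d) := by
  intro φ₁ φ₂ c₁ c₂
  funext l
  rcases l with _ | ⟨a, _ | ⟨b, _ | ⟨c, l⟩⟩⟩ <;> simp [pCup0]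
  split_ifs <;> ring

lemma pCap0_lin : Lin2 (pCap0 d) := by
  intro φ₁ φ₂ c₁ c₂
  funext l
  rcases l with _ | ⟨a, l⟩ <;> simp [pCap0]
  split_ifs <;> ring

lemma pCup0_hl : HL2 (pCup0 d) := by
  intro a φ φ₁ φ₂ c₁ c₂ H l
  rcases l with _ | ⟨b, _ | ⟨c, l⟩⟩ <;> simp [pCup0]
  rw [H]
  split_ifs <;> ring

lemma pCap0_hl : HL2 (pCap0 d) := by
  intro a φ φ₁ φ₂ c₁ c₂ H l
  simp only [pCap0]
  rw [H, H]
  split_ifs <;> ring

/-- Legal paths. -/
def legal : List Bool → Prop
  | a :: b :: l => (a || b) = true ∧ legal (b :: l)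
  | _ => True

lemma legal_append (p : List Bool) (a : Bool) (r : List Bool) :
    legal (p ++ a :: r) ↔ legal (p ++ [a]) ∧ legal (a :: r) := by
  induction p with
  | nil => simp [legal]
  | cons x p ih =>
    cases p with
    | nil => simp [legal]
    | cons y p =>
      simp only [List.cons_append, legal] at ih ⊢
      rw [ih, and_assoc]

lemma legal_right (p r : List Bool) (h : legal (p ++ r)) : legal r := by
  cases r with
  | nil => simp [legal]
  | cons a r => exact ((legal_append p a r).1 h).2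

/-- States of `n` strands in the path model: supported on legal paths with `n` steps. -/
def PSupp (n : ℕ) (ψ : List Bool → R) : Prop := ∀ l, ψ l ≠ 0 → l.length = n + 1 ∧ legal l

lemma PSupp.ext {n : ℕ} {φ ψ : List Bool → R} (h : PSupp n φ) (h' : PSupp n ψ)
    (H : ∀ l, l.length = n + 1 → legal l → φ l = ψ l) : φ = ψ := by
  funext l
  by_cases h1 : l.length = n + 1 ∧ legal l
  · exact H l h1.1 h1.2
  · have h2 : φ l = 0 := by
      by_contra hne
      exact h1 (h l hne)
    have h3 : ψ l = 0 := by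
      by_contra hne
      exact h1 (h' l hne)
    rw [h2, h3]

lemma pCup_supp (n i : ℕ) (ψ : List Bool → R) (hi : i ≤ n) (h : PSupp n ψ) :
    PSupp (n + 2) (lift (pCup0 d) i ψ) := by
  intro l hl
  by_cases hlen : l.length < i
  · exact absurd (lift_short _ _ _ _ hlen) hl
  obtain ⟨p, r, rfl, rfl⟩ := split_list l i (by omega)
  rw [lift_append] at hl
  rcases r with _ | ⟨a, _ | ⟨b, _ | ⟨c, r⟩⟩⟩ <;> simp only [pCup0] at hl
  · exact absurd rfl hl
  · exact absurd rfl hl
  · exact absurd rfl hl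
  · split_ifs at hl with h1
    · obtain ⟨rfl, h2⟩ := h1
      have h3 := h _ (right_ne_zero_of_mul hl)
      refine ⟨by simp at h3 ⊢; omega, ?_⟩
      rw [legal_append] at h3 ⊢
      refine ⟨h3.2.1, ?_⟩
      simp only [legal]
      exact ⟨h2, by rw [Bool.or_comm]; exact h2, h3.2.2⟩
    · exact absurd rfl hl

lemma pCap_supp (n i : ℕ) (ψ : List Bool → R) (hi : i ≤ n) (h : PSupp (n + 2) ψ) :
    PSupp n (lift (pCap0 d) i ψ) := by
  intro l hl
  by_cases hlen : l.length < i
  · exact absurd (lift_short _ _ _ _ hlen) hl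
  obtain ⟨p, r, rfl, rfl⟩ := split_list l i (by omega)
  rw [lift_append] at hl
  rcases r with _ | ⟨a, r⟩ <;> simp only [pCap0] at hl
  · exact absurd rfl hl
  · have key : ∃ b : Bool, ψ (p ++ a :: b :: a :: r) ≠ 0 := by
      by_contra hcon
      push Not at hcon
      apply hl
      rw [hcon, hcon]
      simp
    obtain ⟨b, hb⟩ := key
    have h3 := h _ hb
    refine ⟨by simp at h3 ⊢; omega, ?_⟩
    rw [legal_append] at h3 ⊢
    exact ⟨h3.2.1, h3.2.2.2.2⟩

variable {d} (hd : d * d = d + 1)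

include hd

lemma wti_wt (a : Bool) : wti d a * wt d a = 1 := by
  cases a <;> simp [wti, wt]
  linear_combination hd

lemma p_rel1 (n i : ℕ) (ψ : List Bool → R) (h : PSupp n ψ) (hi : i ≤ n) :
    lift (pCap0 d) i (lift (pCup0 d) i ψ) = d • ψ := by
  refine PSupp.ext (n := n) (pCap_supp d _ _ _ hi (pCup_supp d _ _ _ hi h)) ?_ ?_
  · intro l hl
    apply h
    intro h0
    simp [h0] at hl
  intro l hl hleg
  obtain ⟨p, r, rfl, rfl⟩ := split_list l i (by omega)
  have := lift_comp_append (pCap0 d) (pCup0 d) p 0 0 ψ r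
  simp only [Nat.add_zero, lift_zero, lift_zero'] at this
  rw [this]
  rcases r with _ | ⟨a, r⟩
  · simp at hl; omega
  · cases a <;> simp [pCap0, pCup0, wti, wt]
    linear_combination (ψ (p ++ true :: r)) * hd

lemma p_rel2 (n i : ℕ) (ψ : List Bool → R) (h : PSupp n ψ) (hi : i + 1 ≤ n) :
    lift (pCap0 d) (i + 1) (lift (pCup0 d) i ψ) = ψ := by
  refine PSupp.ext (n := n) (pCap_supp d _ _ _ hi (pCup_supp d _ _ _ (by omega) h)) h ?_
  intro l hl hleg
  obtain ⟨p, r, rfl, rfl⟩ := split_list l i (by omega)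
  have := lift_comp_append (pCap0 d) (pCup0 d) p 1 0 ψ r
  simp only [Nat.add_zero, lift_zero'] at this
  rw [this]
  rcases r with _ | ⟨a, _ | ⟨b, r⟩⟩
  · simp at hl; omega
  · simp at hl; omega
  · have hab := (legal_right _ _ hleg).1
    cases a <;> cases b <;> simp [pCap0, pCup0, wti, wt] at hab ⊢
    · linear_combination (ψ (p ++ false :: true :: r)) * hd
    · linear_combination (ψ (p ++ true :: true :: r)) * hd

lemma p_rel3 (n i : ℕ) (ψ : List Bool → R) (h : PSupp n ψ) (hi : i + 1 ≤ n) :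
    lift (pCap0 d) i (lift (pCup0 d) (i + 1) ψ) = ψ := by
  refine PSupp.ext (n := n) (pCap_supp d _ _ _ (by omega) (pCup_supp d _ _ _ hi h)) h ?_
  intro l hl hleg
  obtain ⟨p, r, rfl, rfl⟩ := split_list l i (by omega)
  have := lift_comp_append (pCap0 d) (pCup0 d) p 0 1 ψ r
  simp only [Nat.add_zero, lift_zero] at this
  rw [this]
  rcases r with _ | ⟨a, _ | ⟨b, r⟩⟩
  · simp at hl; omega
  · simp at hl; omega
  · have hab := (legal_right _ _ hleg).1
    cases a <;> cases b <;> simp [pCap0, pCup0, wti, wt] at hab ⊢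
    · linear_combination (ψ (p ++ true :: false :: r)) * hd
    · linear_combination (ψ (p ++ true :: true :: r)) * hd

omit hd

lemma p_rel4 (n i k : ℕ) (ψ : List Bool → R) (h : PSupp n ψ) (hi : i + k + 2 ≤ n) :
    lift (pCap0 d) (i + k + 2) (lift (pCup0 d) i ψ) =
      lift (pCup0 d) i (lift (pCap0 d) (i + k) ψ) := by
  obtain ⟨m, rfl⟩ : ∃ m, n = m + 2 := ⟨n - 2, by omega⟩
  refine PSupp.ext (n := m + 2) (pCap_supp d _ _ _ (by omega) (pCup_supp d _ _ _ (by omega) h))
    (pCup_supp d _ _ _ (by omega) (pCap_supp d _ _ _ (by omega) h)) ?_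
  intro l hl hleg
  obtain ⟨p, r, rfl, rfl⟩ := split_list l i (by omega)
  have h1 := lift_comp_append (pCap0 d) (pCup0 d) p (k + 2) 0 ψ r
  have h2 := lift_comp_append (pCup0 d) (pCap0 d) p 0 k ψ r
  rw [← Nat.add_assoc] at h1
  simp only [Nat.add_zero, lift_zero, lift_zero'] at h1 h2
  rw [h1, h2]
  rcases r with _ | ⟨a, _ | ⟨b, _ | ⟨c, r⟩⟩⟩
  · simp at hl; omega
  · simp at hl; omega
  · simp at hl; omega
  · simp only [lift_succ_cons, pCup0]
    by_cases hc : c = a ∧ (a || b) = true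
    · rw [if_pos hc]
      obtain ⟨rfl, hab⟩ := hc
      refine HL2.smul ((pCap0_hl d).lift (pCap0_lin d) k) c _ _ _ ?_ r
      intro l
      simp [hab]
    · rw [if_neg hc]
      have := HL2.smul ((pCap0_hl d).lift (pCap0_lin d) k) c
        (fun l' => pCup0 d (fun l' => ψ (p ++ l')) (a :: b :: l')) (fun _ => 0) 0 (by
          intro l; simp only [pCup0, if_neg hc, zero_mul]) r
      simp only [pCup0] at this
      rw [this, zero_mul]

lemma p_rel5 (n i k : ℕ) (ψ : List Bool → R) (h : PSupp n ψ) (hi : i + k + 2 ≤ n) :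
    lift (pCap0 d) i (lift (pCup0 d) (i + k + 2) ψ) =
      lift (pCup0 d) (i + k) (lift (pCap0 d) i ψ) := by
  obtain ⟨m, rfl⟩ : ∃ m, n = m + 2 := ⟨n - 2, by omega⟩
  refine PSupp.ext (n := m + 2) (pCap_supp d _ _ _ (by omega) (pCup_supp d _ _ _ (by omega) h))
    (pCup_supp d _ _ _ (by omega) (pCap_supp d _ _ _ (by omega) h)) ?_
  intro l hl hleg
  obtain ⟨p, r, rfl, rfl⟩ := split_list l i (by omega)
  have h1 := lift_comp_append (pCap0 d) (pCup0 d) p 0 (k + 2) ψ r
  have h2 := lift_comp_append (pCup0 d) (pCap0 d) p k 0 ψ r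
  rw [← Nat.add_assoc] at h1
  simp only [Nat.add_zero, lift_zero, lift_zero'] at h1 h2
  rw [h1, h2]
  rcases r with _ | ⟨a, r⟩
  · simp at hl; omega
  · set φ := fun l' => ψ (p ++ l') with hφ
    have key := (pCup0_hl d).lift (pCup0_lin d) k a (pCap0 d φ)
      (fun l' => φ (a :: true :: l')) (fun l' => φ (a :: false :: l')) (wti d a)
      (if a then wti d a else 0) (by
        intro l
        simp only [pCap0]
        split_ifs <;> ring) r
    rw [key]
    simp only [pCap0, lift_succ_cons]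
    split_ifs <;> ring

/-- The path model. -/
noncomputable def pathModel (d : R) (hd : d * d = d + 1) : Model R (List Bool → R) where
  Supp := PSupp
  δ := d
  init := fun l => if l.length = 1 then 1 else 0
  cup := liftL (pCup0 d) (pCup0_lin d)
  cap := liftL (pCap0 d) (pCap0_lin d)
  supp_init := by
    intro l hl
    by_cases h : l.length = 1
    · obtain ⟨a, rfl⟩ := List.length_eq_one_iff.1 h
      simp [legal]
    · simp [h] at hl
  supp_cup := fun n i ψ hi h => pCup_supp d n i ψ hi h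
  supp_cap := fun n i ψ hi h => pCap_supp d n i ψ hi h
  rel1 := p_rel1 hd
  rel2 := p_rel2 hd
  rel3 := p_rel3 hd
  rel4 := p_rel4
  rel5 := p_rel5

end path

/-! ## The two-colouring model -/

section colouring

/-- The cup of the two-colouring model. -/
def eCup0 (ψ : List Bool → ℤ) : List Bool → ℤ
  | x :: y :: l => if x = y then ψ l else 0
  | _ => 0

/-- The cap of the two-colouring model. -/
def eCap0 (ψ : List Bool → ℤ) (l : List Bool) : ℤ := ψ (true :: true :: l) + ψ (false :: false :: l)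

lemma eCup0_lin : Lin2 eCup0 := by
  intro φ₁ φ₂ c₁ c₂
  funext l
  rcases l with _ | ⟨a, _ | ⟨b, l⟩⟩ <;> simp [eCup0]
  split_ifs <;> ring

lemma eCap0_lin : Lin2 eCap0 := by
  intro φ₁ φ₂ c₁ c₂
  funext l
  simp only [eCap0]
  ring

/-- States of `n` strands in the two-colouring model. -/
def ESupp (n : ℕ) (ψ : List Bool → ℤ) : Prop := ∀ l, ψ l ≠ 0 → l.length = n

lemma ESupp.ext {n : ℕ} {φ ψ : List Bool → ℤ} (h : ESupp n φ) (h' : ESupp n ψ)
    (H : ∀ l, l.length = n → φ l = ψ l) : φ = ψ := by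
  funext l
  by_cases h1 : l.length = n
  · exact H l h1
  · have h2 : φ l = 0 := by
      by_contra hne
      exact h1 (h l hne)
    have h3 : ψ l = 0 := by
      by_contra hne
      exact h1 (h' l hne)
    rw [h2, h3]

lemma eCup_supp (n i : ℕ) (ψ : List Bool → ℤ) (_ : i ≤ n) (h : ESupp n ψ) :
    ESupp (n + 2) (lift eCup0 i ψ) := by
  intro l hl
  by_cases hlen : l.length < i
  · exact absurd (lift_short _ _ _ _ hlen) hl
  obtain ⟨p, r, rfl, rfl⟩ := split_list l i (by omega)
  rw [lift_append] at hl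
  rcases r with _ | ⟨a, _ | ⟨b, r⟩⟩ <;> simp only [eCup0] at hl
  · exact absurd rfl hl
  · exact absurd rfl hl
  · split_ifs at hl with h1
    · have h3 := h _ hl
      simp at h3 ⊢; omega
    · exact absurd rfl hl

lemma eCap_supp (n i : ℕ) (ψ : List Bool → ℤ) (_ : i ≤ n) (h : ESupp (n + 2) ψ) :
    ESupp n (lift eCap0 i ψ) := by
  intro l hl
  by_cases hlen : l.length < i
  · exact absurd (lift_short _ _ _ _ hlen) hl
  obtain ⟨p, r, rfl, rfl⟩ := split_list l i (by omega)
  rw [lift_append] at hl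
  simp only [eCap0] at hl
  have key : ∃ b : Bool, ψ (p ++ b :: b :: r) ≠ 0 := by
    by_contra hcon
    push Not at hcon
    apply hl
    rw [hcon, hcon]
    simp
  obtain ⟨b, hb⟩ := key
  have h3 := h _ hb
  simp at h3 ⊢; omega

lemma e_rel1 (n i : ℕ) (ψ : List Bool → ℤ) (h : ESupp n ψ) (hi : i ≤ n) :
    lift eCap0 i (lift eCup0 i ψ) = (2 : ℤ) • ψ := by
  refine ESupp.ext (n := n) (eCap_supp _ _ _ hi (eCup_supp _ _ _ hi h)) ?_ ?_
  · intro l hl
    apply h
    intro h0
    simp [h0] at hl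
  intro l hl
  obtain ⟨p, r, rfl, rfl⟩ := split_list l i (by omega)
  have := lift_comp_append eCap0 eCup0 p 0 0 ψ r
  simp only [Nat.add_zero, lift_zero, lift_zero'] at this
  rw [this]
  simp [eCap0, eCup0]
  ring

lemma e_rel2 (n i : ℕ) (ψ : List Bool → ℤ) (h : ESupp n ψ) (hi : i + 1 ≤ n) :
    lift eCap0 (i + 1) (lift eCup0 i ψ) = ψ := by
  refine ESupp.ext (n := n) (eCap_supp _ _ _ hi (eCup_supp _ _ _ (by omega) h)) h ?_
  intro l hl
  obtain ⟨p, r, rfl, rfl⟩ := split_list l i (by omega)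
  have := lift_comp_append eCap0 eCup0 p 1 0 ψ r
  simp only [Nat.add_zero, lift_zero'] at this
  rw [this]
  rcases r with _ | ⟨a, r⟩
  · simp at hl; omega
  · cases a <;> simp [eCap0, eCup0]

lemma e_rel3 (n i : ℕ) (ψ : List Bool → ℤ) (h : ESupp n ψ) (hi : i + 1 ≤ n) :
    lift eCap0 i (lift eCup0 (i + 1) ψ) = ψ := by
  refine ESupp.ext (n := n) (eCap_supp _ _ _ (by omega) (eCup_supp _ _ _ hi h)) h ?_
  intro l hl
  obtain ⟨p, r, rfl, rfl⟩ := split_list l i (by omega)
  have := lift_comp_append eCap0 eCup0 p 0 1 ψ r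
  simp only [Nat.add_zero, lift_zero] at this
  rw [this]
  rcases r with _ | ⟨a, r⟩
  · simp at hl; omega
  · cases a <;> simp [eCap0, eCup0]

lemma e_rel4 (n i k : ℕ) (ψ : List Bool → ℤ) (h : ESupp n ψ) (hi : i + k + 2 ≤ n) :
    lift eCap0 (i + k + 2) (lift eCup0 i ψ) = lift eCup0 i (lift eCap0 (i + k) ψ) := by
  obtain ⟨m, rfl⟩ : ∃ m, n = m + 2 := ⟨n - 2, by omega⟩
  refine ESupp.ext (n := m + 2) (eCap_supp _ _ _ (by omega) (eCup_supp _ _ _ (by omega) h))
    (eCup_supp _ _ _ (by omega) (eCap_supp _ _ _ (by omega) h)) ?_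
  intro l hl
  obtain ⟨p, r, rfl, rfl⟩ := split_list l i (by omega)
  have h1 := lift_comp_append eCap0 eCup0 p (k + 2) 0 ψ r
  have h2 := lift_comp_append eCup0 eCap0 p 0 k ψ r
  rw [← Nat.add_assoc] at h1
  simp only [Nat.add_zero, lift_zero, lift_zero'] at h1 h2
  rw [h1, h2]
  rcases r with _ | ⟨a, _ | ⟨b, r⟩⟩
  · simp at hl; omega
  · simp at hl; omega
  · simp only [lift_succ_cons, eCup0]
    split_ifs with hab
    · rfl
    · exact congrFun ((eCap0_lin.lift k).zero) r

lemma e_rel5 (n i k : ℕ) (ψ : List Bool → ℤ) (h : ESupp n ψ) (hi : i + k + 2 ≤ n) :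
    lift eCap0 i (lift eCup0 (i + k + 2) ψ) = lift eCup0 (i + k) (lift eCap0 i ψ) := by
  obtain ⟨m, rfl⟩ : ∃ m, n = m + 2 := ⟨n - 2, by omega⟩
  refine ESupp.ext (n := m + 2) (eCap_supp _ _ _ (by omega) (eCup_supp _ _ _ (by omega) h))
    (eCup_supp _ _ _ (by omega) (eCap_supp _ _ _ (by omega) h)) ?_
  intro l hl
  obtain ⟨p, r, rfl, rfl⟩ := split_list l i (by omega)
  have h1 := lift_comp_append eCap0 eCup0 p 0 (k + 2) ψ r
  have h2 := lift_comp_append eCup0 eCap0 p k 0 ψ r
  rw [← Nat.add_assoc] at h1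
  simp only [Nat.add_zero, lift_zero, lift_zero'] at h1 h2
  rw [h1, h2]
  set φ := fun l' => ψ (p ++ l') with hφ
  have key := congrFun ((eCup0_lin.lift k).add (fun l' => φ (true :: true :: l'))
    (fun l' => φ (false :: false :: l'))) r
  have e : eCap0 φ = fun l => φ (true :: true :: l) + φ (false :: false :: l) := rfl
  rw [e, key]
  simp [eCap0]

/-- The two-colouring model. -/
def colModel : Model ℤ (List Bool → ℤ) where
  Supp := ESupp
  δ := 2
  init := fun l => if l.length = 0 then 1 else 0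
  cup := liftL eCup0 eCup0_lin
  cap := liftL eCap0 eCap0_lin
  supp_init := by
    intro l hl
    by_contra h
    simp only [if_neg h] at hl
    exact hl rfl
  supp_cup := eCup_supp
  supp_cap := eCap_supp
  rel1 := e_rel1
  rel2 := e_rel2
  rel3 := e_rel3
  rel4 := e_rel4
  rel5 := e_rel5

end colouring

end Pool.Agent.Helper2
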