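import Pool.Agent.Helper2.Double

/-!
# For a knot only the pure types contribute
-/

namespace Pool.Agent.Helper2

/-- The types of a typed path. -/
def ty : List Bool → List Bool
  | _ :: t :: l => t :: ty l
  | _ => []

/-- The colours of a typed path. -/
def co : List Bool → List Bool
  | a :: _ :: l => a :: co l
  | [a] => [a]
  | [] => []

/-- Constant lists. -/
def cst (l : List Bool) : Prop := mono true l ∨ mono false l

instance (l : List Bool) : Decidable (cst l) := by unfold cst; infer_instance

lemma ty_cons (c : Bool) (r : List Bool) : ty (c :: r) = ty (true :: r) := by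
  cases r <;> rfl

lemma co_cons (c : Bool) (r : List Bool) : co (c :: r) = c :: co r.tail := by
  cases r <;> rfl

lemma ty_co_append (i : ℕ) : ∀ (p r : List Bool), p.length = 2 * i →
    ty (p ++ r) = ty p ++ ty r ∧ co (p ++ r) = co p ++ co r ∧ (ty p).length = i ∧
      (co p).length = i := by
  induction i with
  | zero =>
    intro p r h
    have : p = [] := List.eq_nil_of_length_eq_zero (by simpa using h)
    subst this
    simp [ty, co]
  | succ i ih =>
    intro p r h
    rcases p with _ | ⟨a, _ | ⟨t, p⟩⟩
    · simp at h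
    · simp at h; omega
    · have hp : p.length = 2 * i := by simp at h; omega
      obtain ⟨h1, h2, h3, h4⟩ := ih p r hp
      simp [ty, co, h1, h2, h3, h4]

lemma ty_len (n : ℕ) : ∀ (l : List Bool), l.length = 2 * n + 1 → (ty l).length = n := by
  induction n with
  | zero =>
    intro l h
    obtain ⟨a, rfl⟩ := List.length_eq_one_iff.1 h
    rfl
  | succ n ih =>
    intro l h
    rcases l with _ | ⟨a, _ | ⟨t, l⟩⟩
    · simp at h
    · simp at h
    · simp [ty, ih l (by simp at h; omega)]

lemma cst_mid (p q : List Bool) (a b : Bool) :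
    cst (p ++ a :: b :: a :: q) ↔ b = a ∧ cst (p ++ a :: q) := by
  simp only [cst, mono_append, mono_cons]
  cases a <;> cases b <;> simp

/-- The comparison between a typed state `ψ`, a number of colourings `c` and an untyped state
`φ`. -/
structure KP (n : ℕ) (ψ : List Bool → ℂ) (c : List Bool → ℤ) (φ : List Bool → ℂ) (v : ℂ) :
    Prop where
  low : LB n c
  val : ∀ l, l.length = 2 * n + 1 → c (ty l) = lb (ty l) →
    ψ l = (if mono true (ty l) then φ (co l) else 0) +
      (if mono false (ty l) ∧ cst (co l) then v else 0)

lemma KP.cup {n i : ℕ} {d : ℂ} {ψ : List Bool → ℂ} {c : List Bool → ℤ} {φ : List Bool → ℂ}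
    {v : ℂ} (h : KP n ψ c φ v) (hi : i ≤ n) :
    KP (n + 2) (lift (gCup0 d) (2 * i) ψ) (lift eCup0 i c) (lift (pCup0 d) i φ) v := by
  refine ⟨h.low.cup hi, ?_⟩
  intro l hl hc
  obtain ⟨p, r, rfl, hp⟩ := split_list l (2 * i) (by omega)
  rcases r with _ | ⟨a, _ | ⟨t, _ | ⟨b, _ | ⟨t', _ | ⟨e, r⟩⟩⟩⟩⟩
  · simp at hl; omega
  · simp at hl; omega
  · simp at hl; omega
  · simp at hl; omega
  · simp at hl; omega
  obtain ⟨h1, h2, h3, h4⟩ := ty_co_append i p (a :: t :: b :: t' :: e :: r) hp
  obtain ⟨h1', h2', -, -⟩ := ty_co_append i p (e :: r) hp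
  have hty : ty (a :: t :: b :: t' :: e :: r) = t :: t' :: ty (e :: r) := by simp [ty]
  have hco : co (a :: t :: b :: t' :: e :: r) = a :: b :: co (e :: r) := by simp [co]
  rw [hty] at h1
  rw [hco, co_cons] at h2
  rw [co_cons] at h2'
  rw [h1] at hc ⊢
  rw [h2]
  have e1 : lift eCup0 i c (ty p ++ t :: t' :: ty (e :: r)) =
      if t = t' then c (ty p ++ ty (e :: r)) else 0 := by
    rw [← h3, lift_append]
    simp only [eCup0]
  have e2 : lift (gCup0 d) (2 * i) ψ (p ++ a :: t :: b :: t' :: e :: r) =
      if t = t' ∧ e = a then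
        (if t then (if (a || b) then wt d b else 0) else (if b = a then 1 else 0)) *
          ψ (p ++ a :: r)
      else 0 := by
    rw [← hp, lift_append]
    simp only [gCup0]
  have e3 : lift (pCup0 d) i φ (co p ++ a :: b :: e :: co r.tail) =
      if e = a ∧ (a || b) = true then wt d b * φ (co p ++ a :: co r.tail) else 0 := by
    rw [← h4, lift_append]
    simp only [pCup0]
  rw [e1] at hc
  rw [e2, e3]
  by_cases htt : t = t'
  · subst htt
    rw [if_pos rfl] at hc
    by_cases hea : e = a
    · subst hea
      have hlow := h.low (ty p ++ ty (e :: r)) (by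
        rw [← h1']
        exact ty_len n _ (by simp at hl ⊢; omega))
      have hcup := lb_cup (ty p) (ty (e :: r)) t
      have hc' : c (ty (p ++ e :: r)) = lb (ty (p ++ e :: r)) := by
        rw [h1']; omega
      have hlb : lb (ty p ++ t :: t :: ty (e :: r)) = lb (ty p ++ ty (e :: r)) := by omega
      have hv := h.val (p ++ e :: r) (by simp at hl ⊢; omega) hc'
      rw [h1', h2'] at hv
      simp only [true_and, if_true]
      rw [hv]
      simp only [lb, mono_append, mono_cons] at hlb
      simp only [mono_append, mono_cons, cst_mid]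
      by_cases hMT : mono true (ty p) ∧ mono true (ty (e :: r))
      · by_cases hMF : mono false (ty p) ∧ mono false (ty (e :: r))
        · cases t <;> simp [hMT, hMF] at hlb
        · cases t
          · simp [hMT, hMF] at hlb
          · simp [hMT, hMF]
      · by_cases hMF : mono false (ty p) ∧ mono false (ty (e :: r))
        · cases t
          · by_cases hb : b = e <;> simp [hMT, hMF, hb]
          · simp [hMT, hMF] at hlb
        · cases t <;> simp [hMT, hMF]
    · have : ¬ cst (co p ++ a :: b :: e :: co r.tail) := by
        simp only [cst, mono_append, mono_cons]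
        cases a <;> cases e <;> simp_all
      simp [hea, this]
  · have h5 : ¬ mono true (ty p ++ t :: t' :: ty (e :: r)) := by
      simp only [mono_append, mono_cons]
      cases t <;> cases t' <;> simp_all
    have h6 : ¬ mono false (ty p ++ t :: t' :: ty (e :: r)) := by
      simp only [mono_append, mono_cons]
      cases t <;> cases t' <;> simp_all
    simp [htt, h5, h6]

lemma KP.cap {n i : ℕ} {d : ℂ} {ψ : List Bool → ℂ} {c : List Bool → ℤ} {φ : List Bool → ℂ}
    {v : ℂ} (h : KP (n + 2) ψ c φ v) (hi : i ≤ n) :
    KP n (lift (gCap0 d) (2 * i) ψ) (lift eCap0 i c) (lift (pCap0 d) i φ) v := by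
  refine ⟨h.low.cap hi, ?_⟩
  intro l hl hc
  obtain ⟨p, r, rfl, hp⟩ := split_list l (2 * i) (by omega)
  rcases r with _ | ⟨a, r⟩
  · simp at hl; omega
  obtain ⟨h1, h2, h3, h4⟩ := ty_co_append i p (a :: r) hp
  rw [co_cons] at h2
  rw [h1] at hc ⊢
  rw [h2]
  have hlen := ty_len n _ hl
  rw [h1] at hlen
  have key : ∀ (t b : Bool), ty (p ++ a :: t :: b :: t :: a :: r) =
      ty p ++ t :: t :: ty (a :: r) ∧ co (p ++ a :: t :: b :: t :: a :: r) =
      co p ++ a :: b :: a :: co r.tail := by
    intro t b
    obtain ⟨h1', h2', -, -⟩ := ty_co_append i p (a :: t :: b :: t :: a :: r) hp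
    rw [h1', h2']
    simp [ty, co, co_cons]
  have e1 : lift eCap0 i c (ty p ++ ty (a :: r)) =
      c (ty p ++ true :: true :: ty (a :: r)) + c (ty p ++ false :: false :: ty (a :: r)) := by
    rw [← h3, lift_append]
    simp only [eCap0]
  have e2 : lift (gCap0 d) (2 * i) ψ (p ++ a :: r) =
      wti d a * (ψ (p ++ a :: true :: true :: true :: a :: r) +
      if a then ψ (p ++ a :: true :: false :: true :: a :: r) else 0) +
      ψ (p ++ a :: false :: a :: false :: a :: r) := by
    rw [← hp, lift_append]
    simp only [gCap0]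
  have e3 : lift (pCap0 d) i φ (co p ++ a :: co r.tail) =
      wti d a * (φ (co p ++ a :: true :: a :: co r.tail) +
        if a then φ (co p ++ a :: false :: a :: co r.tail) else 0) := by
    rw [← h4, lift_append]
    simp only [pCap0]
  rw [e1] at hc
  have hT := h.low (ty p ++ true :: true :: ty (a :: r)) (by simp at hlen ⊢; omega)
  have hF := h.low (ty p ++ false :: false :: ty (a :: r)) (by simp at hlen ⊢; omega)
  have hcap := lb_cap (ty p) (ty (a :: r))
  have hv : ∀ (t b : Bool), ψ (p ++ a :: t :: b :: t :: a :: r) =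
      (if mono true (ty p ++ t :: t :: ty (a :: r)) then φ (co p ++ a :: b :: a :: co r.tail)
        else 0) +
      (if mono false (ty p ++ t :: t :: ty (a :: r)) ∧ cst (co p ++ a :: b :: a :: co r.tail)
        then v else 0) := by
    intro t b
    have := h.val (p ++ a :: t :: b :: t :: a :: r) (by simp at hl ⊢; omega) (by
      rw [(key t b).1]
      cases t <;> omega)
    rw [(key t b).1, (key t b).2] at this
    exact this
  rw [e2, e3, hv, hv, hv]
  simp only [mono_append, mono_cons, cst_mid]
  by_cases hMT : mono true (ty p) ∧ mono true (ty (a :: r))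
  · simp only [hMT]
    cases a <;> simp
  · simp only [hMT]
    cases a <;> simp [hMT]

lemma KP.cross {n i : ℕ} {z : ℂˣ} {d : ℂ} {ψ : List Bool → ℂ} {c : List Bool → ℤ}
    {φ : List Bool → ℂ} {v : ℂ} (h : KP n ψ c φ v) (hi : i + 2 ≤ n) (s : Bool) :
    KP n (lift (gX0 z d s) (2 * i) ψ) (lift eX0 i c) (fun l => - lift (pX0 z d s) i φ l) v := by
  refine ⟨h.low.cross hi, ?_⟩
  intro l hl hc
  obtain ⟨p, r, rfl, hp⟩ := split_list l (2 * i) (by omega)
  rcases r with _ | ⟨a, _ | ⟨t, _ | ⟨b, _ | ⟨t', _ | ⟨e, r⟩⟩⟩⟩⟩
  · simp at hl; omega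
  · simp at hl; omega
  · simp at hl; omega
  · simp at hl; omega
  · simp at hl; omega
  have key : ∀ (a t b t' e : Bool), ty (p ++ a :: t :: b :: t' :: e :: r) =
      ty p ++ t :: t' :: ty (true :: r) ∧ co (p ++ a :: t :: b :: t' :: e :: r) =
      co p ++ a :: b :: e :: co r.tail := by
    intro a t b t' e
    obtain ⟨h1', h2', -, -⟩ := ty_co_append i p (a :: t :: b :: t' :: e :: r) hp
    rw [h1', h2']
    simp [ty, co, co_cons, ty_cons e]
  obtain ⟨-, -, h3, h4⟩ := ty_co_append i p (a :: t :: b :: t' :: e :: r) hp
  rw [(key a t b t' e).1] at hc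
  rw [(key a t b t' e).1, (key a t b t' e).2]
  have e1 : lift eX0 i c (ty p ++ t :: t' :: ty (true :: r)) =
      c (ty p ++ t' :: t :: ty (true :: r)) := by
    rw [← h3, lift_append]
    simp only [eX0]
  rw [e1, lb_swap] at hc
  have hv : ∀ (a b e : Bool), ψ (p ++ a :: t' :: b :: t :: e :: r) =
      (if mono true (ty p ++ t' :: t :: ty (true :: r)) then φ (co p ++ a :: b :: e :: co r.tail)
        else 0) +
      (if mono false (ty p ++ t' :: t :: ty (true :: r)) ∧ cst (co p ++ a :: b :: e :: co r.tail)
        then v else 0) := by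
    intro a b e
    have := h.val (p ++ a :: t' :: b :: t :: e :: r) (by simp at hl ⊢; omega) (by
      rw [(key a t' b t e).1]
      exact hc)
    rw [(key a t' b t e).1, (key a t' b t e).2] at this
    exact this
  have e2 : lift (gX0 z d s) (2 * i) ψ (p ++ a :: t :: b :: t' :: e :: r) =
      gX0 z d s (fun l => ψ (p ++ l)) (a :: t :: b :: t' :: e :: r) := by
    rw [← hp, lift_append]
  have e3 : lift (pX0 z d s) i φ (co p ++ a :: b :: e :: co r.tail) =
      pX0 z d s (fun l => φ (co p ++ l)) (a :: b :: e :: co r.tail) := by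
    rw [← h4, lift_append]
  rw [e2, e3]
  cases t <;> cases t'
  · have h5 : ¬ mono true (ty p ++ false :: false :: ty (true :: r)) := by
      simp [mono_append, mono_cons]
    simp only [gX0, tleg]
    rw [hv, if_neg h5, if_neg h5, zero_add]
    by_cases hab : a = b ∧ b = e
    · simp [hab]
    · have h6 : ¬ cst (co p ++ a :: b :: e :: co r.tail) := by
        simp only [cst, mono_append, mono_cons]
        cases a <;> cases b <;> cases e <;> simp_all
      simp only [h6, and_false, if_false]
      simp
  · have h5 : ¬ mono true (ty p ++ false :: true :: ty (true :: r)) := by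
      simp [mono_append, mono_cons]
    have h6 : ¬ mono false (ty p ++ false :: true :: ty (true :: r)) := by
      simp [mono_append, mono_cons]
    have h5' : ¬ mono true (ty p ++ true :: false :: ty (true :: r)) := by
      simp [mono_append, mono_cons]
    have h6' : ¬ mono false (ty p ++ true :: false :: ty (true :: r)) := by
      simp [mono_append, mono_cons]
    simp only [gX0, tleg, hv, h5, h6, h5', h6', false_and, if_false, add_zero, ite_self]
  · have h5 : ¬ mono true (ty p ++ false :: true :: ty (true :: r)) := by
      simp [mono_append, mono_cons]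
    have h6 : ¬ mono false (ty p ++ false :: true :: ty (true :: r)) := by
      simp [mono_append, mono_cons]
    have h5' : ¬ mono true (ty p ++ true :: false :: ty (true :: r)) := by
      simp [mono_append, mono_cons]
    have h6' : ¬ mono false (ty p ++ true :: false :: ty (true :: r)) := by
      simp [mono_append, mono_cons]
    simp only [gX0, tleg, hv, h5, h6, h5', h6', false_and, if_false, add_zero, ite_self]
  · have h6 : ¬ mono false (ty p ++ true :: true :: ty (true :: r)) := by
      simp [mono_append, mono_cons]
    simp only [gX0, tleg, hv, h6, false_and, if_false, add_zero, pX0, pCup0, pCap0, if_true]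
    by_cases h5 : mono true (ty p ++ true :: true :: ty (true :: r))
    · simp only [h5, if_true]
      by_cases hleg : (a || b) = true ∧ (b || e) = true
      · rw [if_pos hleg, if_pos hleg]
        by_cases hea : a = e
        · subst hea
          simp [hleg]
        · have hea' : ¬ e = a := fun h => hea h.symm
          simp [hea, hea']
      · rw [if_neg hleg, if_neg hleg, neg_zero]
    · simp only [h5, if_false]
      simp

/-- The number of crossings. -/
def crossings : List Slice → ℕ
  | [] => 0
  | .cross _ _ :: w => crossings w + 1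
  | _ :: w => crossings w

lemma KP.run {z : ℂˣ} {d : ℂ} (w : List Slice) : ∀ (n m : ℕ) (ψ : List Bool → ℂ)
    (c : List Bool → ℤ) (φ : List Bool → ℂ) (v : ℂ), Ok w n m → KP n ψ c φ v →
    KP m ((gOps z d).run w ψ) (colOps.run w c)
      (fun l => (-1) ^ crossings w * (pathOps z d).run w φ l) v := by
  induction w with
  | nil =>
    intro n m ψ c φ v h hk
    simp only [Ok] at h
    subst h
    simpa [Ops.run, crossings] using hk
  | cons s w ih =>
    intro n m ψ c φ v h hk
    cases s with
    | cup i u => exact ih _ _ _ _ _ _ h.2 (hk.cup h.1)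
    | cap i =>
      obtain ⟨k, rfl⟩ : ∃ k, n = k + 2 := ⟨n - 2, by have := h.1; omega⟩
      exact ih _ _ _ _ _ _ h.2 (hk.cap (by have := h.1; omega))
    | cross i p =>
      have := ih _ _ _ _ _ _ h.2 (hk.cross (z := z) (d := d) h.1 p)
      have e : (fun l => (-1) ^ crossings (Slice.cross i p :: w) *
          (pathOps z d).run (Slice.cross i p :: w) φ l) =
          fun l => (-1) ^ crossings w * (pathOps z d).run w
            (fun l => - lift (pX0 z d p) i φ l) l := by
        funext l
        have hl := (run_lin _ (pathOps_act_lin z d) w).smul (lift (pX0 z d p) i φ) (-1)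
        have hneg : (fun l => - lift (pX0 z d p) i φ l) =
          fun l => (-1) * lift (pX0 z d p) i φ l := by
          funext l; ring
        rw [hneg, hl, crossings, pow_succ]
        simp only [Ops.run, Ops.act, pathOps]
        ring
      rw [e]
      exact this

end Pool.Agent.Helper2
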