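import Pool.Agent.Helper2.FillVec

/-!
# The orientation model modulo two
-/

set_option linter.unusedSimpArgs false

namespace Pool.Agent.Helper2

/-- The cup of the orientation model. -/
def oCup0 (ψ : List Bool → ZMod 2) : List Bool → ZMod 2
  | x :: y :: l => if x = y then 0 else ψ l
  | _ => 0

/-- The cap of the orientation model. -/
def oCap0 (ψ : List Bool → ZMod 2) (l : List Bool) : ZMod 2 :=
  ψ (true :: false :: l) + ψ (false :: true :: l)

lemma oCup0_lin : Lin2 oCup0 := by
  intro φ₁ φ₂ c₁ c₂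
  funext l
  rcases l with _ | ⟨a, _ | ⟨b, l⟩⟩ <;> simp [oCup0]
  split_ifs <;> ring

lemma oCap0_lin : Lin2 oCap0 := by
  intro φ₁ φ₂ c₁ c₂
  funext l
  simp only [oCap0]
  ring

/-- States of `n` strands in the orientation model. -/
def OSupp (n : ℕ) (ψ : List Bool → ZMod 2) : Prop := ∀ l, ψ l ≠ 0 → l.length = n

lemma OSupp.ext {n : ℕ} {φ ψ : List Bool → ZMod 2} (h : OSupp n φ) (h' : OSupp n ψ)
    (H : ∀ l, l.length = n → φ l = ψ l) : φ = ψ := by
  funext l
  by_cases h1 : l.length = n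
  · exact H l h1
  · have h2 : φ l = 0 := by
      by_contra hne
      exact h1 (h l hne)
    have h3 : ψ l = 0 := by
      by_contra hne
      exact h1 (h' l hne)
    rw [h2, h3]

lemma oCup_supp (n i : ℕ) (ψ : List Bool → ZMod 2) (_ : i ≤ n) (h : OSupp n ψ) :
    OSupp (n + 2) (lift oCup0 i ψ) := by
  intro l hl
  by_cases hlen : l.length < i
  · exact absurd (lift_short _ _ _ _ hlen) hl
  obtain ⟨p, r, rfl, rfl⟩ := split_list l i (by omega)
  rw [lift_append] at hl
  rcases r with _ | ⟨a, _ | ⟨b, r⟩⟩ <;> simp only [oCup0] at hl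
  · exact absurd rfl hl
  · exact absurd rfl hl
  · split_ifs at hl with h1
    · exact absurd rfl hl
    · have h3 := h _ hl
      simp at h3 ⊢; omega

lemma oCap_supp (n i : ℕ) (ψ : List Bool → ZMod 2) (_ : i ≤ n) (h : OSupp (n + 2) ψ) :
    OSupp n (lift oCap0 i ψ) := by
  intro l hl
  by_cases hlen : l.length < i
  · exact absurd (lift_short _ _ _ _ hlen) hl
  obtain ⟨p, r, rfl, rfl⟩ := split_list l i (by omega)
  rw [lift_append] at hl
  simp only [oCap0] at hl
  have key : ∃ b : Bool, ψ (p ++ b :: (!b) :: r) ≠ 0 := by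
    by_contra hcon
    push Not at hcon
    apply hl
    have h1 := hcon true
    have h2 := hcon false
    simp only [Bool.not_true, Bool.not_false] at h1 h2
    rw [h1, h2]
    simp
  obtain ⟨b, hb⟩ := key
  have h3 := h _ hb
  simp at h3 ⊢; omega

lemma o_rel1 (n i : ℕ) (ψ : List Bool → ZMod 2) (h : OSupp n ψ) (hi : i ≤ n) :
    lift oCap0 i (lift oCup0 i ψ) = (0 : ZMod 2) • ψ := by
  refine OSupp.ext (n := n) (oCap_supp _ _ _ hi (oCup_supp _ _ _ hi h)) ?_ ?_
  · intro l hl
    exact absurd (by simp) hl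
  intro l hl
  obtain ⟨p, r, rfl, rfl⟩ := split_list l i (by omega)
  have := lift_comp_append oCap0 oCup0 p 0 0 ψ r
  simp only [Nat.add_zero, lift_zero, lift_zero'] at this
  rw [this]
  simp [oCap0, oCup0, CharTwo.add_self_eq_zero]

lemma o_rel2 (n i : ℕ) (ψ : List Bool → ZMod 2) (h : OSupp n ψ) (hi : i + 1 ≤ n) :
    lift oCap0 (i + 1) (lift oCup0 i ψ) = ψ := by
  refine OSupp.ext (n := n) (oCap_supp _ _ _ hi (oCup_supp _ _ _ (by omega) h)) h ?_
  intro l hl
  obtain ⟨p, r, rfl, rfl⟩ := split_list l i (by omega)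
  have := lift_comp_append oCap0 oCup0 p 1 0 ψ r
  simp only [Nat.add_zero, lift_zero'] at this
  rw [this]
  rcases r with _ | ⟨a, r⟩
  · simp at hl; omega
  · cases a <;> simp [oCap0, oCup0]

lemma o_rel3 (n i : ℕ) (ψ : List Bool → ZMod 2) (h : OSupp n ψ) (hi : i + 1 ≤ n) :
    lift oCap0 i (lift oCup0 (i + 1) ψ) = ψ := by
  refine OSupp.ext (n := n) (oCap_supp _ _ _ (by omega) (oCup_supp _ _ _ hi h)) h ?_
  intro l hl
  obtain ⟨p, r, rfl, rfl⟩ := split_list l i (by omega)
  have := lift_comp_append oCap0 oCup0 p 0 1 ψ r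
  simp only [Nat.add_zero, lift_zero] at this
  rw [this]
  rcases r with _ | ⟨a, r⟩
  · simp at hl; omega
  · cases a <;> simp [oCap0, oCup0]

lemma o_rel4 (n i k : ℕ) (ψ : List Bool → ZMod 2) (h : OSupp n ψ) (hi : i + k + 2 ≤ n) :
    lift oCap0 (i + k + 2) (lift oCup0 i ψ) = lift oCup0 i (lift oCap0 (i + k) ψ) := by
  obtain ⟨m, rfl⟩ : ∃ m, n = m + 2 := ⟨n - 2, by omega⟩
  refine OSupp.ext (n := m + 2) (oCap_supp _ _ _ (by omega) (oCup_supp _ _ _ (by omega) h))
    (oCup_supp _ _ _ (by omega) (oCap_supp _ _ _ (by omega) h)) ?_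
  intro l hl
  obtain ⟨p, r, rfl, rfl⟩ := split_list l i (by omega)
  have h1 := lift_comp_append oCap0 oCup0 p (k + 2) 0 ψ r
  have h2 := lift_comp_append oCup0 oCap0 p 0 k ψ r
  rw [← Nat.add_assoc] at h1
  simp only [Nat.add_zero, lift_zero, lift_zero'] at h1 h2
  rw [h1, h2]
  rcases r with _ | ⟨a, _ | ⟨b, r⟩⟩
  · simp at hl; omega
  · simp at hl; omega
  · simp only [lift_succ_cons, oCup0]
    split_ifs with hab
    · exact congrFun ((oCap0_lin.lift k).zero) r
    · rfl

lemma o_rel5 (n i k : ℕ) (ψ : List Bool → ZMod 2) (h : OSupp n ψ) (hi : i + k + 2 ≤ n) :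
    lift oCap0 i (lift oCup0 (i + k + 2) ψ) = lift oCup0 (i + k) (lift oCap0 i ψ) := by
  obtain ⟨m, rfl⟩ : ∃ m, n = m + 2 := ⟨n - 2, by omega⟩
  refine OSupp.ext (n := m + 2) (oCap_supp _ _ _ (by omega) (oCup_supp _ _ _ (by omega) h))
    (oCup_supp _ _ _ (by omega) (oCap_supp _ _ _ (by omega) h)) ?_
  intro l hl
  obtain ⟨p, r, rfl, rfl⟩ := split_list l i (by omega)
  have h1 := lift_comp_append oCap0 oCup0 p 0 (k + 2) ψ r
  have h2 := lift_comp_append oCup0 oCap0 p k 0 ψ r
  rw [← Nat.add_assoc] at h1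
  simp only [Nat.add_zero, lift_zero, lift_zero'] at h1 h2
  rw [h1, h2]
  set φ := fun l' => ψ (p ++ l') with hφ
  have key := congrFun ((oCup0_lin.lift k).add (fun l' => φ (true :: false :: l'))
    (fun l' => φ (false :: true :: l'))) r
  have e : oCap0 φ = fun l => φ (true :: false :: l) + φ (false :: true :: l) := rfl
  rw [e, key]
  simp [oCap0]

/-- The orientation model modulo two. -/
def orModel : Model (ZMod 2) (List Bool → ZMod 2) where
  Supp := OSupp
  δ := 0
  init := fun l => if l.length = 0 then 1 else 0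
  cup := liftL oCup0 oCup0_lin
  cap := liftL oCap0 oCap0_lin
  supp_init := by
    intro l hl
    by_contra h
    simp only [if_neg h] at hl
    exact hl rfl
  supp_cup := oCup_supp
  supp_cap := oCap_supp
  rel1 := o_rel1
  rel2 := o_rel2
  rel3 := o_rel3
  rel4 := o_rel4
  rel5 := o_rel5

lemma or_far : orModel.Far := by
  unfold Model.Far
  funext l
  change lift oCup0 2 (lift oCup0 0 _) l = lift oCup0 0 (lift oCup0 0 _) l
  rcases l with _ | ⟨a, _ | ⟨b, _ | ⟨c, _ | ⟨d, l⟩⟩⟩⟩
  · simp [oCup0]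
  · simp [oCup0]
  · simp [oCup0]
  · simp [oCup0]
  · simp only [lift_succ_cons, lift_zero, oCup0]
    split_ifs <;> rfl

/-- Directions relative to given directions. -/
def rel (o c : List Bool) : List Bool := List.zipWith xor o c

lemma rel_append (p q o c : List Bool) (h : p.length = o.length) :
    rel (p ++ q) (o ++ c) = rel p o ++ rel q c := by
  exact List.zipWith_append h

lemma orX (p r : List Bool) (a b : Bool) (ψ : List Bool → ZMod 2) (s : Bool) :
    orModel.X 1 p.length s ψ (p ++ a :: b :: r) = ψ (p ++ b :: a :: r) := by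
  have h1 : (orModel.cup p.length (orModel.cap p.length ψ)) (p ++ a :: b :: r) =
      if a = b then 0 else ψ (p ++ true :: false :: r) + ψ (p ++ false :: true :: r) := by
    change lift oCup0 p.length (lift oCap0 p.length ψ) (p ++ a :: b :: r) = _
    have := lift_comp_append oCup0 oCap0 p 0 0 ψ (a :: b :: r)
    simp only [Nat.add_zero, lift_zero, lift_zero'] at this
    rw [this]
    rfl
  unfold Model.X
  rw [Pi.add_apply, Pi.smul_apply, Pi.smul_apply, h1]
  simp only [one_zpow, Units.val_one, one_smul]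
  cases a <;> cases b
  · simp
  · simp only [Bool.false_eq_true, if_false]
    rw [add_comm (ψ _) (ψ (p ++ false :: true :: r)), ← add_assoc, CharTwo.add_self_eq_zero,
      zero_add]
  · simp only [Bool.true_eq_false, if_false]
    rw [← add_assoc, CharTwo.add_self_eq_zero, zero_add]
  · simp

end Pool.Agent.Helper2
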