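import Pool.Agent.Helper2.OrModel

/-!
# Orientations and colourings
-/

set_option linter.unusedSimpArgs false

namespace Pool.Agent.Helper2

lemma rel_length (o c : List Bool) (h : c.length = o.length) : (rel o c).length = o.length := by
  simp [rel, h]

/-- Compatibility of a state of the orientation model with a state of the colouring model. -/
def Cmp (o : List Bool) (φ : List Bool → ZMod 2) (ψ : List Bool → ℤ) : Prop :=
  ∀ c, c.length = o.length → φ c = ((ψ (rel o c) : ℤ) : ZMod 2)

lemma Cmp.cup {o : List Bool} {φ : List Bool → ZMod 2} {ψ : List Bool → ℤ} (h : Cmp o φ ψ)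
    (i : ℕ) (u : Bool) (hi : i ≤ o.length) :
    Cmp (o.take i ++ u :: (!u) :: o.drop i) (orModel.cup i φ) (lift eCup0 i ψ) := by
  intro c hc
  obtain ⟨pre, post, rfl, rfl⟩ := split_list o i hi
  simp only [List.take_left', List.drop_left'] at hc ⊢
  obtain ⟨p, r, rfl, hp⟩ := split_list c pre.length (by simp at hc; omega)
  rcases r with _ | ⟨x, _ | ⟨y, r⟩⟩
  · simp at hc; omega
  · simp at hc; omega
  have hlen : (rel pre p).length = p.length := by rw [rel_length _ _ hp, hp]
  have e1 : orModel.cup pre.length φ (p ++ x :: y :: r) = if x = y then 0 else φ (p ++ r) := by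
    change lift oCup0 pre.length φ _ = _
    rw [← hp, lift_append]
    rfl
  have e2 : rel (pre ++ u :: (!u) :: post) (p ++ x :: y :: r) =
      rel pre p ++ (xor u x) :: (xor (!u) y) :: rel post r := by
    rw [rel_append _ _ _ _ hp.symm]
    rfl
  rw [e1, e2, ← hp, ← hlen, lift_append]
  have e3 := h (p ++ r) (by simp at hc ⊢; omega)
  rw [rel_append _ _ _ _ hp.symm] at e3
  simp only [eCup0]
  cases u <;> cases x <;> cases y <;> simp [e3]

lemma Cmp.cap {o : List Bool} {φ : List Bool → ZMod 2} {ψ : List Bool → ℤ}
    (pre post : List Bool) (a b : Bool) (hab : a ≠ b) (ho : o = pre ++ a :: b :: post)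
    (h : Cmp o φ ψ) :
    Cmp (pre ++ post) (orModel.cap pre.length φ) (lift eCap0 pre.length ψ) := by
  subst ho
  intro c hc
  obtain ⟨p, r, rfl, hp⟩ := split_list c pre.length (by simp at hc; omega)
  have hlen : (rel pre p).length = p.length := by rw [rel_length _ _ hp, hp]
  have e1 : orModel.cap pre.length φ (p ++ r) =
      φ (p ++ true :: false :: r) + φ (p ++ false :: true :: r) := by
    change lift oCap0 pre.length φ _ = _
    rw [← hp, lift_append]
    rfl
  rw [e1, rel_append _ _ _ _ hp.symm, ← hp, ← hlen, lift_append]
  have e2 := h (p ++ true :: false :: r) (by simp at hc ⊢; omega)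
  have e3 := h (p ++ false :: true :: r) (by simp at hc ⊢; omega)
  rw [rel_append _ _ _ _ hp.symm] at e2 e3
  rw [e2, e3]
  have e4 : ∀ x y : Bool, rel (a :: b :: post) (x :: y :: r) =
      (xor a x) :: (xor b y) :: rel post r := fun x y => rfl
  rw [e4, e4]
  simp only [eCap0]
  cases a <;> cases b
  · exact absurd rfl hab
  · simp
  · simp [add_comm]
  · exact absurd rfl hab

lemma Cmp.cross {o : List Bool} {φ : List Bool → ZMod 2} {ψ : List Bool → ℤ}
    (pre post : List Bool) (a b : Bool) (ho : o = pre ++ a :: b :: post)
    (h : Cmp o φ ψ) (s : Bool) :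
    Cmp (pre ++ b :: a :: post) (orModel.X 1 pre.length s φ) (lift eX0 pre.length ψ) := by
  subst ho
  intro c hc
  obtain ⟨p, r, rfl, hp⟩ := split_list c pre.length (by simp at hc; omega)
  rcases r with _ | ⟨x, _ | ⟨y, r⟩⟩
  · simp at hc; omega
  · simp at hc; omega
  have hlen : (rel pre p).length = p.length := by rw [rel_length _ _ hp, hp]
  have e1 := orX p r x y φ s
  rw [hp] at e1
  have e2 := h (p ++ y :: x :: r) (by simp at hc ⊢; omega)
  rw [e1, e2, rel_append _ _ _ _ hp.symm, rel_append _ _ _ _ hp.symm, ← hp, ← hlen, lift_append]
  rfl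

lemma or_run (w : List Slice) : ∀ (o o' : List Bool) (φ : List Bool → ZMod 2)
    (ψ : List Bool → ℤ), dirsAbove w o = some o' → Cmp o φ ψ →
    Cmp o' ((orModel.ops (orModel.X 1)).run w φ) (colOps.run w ψ) := by
  induction w with
  | nil =>
    intro o o' φ ψ h hc
    simp [dirsAbove] at h
    subst h
    exact hc
  | cons s w ih =>
    intro o o' φ ψ h hc
    cases s with
    | cup i u =>
      simp only [dirsAbove, Slice.dirs] at h
      split_ifs at h with hi
      · simp only [Option.bind_some] at h
        exact ih _ _ _ _ h (hc.cup i u hi)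
      · simp at h
    | cap i =>
      simp only [dirsAbove, Slice.dirs] at h
      rcases hd : o.drop i with _ | ⟨a, _ | ⟨b, r⟩⟩
      · simp [hd] at h
      · simp [hd] at h
      · simp only [hd] at h
        split_ifs at h with hab
        · simp at h
        · simp only [Option.bind_some] at h
          have hl : (o.drop i).length = r.length + 2 := by simp [hd]
          rw [List.length_drop] at hl
          have ho : o = o.take i ++ a :: b :: r := by rw [← hd, List.take_append_drop]
          have hi : (o.take i).length = i := by rw [List.length_take]; omega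
          have := hc.cap (o.take i) r a b hab ho
          rw [hi] at this
          exact ih _ _ _ _ h this
    | cross i p =>
      simp only [dirsAbove, Slice.dirs] at h
      rcases hd : o.drop i with _ | ⟨a, _ | ⟨b, r⟩⟩
      · simp [hd] at h
      · simp [hd] at h
      · simp only [hd, Option.bind_some] at h
        have hl : (o.drop i).length = r.length + 2 := by simp [hd]
        rw [List.length_drop] at hl
        have ho : o = o.take i ++ a :: b :: r := by rw [← hd, List.take_append_drop]
        have hi : (o.take i).length = i := by rw [List.length_take]; omega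
        have := hc.cross (o.take i) r a b ho p
        rw [hi] at this
        exact ih _ _ _ _ h this

/-- Colouring by a constant. -/
lemma cnt_const (t : Trace) : cnt t (t.names.map fun _ => false) = 2 ^ t.closed := by
  unfold cnt
  rw [if_pos ⟨fun _ => false, rfl⟩]

lemma cnt_init : cnt ⟨0, [], 0⟩ = colModel.init := by
  funext l
  change cnt ⟨0, [], 0⟩ l = if l.length = 0 then 1 else 0
  simp only [cnt, List.map_nil, pow_zero]
  cases l <;> simp

lemma rel_self (o : List Bool) : rel o o = o.map fun _ => false := by
  induction o with
  | nil => rfl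
  | cons a o ih =>
    have : rel (a :: o) (a :: o) = (xor a a) :: rel o o := rfl
    rw [this, ih]
    simp

/-- The value of the orientation model at the directions of the diagram is the parity of the
number of orientations of the closed curves. -/
lemma or_value (R : List Slice) (o : List Bool) (h : dirsAbove R [] = some o) :
    (orModel.ops (orModel.X 1)).run R orModel.init o =
      (((2 : ℤ) ^ (R.foldl Trace.step ⟨0, [], 0⟩).closed : ℤ) : ZMod 2) := by
  have h0 : Cmp [] orModel.init colModel.init := by
    intro c hc
    simp only [List.length_nil, List.length_eq_zero_iff] at hc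
    subst hc
    rfl
  have h1 := or_run R [] o _ _ h h0 o rfl
  have hok := ok_of_dirs R [] o h
  have h2 := run_cnt R ⟨0, [], 0⟩ o.length ⟨by simp, by simp⟩ hok
  rw [h1, ← cnt_init, h2.1, rel_self]
  congr 1
  have h3 := cnt_const (R.foldl Trace.step ⟨0, [], 0⟩)
  rw [← h3]
  congr 1
  apply List.ext_getElem
  · simp [h2.2]
  · intro n _ _
    simp

end Pool.Agent.Helper2
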