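import Pool.Agent.Helper2.FillThm

/-!
# Rational fillings of a tangle with trivial normalized bracket
-/

namespace Pool.Agent.Helper2.RetiredRationalFillings

open Pool.Agent.Helper2

/-- Let `R` be an oriented 2-string tangle diagram. Either the normalized bracket of the knots
obtained from `R` by rational fillings is `1` for at most one slope, or the bracket of `R` is a
unit times the bracket of a rational tangle `g`, and then the normalized bracket of a knot
obtained by a rational filling is `1` exactly if its slope has distance one from that of `g`. -/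
theorem result (R : List Slice) (l : List Bool) (hR : dirsAbove R [] = some l)
    (hl : l.length = 4) :
    (∀ b b' : List (Bool × Bool), IsKnotDiagram (fill R b) → IsKnotDiagram (fill R b') →
      fPoly (fill R b) = 1 → fPoly (fill R b') = 1 →
        slope b' = slope b ∨ slope b' = -slope b) ∨
    ∃ (g : List (Bool × Bool)) (u : LaurentPolynomial ℤ),
      (∃ m : ℤ, u = LaurentPolynomial.T m ∨ u = -LaurentPolynomial.T m) ∧
      (∀ b : List (Bool × Bool), bracket (fill R b) = u * bracket (fill (rational g) b)) ∧
      ∀ b : List (Bool × Bool), IsKnotDiagram (fill R b) →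
        (fPoly (fill R b) = 1 ↔ dist g b = 1) := by
  obtain ⟨x, y, z, d, rfl⟩ : ∃ x y z d, l = [x, y, z, d] := by
    match l, hl with
    | [x, y, z, d], _ => exact ⟨x, y, z, d, rfl⟩
  by_cases h : ∀ b b' : List (Bool × Bool), IsKnotDiagram (fill R b) →
      IsKnotDiagram (fill R b') → fPoly (fill R b) = 1 → fPoly (fill R b') = 1 →
        slope b' = slope b ∨ slope b' = -slope b
  · exact Or.inl h
  · right
    push Not at h
    obtain ⟨b₁, b₂, hk₁, hk₂, hf₁, hf₂, hn₁, hn₂⟩ := h
    exact two_fillings R (x, y, z) d hR b₁ b₂ hk₁ hk₂ hf₁ hf₂ (by tauto)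

end Pool.Agent.Helper2.RetiredRationalFillings
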