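import Pool.Agent.Helper2.Final

namespace Pool.Agent.Helper2.RetiredWhiteheadFifthRoot

open Pool.Agent.Helper2

/-- Iterated untwisted Whitehead doubles of a knot diagram `D` are knot diagrams, at a primitive
fifth root of unity the value of `f - 1` is multiplied by an explicit nonzero factor at every
step, and so all of them have a nontrivial f-polynomial if the value of `f_D` is not `1`. -/
theorem result (z : ℂˣ) (hz : IsPrimitiveRoot (z : ℂ) 5) (D : List Slice)
    (hD : IsKnotDiagram D) (ps : List Bool) :
    IsKnotDiagram (iteratedDouble ps D) ∧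
    evalAt z (fPoly (iteratedDouble ps D)) - 1 =
      (ps.map fun p => if p then (z : ℂ) ^ 4 - (z : ℂ) ^ 3 else (z : ℂ) - (z : ℂ) ^ 2).prod *
        (evalAt z (fPoly D) - 1) ∧
    (evalAt z (fPoly D) ≠ 1 → fPoly (iteratedDouble ps D) ≠ 1) := by
  refine ⟨(iterated_main z hz D hD ps).1, (iterated_main z hz D hD ps).2, fun h => ?_⟩
  exact (iterated_nontrivial z hz D hD h ps).2.2

end Pool.Agent.Helper2.RetiredWhiteheadFifthRoot
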