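import Pool.Agent.Helper2.StateSum

/-!
# The typed path model and the doubling isomorphism
-/

namespace Pool.Agent.Helper2

/-- The change of basis. -/
noncomputable def uc (g d : ℂ) (a m b t : Bool) : ℂ :=
  if t then
    (if (a && b) then (if m then -g else g) else (if ((a || b) && m) then g * d else 0))
  else (if a = b ∧ (a || m) = true then g * wt d m else 0)

/-- The full change of basis. -/
noncomputable def UU (g d : ℂ) : (List Bool → ℂ) → List Bool → ℂ
  | ψ, a :: m :: b :: l =>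
      uc g d a m b true * UU g d (fun l' => ψ (a :: true :: l')) (b :: l) +
      uc g d a m b false * UU g d (fun l' => ψ (a :: false :: l')) (b :: l)
  | ψ, l => ψ l
termination_by _ l => l.length

/-- Legal typed steps. -/
def tleg (t a b : Bool) : Prop := if t then (a || b) = true else a = b

instance (t a b : Bool) : Decidable (tleg t a b) := by unfold tleg; infer_instance

/-- Cup of the typed model. -/
noncomputable def gCup0 (d : ℂ) (ψ : List Bool → ℂ) : List Bool → ℂ
  | a :: t :: b :: t' :: c :: l =>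
      if t = t' ∧ c = a then
        (if t then (if (a || b) then wt d b else 0) else (if b = a then 1 else 0)) * ψ (a :: l)
      else 0
  | _ => 0

/-- Cap of the typed model. -/
noncomputable def gCap0 (d : ℂ) (ψ : List Bool → ℂ) : List Bool → ℂ
  | a :: l => wti d a * (ψ (a :: true :: true :: true :: a :: l) +
      if a then ψ (a :: true :: false :: true :: a :: l) else 0) +
      ψ (a :: false :: a :: false :: a :: l)
  | _ => 0

/-- Crossing of the typed model. -/
noncomputable def gX0 (z : ℂˣ) (d : ℂ) (p : Bool) (ψ : List Bool → ℂ) : List Bool → ℂ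
  | a :: t :: b :: t' :: c :: l =>
      if tleg t a b ∧ tleg t' b c then
        (match t, t' with
        | true, true => -(cA z p * ψ (a :: true :: b :: true :: c :: l) + cB z p *
            if a = c then wt d b * (wti d a * (ψ (a :: true :: true :: true :: a :: l) +
              if a then ψ (a :: true :: false :: true :: a :: l) else 0)) else 0)
        | false, false => ψ (a :: false :: b :: false :: c :: l)
        | true, false => ψ (a :: false :: a :: true :: c :: l)
        | false, true => ψ (a :: true :: c :: false :: c :: l))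
      else 0
  | _ => 0

/-- The change of basis for one doubled strand. -/
noncomputable def u0 (g d : ℂ) (ψ : List Bool → ℂ) : List Bool → ℂ
  | a :: m :: b :: l => uc g d a m b true * ψ (a :: true :: b :: l) +
      uc g d a m b false * ψ (a :: false :: b :: l)
  | _ => 0

/-- A single strand crossing a typed strand. -/
noncomputable def h0 (z : ℂˣ) (d : ℂ) (p : Bool) (ψ : List Bool → ℂ) : List Bool → ℂ
  | a :: b :: t :: c :: l =>
      if (a || b) = true ∧ tleg t b c then
        (if t then -(cA z p * ψ (a :: true :: b :: c :: l) + cB z p *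
          if a = c then wt d b * (wti d a * (ψ (a :: true :: true :: a :: l) +
            if a then ψ (a :: true :: false :: a :: l) else 0)) else 0)
        else ψ (a :: false :: a :: c :: l))
      else 0
  | _ => 0

/-- Doubled cup. -/
noncomputable def dCup0 (d : ℂ) (ψ : List Bool → ℂ) : List Bool → ℂ :=
  lift (pCup0 d) 1 (pCup0 d ψ)

/-- Doubled cap. -/
noncomputable def dCap0 (d : ℂ) (ψ : List Bool → ℂ) : List Bool → ℂ :=
  pCap0 d (lift (pCap0 d) 1 ψ)

/-- Doubled crossing. -/
noncomputable def dX0 (z : ℂˣ) (d : ℂ) (p : Bool) (ψ : List Bool → ℂ) : List Bool → ℂ :=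
  lift (pX0 z d p) 1 (lift (pX0 z d p) 2 (pX0 z d p (lift (pX0 z d p) 1 ψ)))

lemma half1 (z : ℂˣ) (g d : ℂ) (hd : d * d = d + 1)
    (hz : (z : ℂ) ^ 4 + (z : ℂ) ^ 3 + (z : ℂ) ^ 2 + z + 1 = 0)
    (hzd : d = -((z : ℂ) ^ 2 + (z : ℂ) ^ 3)) (hzi : ((z⁻¹ : ℂˣ) : ℂ) = (z : ℂ) ^ 4) (p : Bool)
    (ψ : List Bool → ℂ) :
    pX0 z d p (lift (pX0 z d p) 1 (u0 g d ψ)) = lift (u0 g d) 1 (h0 z d p ψ) := by
  have hzi' : ((z : ℂ))⁻¹ = (z : ℂ) ^ 4 := by rw [← hzi]; simp
  funext l
  rcases l with _ | ⟨a, _ | ⟨b, _ | ⟨m, _ | ⟨c, l⟩⟩⟩⟩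
  · simp [pX0]
  · simp [pX0, u0]
  · simp [pX0, u0]
  · simp [pX0, u0, pCup0, pCap0]
  · simp only [pX0, pCup0, pCap0, lift_succ_cons, lift_zero, u0, h0]
    cases p <;> cases a <;> cases m <;> cases b <;> cases c <;>
      simp [uc, wt, wti, cA, cB, hzi', tleg] <;> grind

lemma half2 (z : ℂˣ) (g d : ℂ) (hd : d * d = d + 1)
    (hz : (z : ℂ) ^ 4 + (z : ℂ) ^ 3 + (z : ℂ) ^ 2 + z + 1 = 0)
    (hzd : d = -((z : ℂ) ^ 2 + (z : ℂ) ^ 3)) (hzi : ((z⁻¹ : ℂˣ) : ℂ) = (z : ℂ) ^ 4) (p : Bool)
    (ψ : List Bool → ℂ) :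
    lift (h0 z d p) 1 (h0 z d p (lift (u0 g d) 2 ψ)) = u0 g d (gX0 z d p ψ) := by
  have hzi' : ((z : ℂ))⁻¹ = (z : ℂ) ^ 4 := by rw [← hzi]; simp
  funext l
  rcases l with _ | ⟨a, _ | ⟨b, _ | ⟨m, _ | ⟨t, _ | ⟨c, l⟩⟩⟩⟩⟩
  · simp [u0]
  · simp [h0, u0]
  · simp [h0, u0]
  · simp [h0, u0, gX0]
  · simp [h0, u0]
    simp [gX0]
  · simp only [h0, gX0, lift_succ_cons, lift_zero, u0]
    cases p <;> cases a <;> cases m <;> cases b <;> cases c <;> cases t <;>
      simp [uc, wt, wti, cA, cB, hzi', tleg] <;> grind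

lemma UU_cons (g d : ℂ) (ψ : List Bool → ℂ) (a m b : Bool) (l : List Bool) :
    UU g d ψ (a :: m :: b :: l) =
      uc g d a m b true * UU g d (fun l' => ψ (a :: true :: l')) (b :: l) +
      uc g d a m b false * UU g d (fun l' => ψ (a :: false :: l')) (b :: l) := by
  rw [UU]

lemma UU_one (g d : ℂ) (ψ : List Bool → ℂ) (a : Bool) : UU g d ψ [a] = ψ [a] := by
  rw [UU]
  intro a b c l h
  simp at h

lemma UU_lin (g d : ℂ) : Lin2 (UU g d) := by
  intro φ₁ φ₂ c₁ c₂
  funext l
  induction hn : l.length using Nat.strong_induction_on generalizing l φ₁ φ₂ with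
  | _ n ih =>
    rcases l with _ | ⟨a, _ | ⟨m, _ | ⟨b, l⟩⟩⟩
    · simp [UU]
    · simp [UU]
    · simp [UU]
    · rw [UU_cons, UU_cons, UU_cons]
      simp only [List.length_cons] at hn
      rw [ih (l.length + 1) (by omega) (fun l' => φ₁ (a :: true :: l'))
        (fun l' => φ₂ (a :: true :: l')) (b :: l) (by simp),
        ih (l.length + 1) (by omega) (fun l' => φ₁ (a :: false :: l'))
        (fun l' => φ₂ (a :: false :: l')) (b :: l) (by simp)]
      ring

lemma UU_hl (g d : ℂ) : HL2 (UU g d) := by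
  intro a φ φ₁ φ₂ c₁ c₂ H l
  rcases l with _ | ⟨m, _ | ⟨b, l⟩⟩
  · simp only [UU_one, H]
  · simp [UU, H]
  · rw [UU_cons, UU_cons, UU_cons]
    have e1 : (fun l' => φ (a :: true :: l')) =
      fun l' => c₁ * φ₁ (a :: true :: l') + c₂ * φ₂ (a :: true :: l') := by
      funext l; exact H _
    have e2 : (fun l' => φ (a :: false :: l')) =
      fun l' => c₁ * φ₁ (a :: false :: l') + c₂ * φ₂ (a :: false :: l') := by
      funext l; exact H _
    rw [e1, e2, UU_lin, UU_lin]
    ring

lemma UU_two (g d : ℂ) (ψ : List Bool → ℂ) (a m b m' c : Bool) (l : List Bool) :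
    UU g d ψ (a :: m :: b :: m' :: c :: l) =
      uc g d a m b true * (uc g d b m' c true *
        UU g d (fun l' => ψ (a :: true :: b :: true :: l')) (c :: l) +
        uc g d b m' c false *
        UU g d (fun l' => ψ (a :: true :: b :: false :: l')) (c :: l)) +
      uc g d a m b false * (uc g d b m' c true *
        UU g d (fun l' => ψ (a :: false :: b :: true :: l')) (c :: l) +
        uc g d b m' c false *
        UU g d (fun l' => ψ (a :: false :: b :: false :: l')) (c :: l)) := by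
  rw [UU_cons, UU_cons, UU_cons]

lemma UU_short (g d : ℂ) (ψ : List Bool → ℂ) (l : List Bool) (h : l.length < 3) :
    UU g d ψ l = ψ l := by
  rcases l with _ | ⟨a, _ | ⟨m, _ | ⟨b, l⟩⟩⟩
  · simp [UU]
  · simp [UU]
  · simp [UU]
  · simp at h
    omega

/-- The part of the change of basis beyond the first two doubled strands. -/
noncomputable def UU' (g d : ℂ) (ψ : List Bool → ℂ) : List Bool → ℂ
  | a :: t :: b :: t' :: c :: l => UU g d (fun l' => ψ (a :: t :: b :: t' :: l')) (c :: l)
  | _ => 0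

lemma UU_eq (g d : ℂ) (ψ : List Bool → ℂ) (a m b m' c : Bool) (l : List Bool) :
    UU g d ψ (a :: m :: b :: m' :: c :: l) =
      u0 g d (lift (u0 g d) 2 (UU' g d ψ)) (a :: m :: b :: m' :: c :: l) := by
  rw [UU_two]
  simp only [u0, lift_succ_cons, lift_zero, UU']

lemma UU'_gX (z : ℂˣ) (g d : ℂ) (p : Bool) (ψ : List Bool → ℂ) :
    UU' g d (gX0 z d p ψ) = gX0 z d p (UU' g d ψ) := by
  funext l
  rcases l with _ | ⟨a, _ | ⟨t, _ | ⟨b, _ | ⟨t', _ | ⟨c, l⟩⟩⟩⟩⟩
  · simp [UU', gX0]
  · simp [UU', gX0]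
  · simp [UU', gX0]
  · simp [UU', gX0]
  · simp [UU', gX0]
  · simp only [UU']
    by_cases h : tleg t a b ∧ tleg t' b c
    · cases t
      · cases t'
        · rw [gX0]
          simp only [h, and_self, if_true]
          refine (UU_hl g d).congr c _ _ (fun l' => ?_) l
          simp only [gX0, h, and_self, if_true]
        · rw [gX0]
          simp only [h, and_self, if_true]
          refine (UU_hl g d).congr c _ _ (fun l' => ?_) l
          simp only [gX0, h, and_self, if_true]
      · cases t'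
        · rw [gX0]
          simp only [h, and_self, if_true]
          refine (UU_hl g d).congr c _ _ (fun l' => ?_) l
          simp only [gX0, h, and_self, if_true]
        · rw [gX0]
          simp only [h, and_self, if_true]
          have := (UU_hl g d).three c (fun l' => gX0 z d p ψ (a :: true :: b :: true :: l'))
            (fun l' => ψ (a :: true :: b :: true :: l'))
            (fun l' => ψ (a :: true :: true :: true :: l'))
            (fun l' => ψ (a :: true :: false :: true :: l'))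
            (-cA z p) (if a = c then -(cB z p * wt d b * wti d a) else 0)
            (if a = c ∧ a = true then -(cB z p * wt d b * wti d a) else 0) (fun l' => by
              simp only [gX0, h, and_self, if_true]
              by_cases hac : a = c
              · subst hac
                cases a <;> simp <;> ring
              · simp [hac]) l
          rw [this]
          by_cases hac : a = c
          · subst hac
            cases a <;> simp [UU'] <;> ring
          · simp [hac, UU']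
    · have e : gX0 z d p (UU' g d ψ) (a :: t :: b :: t' :: c :: l) = 0 := by
        simp only [gX0, if_neg h]
      rw [e]
      have := (UU_hl g d).smul c (fun l' => gX0 z d p ψ (a :: t :: b :: t' :: l'))
        (fun _ => 0) 0 (fun l' => by simp only [gX0, if_neg h, zero_mul]) l
      rw [this, zero_mul]

lemma u0_comm (g d : ℂ) (χ : List Bool → ℂ) :
    lift (u0 g d) 2 (u0 g d χ) = u0 g d (lift (u0 g d) 2 χ) := by
  funext l
  rcases l with _ | ⟨a, _ | ⟨t, _ | ⟨b, _ | ⟨t', _ | ⟨c, l⟩⟩⟩⟩⟩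
  · simp [u0]
  · simp [u0]
  · simp [u0]
  · simp [u0]
  · simp [u0]
  · simp only [lift_succ_cons, lift_zero, u0]
    ring

lemma dX0_u0 (z : ℂˣ) (g d : ℂ) (hd : d * d = d + 1)
    (hz : (z : ℂ) ^ 4 + (z : ℂ) ^ 3 + (z : ℂ) ^ 2 + z + 1 = 0)
    (hzd : d = -((z : ℂ) ^ 2 + (z : ℂ) ^ 3)) (hzi : ((z⁻¹ : ℂˣ) : ℂ) = (z : ℂ) ^ 4) (p : Bool)
    (ψ : List Bool → ℂ) :
    dX0 z d p (u0 g d (lift (u0 g d) 2 ψ)) = u0 g d (lift (u0 g d) 2 (gX0 z d p ψ)) := by
  unfold dX0
  rw [half1 z g d hd hz hzd hzi]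
  have h1 : ∀ Φ, lift (pX0 z d p) 1 (lift (pX0 z d p) 2 (lift (u0 g d) 1 Φ)) =
      lift (u0 g d) 2 (lift (h0 z d p) 1 Φ) := by
    intro Φ
    have e1 : lift (pX0 z d p) 2 (lift (u0 g d) 1 Φ) =
        lift (fun φ => lift (pX0 z d p) 1 (u0 g d φ)) 1 Φ := by
      have := lift_comp (lift (pX0 z d p) 1) (u0 g d) 1 Φ
      rw [this, ← lift_add]
    have e2 : lift (u0 g d) 2 (lift (h0 z d p) 1 Φ) =
        lift (fun φ => lift (u0 g d) 1 (h0 z d p φ)) 1 Φ := by
      have := lift_comp (lift (u0 g d) 1) (h0 z d p) 1 Φ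
      rw [this, ← lift_add]
    rw [e1, e2, ← lift_comp]
    congr 1
    funext φ
    exact half1 z g d hd hz hzd hzi p φ
  rw [h1, half2 z g d hd hz hzd hzi, u0_comm]

lemma base_cross (z : ℂˣ) (g d : ℂ) (hd : d * d = d + 1)
    (hz : (z : ℂ) ^ 4 + (z : ℂ) ^ 3 + (z : ℂ) ^ 2 + z + 1 = 0)
    (hzd : d = -((z : ℂ) ^ 2 + (z : ℂ) ^ 3)) (hzi : ((z⁻¹ : ℂˣ) : ℂ) = (z : ℂ) ^ 4) (p : Bool)
    (ψ : List Bool → ℂ) :
    dX0 z d p (UU g d ψ) = UU g d (gX0 z d p ψ) := by
  funext l
  rcases l with _ | ⟨a, _ | ⟨m, _ | ⟨b, _ | ⟨m', _ | ⟨c, l⟩⟩⟩⟩⟩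
  · simp [dX0, UU_short, gX0]
  · simp [dX0, UU_short, gX0, pX0]
  · simp [dX0, UU_short, gX0, pX0]
  · rw [UU_cons, UU_short _ _ _ _ (by simp), UU_short _ _ _ _ (by simp)]
    simp [dX0, gX0, pX0]
  · rw [UU_cons, UU_short _ _ _ _ (by simp), UU_short _ _ _ _ (by simp)]
    simp [dX0, gX0, pX0, pCap0, pCup0]
  · rw [UU_eq, UU'_gX, ← dX0_u0 z g d hd hz hzd hzi]
    simp only [dX0, pX0, pCup0, pCap0, lift_succ_cons, lift_zero, UU_eq]

lemma base_cup (g d : ℂ) (hd : d * d = d + 1) (hg : g * g = d - 1) (ψ : List Bool → ℂ) :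
    dCup0 d (UU g d ψ) = UU g d (gCup0 d ψ) := by
  funext l
  rcases l with _ | ⟨a, _ | ⟨m, _ | ⟨b, _ | ⟨m', _ | ⟨c, l⟩⟩⟩⟩⟩
  · simp [dCup0, UU_short, gCup0]
  · simp [dCup0, UU_short, gCup0, pCup0]
  · simp [dCup0, UU_short, gCup0, pCup0]
  · rw [UU_cons, UU_short _ _ _ _ (by simp), UU_short _ _ _ _ (by simp)]
    simp [dCup0, gCup0, pCup0]
  · rw [UU_cons, UU_short _ _ _ _ (by simp), UU_short _ _ _ _ (by simp)]
    simp [dCup0, gCup0, pCup0]
  have key : ∀ t t', UU g d (fun l' => gCup0 d ψ (a :: t :: b :: t' :: l')) (c :: l) =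
      (if t = t' ∧ c = a then
        (if t then (if (a || b) then wt d b else 0) else (if b = a then 1 else 0)) else 0) *
      UU g d ψ (c :: l) := by
    intro t t'
    refine (UU_hl g d).smul c _ _ _ (fun l' => ?_) l
    simp only [gCup0]
    split_ifs with h <;> simp_all
  rw [UU_two, key, key, key, key]
  simp only [dCup0, lift_succ_cons, lift_zero, pCup0]
  cases a <;> cases m <;> cases b <;> cases m' <;> cases c <;> simp [uc, wt] <;> grind

lemma base_cap (g d : ℂ) (hd : d * d = d + 1) (hg : g * g = d - 1) (ψ : List Bool → ℂ) :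
    dCap0 d (UU g d ψ) = UU g d (gCap0 d ψ) := by
  funext l
  rcases l with _ | ⟨a, l⟩
  · simp [dCap0, UU_short, gCap0, pCap0]
  have key := (UU_hl g d).three a (gCap0 d ψ)
    (fun l' => ψ (a :: true :: true :: true :: l'))
    (fun l' => ψ (a :: true :: false :: true :: l'))
    (fun l' => ψ (a :: false :: a :: false :: l'))
    (wti d a) (if a then wti d a else 0) 1 (fun l' => by
      simp only [gCap0]
      cases a <;> simp
      ring) l
  rw [key]
  simp only [dCap0, pCap0, lift_succ_cons, lift_zero, UU_cons]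
  cases a <;> simp [uc, wt, wti] <;> grind

end Pool.Agent.Helper2
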